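import Pool.Agent.H28.CU.Stm

set_option autoImplicit false

namespace Pool.Agent.H28.CU

open Finset Module

theorem avg : S_AVG := by
  classical
  intro p n _ S 𝒢 hS hirr U
  have : Finite ((Fin n → ZMod p) ≃ₗ[ZMod p] (Fin n → ZMod p)) :=
    Finite.of_injective (fun g => (g : (Fin n → ZMod p) → (Fin n → ZMod p))) DFunLike.coe_injective
  have : Fintype 𝒢 := Fintype.ofFinite _
  have : Fintype (Fin n → ZMod p) := Fintype.ofFinite _
  -- the number of elements moving `s` into `U`
  let a : (Fin n → ZMod p) → ℕ := fun s => (univ.filter fun g : 𝒢 => g.1 s ∈ U).card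
  have hinv : ∀ (h : 𝒢) (s : Fin n → ZMod p), a (h.1 s) = a s := by
    intro h s
    refine Finset.card_bij (fun g _ => g * h) ?_ ?_ ?_
    · intro g hg
      rw [mem_filter] at hg ⊢
      exact ⟨mem_univ _, hg.2⟩
    · intro g _ g' _ hgg
      exact mul_right_cancel hgg
    · intro g hg
      refine ⟨g * h⁻¹, ?_, by simp⟩
      rw [mem_filter] at hg ⊢
      refine ⟨mem_univ _, ?_⟩
      have h1 : (g * h⁻¹ * h).1 s = g.1 s := by rw [inv_mul_cancel_right]
      have h2 : (g * h⁻¹ * h).1 s = (g * h⁻¹).1 (h.1 s) := rfl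
      rw [← h2, h1]
      exact hg.2
  have key : ∀ s ∈ S, n * a s ≤ Fintype.card 𝒢 * finrank (ZMod p) U := by
    intro s hs
    let O : Set (Fin n → ZMod p) := Set.range fun g : 𝒢 => g.1 s
    have hspan : Submodule.span (ZMod p) O = ⊤ := by
      refine hirr _ ?_ ⟨s, hs, Submodule.subset_span ⟨1, rfl⟩⟩
      intro g hg u hu
      have h1 : Submodule.span (ZMod p) O ≤ (Submodule.span (ZMod p) O).comap g.toLinearMap := by
        rw [Submodule.span_le]
        rintro _ ⟨h, rfl⟩
        exact Submodule.subset_span ⟨⟨g, hg⟩ * h, rfl⟩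
      exact h1 hu
    obtain ⟨b, hbO, hbs, hbi⟩ := exists_linearIndependent (ZMod p) O
    rw [hspan] at hbs
    have : Fintype b := Fintype.ofFinite _
    have hcard : Fintype.card b = n := by
      have h1 := Module.finrank_eq_card_basis (Basis.mk hbi (by rw [Subtype.range_coe, hbs]))
      rw [← h1]
      simp
    have hle : ∀ g : 𝒢, (univ.filter fun x : b => g.1 x.1 ∈ U).card ≤ finrank (ZMod p) U := by
      intro g
      have h1 : LinearIndependent (ZMod p) (fun x : {x : b // g.1 x.1 ∈ U} => g.1 x.1.1) := by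
        have h2 := (hbi.map' g.1.toLinearMap (LinearEquiv.ker g.1)).comp
          (fun x : {x : b // g.1 x.1 ∈ U} => x.1) Subtype.val_injective
        exact h2
      have h3 : LinearIndependent (ZMod p) (fun x : {x : b // g.1 x.1 ∈ U} => (⟨g.1 x.1.1, x.2⟩ : U)) :=
        LinearIndependent.of_comp U.subtype h1
      have h4 := h3.fintype_card_le_finrank
      rwa [Fintype.card_subtype] at h4
    have hax : ∀ x : b, a x.1 = a s := by
      intro x
      obtain ⟨h, hh⟩ := hbO x.2
      rw [← hh, hinv]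
    calc n * a s = ∑ x : b, a x.1 := by
          rw [Finset.sum_congr rfl (fun x _ => hax x), Finset.sum_const, Finset.card_univ, smul_eq_mul, hcard]
      _ = ∑ x : b, ∑ g : 𝒢, if g.1 x.1 ∈ U then 1 else 0 := by
          refine Finset.sum_congr rfl fun x _ => ?_
          rw [← Finset.card_filter]
      _ = ∑ g : 𝒢, ∑ x : b, if g.1 x.1 ∈ U then 1 else 0 := Finset.sum_comm
      _ = ∑ g : 𝒢, (univ.filter fun x : b => g.1 x.1 ∈ U).card := by
          refine Finset.sum_congr rfl fun g _ => ?_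
          rw [← Finset.card_filter]
      _ ≤ ∑ _g : 𝒢, finrank (ZMod p) U := Finset.sum_le_sum fun g _ => hle g
      _ = Fintype.card 𝒢 * finrank (ZMod p) U := by
          rw [Finset.sum_const, Finset.card_univ, smul_eq_mul]
  -- sum over `S`
  have hfS : S.Finite := Set.toFinite S
  have hSc : S.ncard = hfS.toFinset.card := Set.ncard_eq_toFinset_card S hfS
  have hSU : ∀ g : 𝒢, (hfS.toFinset.filter fun s => g.1 s ∈ U).card = {s | s ∈ S ∧ s ∈ U}.ncard := by
    intro g
    have h0 : {s | s ∈ S ∧ s ∈ U} = ((hfS.toFinset.filter fun s => s ∈ U : Finset _) : Set _) := by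
      ext s
      rw [Finset.mem_coe, Finset.mem_filter, Set.Finite.mem_toFinset]
      exact Iff.rfl
    rw [h0, Set.ncard_coe_finset]
    refine Finset.card_bij (fun s _ => g.1 s) ?_ ?_ ?_
    · intro s h1
      simp only [mem_filter, Set.Finite.mem_toFinset] at h1 ⊢
      exact ⟨hS g.1 g.2 s h1.1, h1.2⟩
    · intro s _ s' _ h1
      exact g.1.injective h1
    · intro s h1
      simp only [mem_filter, Set.Finite.mem_toFinset] at h1 ⊢
      refine ⟨(g⁻¹).1 s, ⟨hS _ (g⁻¹).2 s h1.1, ?_⟩, ?_⟩
      · have h2 : g.1 ((g⁻¹).1 s) = (g * g⁻¹).1 s := rfl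
        rw [h2, mul_inv_cancel]
        exact h1.2
      · have h2 : g.1 ((g⁻¹).1 s) = (g * g⁻¹).1 s := rfl
        rw [h2, mul_inv_cancel]
        rfl
  have hpos : 0 < Fintype.card 𝒢 := Fintype.card_pos
  refine Nat.le_of_mul_le_mul_left ?_ hpos
  calc Fintype.card 𝒢 * (n * {s | s ∈ S ∧ s ∈ U}.ncard)
      = n * ∑ g : 𝒢, (hfS.toFinset.filter fun s => g.1 s ∈ U).card := by
        rw [Finset.sum_congr rfl fun g _ => hSU g, Finset.sum_const, Finset.card_univ, smul_eq_mul]
        ring
    _ = n * ∑ s ∈ hfS.toFinset, a s := by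
        congr 1
        simp only [a, Finset.card_filter]
        exact Finset.sum_comm
    _ = ∑ s ∈ hfS.toFinset, n * a s := Finset.mul_sum _ _ _
    _ ≤ ∑ _s ∈ hfS.toFinset, Fintype.card 𝒢 * finrank (ZMod p) U :=
        Finset.sum_le_sum fun s hs => key s (hfS.mem_toFinset.1 hs)
    _ = Fintype.card 𝒢 * (S.ncard * finrank (ZMod p) U) := by
        rw [Finset.sum_const, hSc, smul_eq_mul]
        ring

end Pool.Agent.H28.CU
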