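import Pool.Agent.H28.CU.Stm

set_option autoImplicit false

/-!
# CU-B2: the square is a 4-cycle
-/

namespace Pool.Agent.H28.CU

open Finset Module SimpleGraph H931R3.LA Pool.Agent.W111.LAR Pool.Agent.TH486.LAC

namespace B2

/-- the 4-cycle `00 ↦ 10 ↦ 11 ↦ 01 ↦ 00` -/
def cyc : Equiv.Perm (Fin 2 → ZMod 2) where
  toFun x := ![x 1 + 1, x 0]
  invFun x := ![x 1, x 0 + 1]
  left_inv := by decide
  right_inv := by decide

end B2

theorem b2 : S_B2 := by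
  refine ⟨fun _ => B2.cyc, ⟨fun _ x y => ?_, ?_⟩⟩
  · have h : ∀ x y : Fin 2 → ZMod 2, ∃ n : Fin 4, (B2.cyc ^ (n : ℕ)) x = y := by decide
    obtain ⟨n, hn⟩ := h x y
    exact ⟨n, hn⟩
  · ext x y
    have h : ∀ x y : Fin 2 → ZMod 2, (x ≠ y ∧ ∃ i, y = x + Pi.single i 1 ∨ x = y + Pi.single i 1) ↔
        (x ≠ y ∧ (y = B2.cyc x ∨ x = B2.cyc y)) := by decide
    rw [SimpleGraph.iSup_adj]
    constructor
    · intro hxy
      exact ⟨0, (h x y).1 hxy⟩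
    · rintro ⟨_, hxy⟩
      exact (h x y).2 hxy

end Pool.Agent.H28.CU
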