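import Pool.Agent.H28.CU.Stm

set_option autoImplicit false

/-! Stub BP of the project CU (helper26) -/

namespace Pool.Agent.H28.CU

open Finset Module SimpleGraph H931R3.LA Pool.Agent.W111.LAR Pool.Agent.TH486.LAC

theorem bp : S_BP := by
  intro p _
  let e : Fin 1 → ZMod p := Pi.single 0 1
  let f : Equiv.Perm (Fin 1 → ZMod p) := Equiv.addRight e
  have hf : ∀ x, f x = x + e := fun x => rfl
  have hpow : ∀ (n : ℕ) (x : Fin 1 → ZMod p), (f ^ n) x = x + n • e := by
    intro n
    induction n with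
    | zero => intro x; simp
    | succ n ih =>
      intro x
      rw [pow_succ', Equiv.Perm.mul_apply, ih, hf, succ_nsmul, add_assoc]
  refine ⟨fun _ => f, ?_, ?_⟩
  · intro _ x y
    obtain ⟨n, hn⟩ : ∃ n : ℕ, (n : ZMod p) = y 0 - x 0 := by
      haveI : NeZero p := ⟨(Fact.out : p.Prime).ne_zero⟩
      exact ⟨(y 0 - x 0).val, ZMod.natCast_zmod_val _⟩
    refine ⟨n, ?_⟩
    rw [hpow]
    funext i
    obtain rfl : i = 0 := Subsingleton.elim _ _
    have : (n • e) 0 = (n : ZMod p) := by
      rw [Pi.smul_apply, nsmul_eq_mul]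
      simp [e]
    rw [Pi.add_apply, this, hn]
    ring
  · ext x y
    simp only [SimpleGraph.iSup_adj]
    constructor
    · rintro ⟨hne, i, hi⟩
      obtain rfl : i = 0 := Subsingleton.elim _ _
      exact ⟨0, hne, hi⟩
    · rintro ⟨_, hne, hi⟩
      exact ⟨hne, 0, hi⟩

end Pool.Agent.H28.CU
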