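import Pool.Agent.H28.CU.COVE

set_option autoImplicit false

namespace Pool.Agent.H28.CU

open Finset Module SimpleGraph H931R3.LA Pool.Agent.W111.LAR Pool.Agent.TH486.LAC

theorem covo : S_COVO := by
  intro W κ _ _ K L G P hG hP hL
  classical
  obtain ⟨H, h1, h2, h3, h4⟩ := cove_family K L G hG
  rw [h3, ← h4]
  exact cov_matching H P h1 hP L (by rw [h4]; exact hL) h2

end Pool.Agent.H28.CU
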