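import Pool.Agent.H28.CU.Stm

set_option autoImplicit false

/-! # Project CU, part CAY2 -/

namespace Pool.Agent.H28.CU

open Finset Module SimpleGraph H931R3.LA Pool.Agent.W111.LAR Pool.Agent.TH486.LAC

/-- The three parts of `LACov` follow from a covering statement for all locally injective
homomorphisms. -/
theorem lacov_of {Γ : Type} [Finite Γ] [Nonempty Γ] (X : SimpleGraph Γ) (N : ℕ) (hN : 0 < N)
    (hdeg : ∀ g, (X.neighborSet g).ncard = N)
    (h : ∀ (W : Type) [Finite W] (G : SimpleGraph W) (f : W → Γ),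
      (∀ a b, G.Adj a b → X.Adj (f a) (f b)) →
      (∀ a b c, G.Adj a b → G.Adj a c → f b = f c → b = c) → Cov G (N / 2 + 1)) :
    LACov X N := by
  have h2 : (N + 2) / 2 = N / 2 + 1 := by omega
  refine ⟨hdeg, ?_, ?_⟩
  · rw [← h2]
    refine la_eq_of_cov hN hdeg ?_
    rw [h2]
    exact h Γ X id (fun a b hab => hab) (fun a b c _ _ hbc => hbc)
  · intro W _ _ G f hom inj
    have h3 := h W G f hom inj
    refine ⟨la_le h3, fun hreg => ?_⟩
    rw [← h2]
    refine la_eq_of_cov hN hreg ?_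
    rw [h2]
    exact h3

theorem cay_ncard {Γ : Type} [Group Γ] (S : Set Γ) (X : SimpleGraph Γ)
    (hX : ∀ g h, X.Adj g h ↔ g⁻¹ * h ∈ S) (g : Γ) : (X.neighborSet g).ncard = S.ncard := by
  have : X.neighborSet g = (fun x => g * x) '' S := by
    ext h
    constructor
    · intro hh
      exact ⟨g⁻¹ * h, (hX g h).1 hh, by simp⟩
    · rintro ⟨x, hx, rfl⟩
      show X.Adj g (g * x)
      rw [hX]
      simpa using hx
  rw [this, Set.ncard_image_of_injective _ (mul_right_injective g)]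

theorem ncard_sub {Γ : Type} (S : Set Γ) (P : Γ → Prop) :
    {i : S | P i.1}.ncard = {s | s ∈ S ∧ P s}.ncard := by
  rw [← Set.ncard_image_of_injective _ Subtype.val_injective]
  congr 1
  ext s
  constructor
  · rintro ⟨i, hi, rfl⟩
    exact ⟨i.2, hi⟩
  · rintro ⟨h1, h2⟩
    exact ⟨⟨s, h1⟩, h2, rfl⟩

theorem cay2 : S_MC2 → S_CAY2 := by
  intro hM Γ V _ _ _ _ _ π S X k t hX hinv hne ht h1 h2 h3 h4 h5
  have hN : 0 < S.ncard := (Set.ncard_pos (Set.toFinite _)).2 hne
  refine lacov_of X S.ncard hN (cay_ncard S X hX) ?_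
  intro W _ G f hom inj
  have : Fintype S := Fintype.ofFinite S
  have hc : Fintype.card S = S.ncard := by
    rw [← Nat.card_eq_fintype_card, Nat.card_coe_set_eq]
  have key := hM V W S (fun s => (π s.1).toAdd) (fun a => (π (f a)).toAdd)
    (fun s a b => G.Adj a b ∧ (f a)⁻¹ * f b = s.1) G k t
  rw [hc] at key
  refine key ?_ ?_ ?_ ?_ ht h1 h2 h3 ?_ ?_
  · rintro s a b ⟨_, hs⟩
    have : f b = f a * s.1 := by rw [← hs]; simp
    rw [this, map_mul]
    rfl
  · rintro s a b b' ⟨hab, hs⟩ ⟨hab', hs'⟩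
    refine inj a b b' hab hab' ?_
    exact mul_left_cancel (hs.trans hs'.symm)
  · rintro s a b ⟨hab, hs⟩
    refine ⟨hab.symm, ?_⟩
    have h6 : (s.1)⁻¹ = s.1 := inv_eq_of_mul_eq_one_left (hinv _ s.2)
    rw [← h6, ← hs]
    group
  · intro a b
    constructor
    · intro hab
      exact ⟨⟨(f a)⁻¹ * f b, (hX _ _).1 (hom a b hab)⟩, hab, rfl⟩
    · rintro ⟨s, hab, _⟩
      exact hab
  · intro U hU
    have := ncard_sub S (fun s => (π s).toAdd ∈ U)
    rw [this]
    exact h4 U hU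
  · intro U hU
    have := ncard_sub S (fun s => (π s).toAdd ∈ U)
    rw [this]
    exact h5 U hU

end Pool.Agent.H28.CU
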