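import Pool.Agent.H28.CU.Cay2

set_option autoImplicit false

/-! # Project CU, part CAYP -/

namespace Pool.Agent.H28.CU

open Finset Module SimpleGraph H931R3.LA Pool.Agent.W111.LAR Pool.Agent.TH486.LAC

theorem ncard_half {Γ : Type} [Finite Γ] (S T : Set Γ) (σ : Γ → Γ) (P : Γ → Prop)
    (hσ : ∀ s ∈ S, σ s ∈ S ∧ σ (σ s) = s) (hP : ∀ s ∈ S, P s → P (σ s)) (hTS : T ⊆ S)
    (hT : ∀ s ∈ S, s ∈ T ∨ σ s ∈ T) (hT' : ∀ s ∈ T, σ s ∉ T) :
    {s | s ∈ S ∧ P s}.ncard = 2 * {s | s ∈ T ∧ P s}.ncard := by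
  have h1 : {s | s ∈ S ∧ P s} = {s | s ∈ T ∧ P s} ∪ σ '' {s | s ∈ T ∧ P s} := by
    ext s
    constructor
    · rintro ⟨hs, hp⟩
      rcases hT s hs with h | h
      · left; exact ⟨h, hp⟩
      · right; exact ⟨σ s, ⟨h, hP s hs hp⟩, (hσ s hs).2⟩
    · rintro (⟨hs, hp⟩ | ⟨s', ⟨hs, hp⟩, rfl⟩)
      · exact ⟨hTS hs, hp⟩
      · exact ⟨(hσ _ (hTS hs)).1, hP _ (hTS hs) hp⟩
  have h2 : Disjoint {s | s ∈ T ∧ P s} (σ '' {s | s ∈ T ∧ P s}) := by
    rw [Set.disjoint_left]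
    rintro _ ⟨hs, _⟩ ⟨s', ⟨hs', _⟩, rfl⟩
    exact hT' s' hs' hs
  have h3 : (σ '' {s | s ∈ T ∧ P s}).ncard = {s | s ∈ T ∧ P s}.ncard := by
    refine Set.ncard_image_of_injOn ?_
    rintro a ⟨ha, _⟩ b ⟨hb, _⟩ hab
    rw [← (hσ a (hTS ha)).2, hab, (hσ b (hTS hb)).2]
  rw [h1, Set.ncard_union_eq h2 (Set.toFinite _) (Set.toFinite _), h3]
  ring

theorem cayp : S_MCP → S_HALF → S_CAYP := by
  intro hM hH p hp Γ V _ _ _ _ _ π S X k t hp2 hX hne ht h1 h2 h3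
  have hN : 0 < S.ncard := (Set.ncard_pos (Set.toFinite _)).2 hne
  have hp2' : (2 : ZMod p) ≠ 0 := by
    intro h
    have : ((2 : ℕ) : ZMod p) = 0 := by exact_mod_cast h
    rw [ZMod.natCast_eq_zero_iff] at this
    exact hp2 ((Nat.prime_dvd_prime_iff_eq hp.out Nat.prime_two).1 this)
  -- symmetric
  have hsymm : ∀ s ∈ S, s⁻¹ ∈ S := by
    intro s hs
    have h4 : X.Adj 1 s := (hX 1 s).2 (by simpa using hs)
    have h5 := (hX s 1).1 h4.symm
    simpa using h5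
  have hne0 : ∀ s ∈ S, (π s).toAdd ≠ 0 := by
    intro s hs h0
    have h4 := h3 ⊥ (by rw [finrank_bot]; exact Nat.zero_le _)
    rw [finrank_bot, mul_zero, Nat.le_zero, Set.ncard_eq_zero (Set.toFinite _)] at h4
    have h5 : s ∈ {s | s ∈ S ∧ (π s).toAdd ∈ (⊥ : Submodule (ZMod p) V)} :=
      ⟨hs, by rw [Submodule.mem_bot]; exact h0⟩
    rw [h4] at h5
    exact h5
  have hinv : ∀ s ∈ S, s⁻¹ ≠ s := by
    intro s hs h
    refine hne0 s hs ?_
    have h4 : (π s⁻¹).toAdd = (π s).toAdd := by rw [h]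
    rw [map_inv, toAdd_inv] at h4
    have h5 : (2 : ZMod p) • (π s).toAdd = 0 := by
      rw [two_smul]
      nth_rewrite 1 [← h4]
      exact neg_add_cancel _
    exact (smul_eq_zero.1 h5).resolve_left hp2'
  obtain ⟨T, hTS, hT, hT'⟩ := hH Γ S (fun s => s⁻¹) (Set.toFinite _)
    (fun s hs => ⟨hsymm s hs, inv_inv s, hinv s hs⟩)
  have hST : S.ncard = 2 * T.ncard := by
    have := ncard_half S T (fun s => s⁻¹) (fun _ => True)
      (fun s hs => ⟨hsymm s hs, inv_inv s⟩) (fun _ _ h => h) hTS hT hT'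
    simpa using this
  refine lacov_of X S.ncard hN (cay_ncard S X hX) ?_
  intro W _ G f hom inj
  have : Fintype T := Fintype.ofFinite T
  have hc : Fintype.card T = T.ncard := by
    rw [← Nat.card_eq_fintype_card, Nat.card_coe_set_eq]
  have key := hM p V W T (fun s => (π s.1).toAdd) (fun a => (π (f a)).toAdd)
    (fun s a b => G.Adj a b ∧ (f a)⁻¹ * f b = s.1) G k t hp2
  rw [hc] at key
  have h6 : S.ncard / 2 + 1 = T.ncard + 1 := by omega
  rw [h6]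
  refine key ?_ ?_ ?_ ?_ ht ?_ ?_ ?_
  · rintro s a b ⟨_, hs⟩
    have : f b = f a * s.1 := by rw [← hs]; simp
    rw [this, map_mul]
    rfl
  · rintro s a b b' ⟨hab, hs⟩ ⟨hab', hs'⟩
    refine inj a b b' hab hab' ?_
    exact mul_left_cancel (hs.trans hs'.symm)
  · rintro s a b b' ⟨hab, hs⟩ ⟨hab', hs'⟩
    refine inj a b b' hab.symm hab'.symm ?_
    have h7 := hs.trans hs'.symm
    have h8 := mul_right_cancel h7
    exact inv_injective h8
  · intro a b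
    constructor
    · intro hab
      rcases hT _ ((hX _ _).1 (hom a b hab)) with h7 | h7
      · exact ⟨⟨_, h7⟩, Or.inl ⟨hab, rfl⟩⟩
      · refine ⟨⟨_, h7⟩, Or.inr ⟨hab.symm, ?_⟩⟩
        show (f b)⁻¹ * f a = ((f a)⁻¹ * f b)⁻¹
        group
    · rintro ⟨s, ⟨hab, _⟩ | ⟨hab, _⟩⟩
      · exact hab
      · exact hab.symm
  · omega
  · omega
  · intro U hU
    have h7 := ncard_sub T (fun s => (π s).toAdd ∈ U)
    rw [h7]
    have h8 := ncard_half S T (fun s => s⁻¹) (fun s => (π s).toAdd ∈ U)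
      (fun s hs => ⟨hsymm s hs, inv_inv s⟩) (fun s _ h => by
        show (π s⁻¹).toAdd ∈ U
        rw [map_inv, toAdd_inv]
        exact U.neg_mem h) hTS hT hT'
    have h9 := h3 U hU
    rw [h8, hST, Nat.mul_div_mul_left _ _ two_pos, mul_assoc] at h9
    exact Nat.le_of_mul_le_mul_left h9 two_pos

end Pool.Agent.H28.CU
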