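import Pool.Agent.H28.CU.Stm

set_option autoImplicit false

/-! # Project CU, part CUBE -/

namespace Pool.Agent.H28.CU

open Finset Module SimpleGraph H931R3.LA Pool.Agent.W111.LAR Pool.Agent.TH486.LAC

theorem cube : S_B2 → S_GLUE → S_HL → S_CUBE := by
  intro hB hG hH
  have : Fact (Nat.Prime 2) := ⟨Nat.prime_two⟩
  have ht : ∀ k : ℕ, HT 2 (2 ^ (k + 1)) (2 ^ k) := by
    intro k
    induction k with
    | zero => exact hB
    | succ k ih =>
      have := (hG 2 _ _ _ _ ih ih Nat.one_le_two_pow le_rfl le_rfl).2 rfl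
      rw [← two_mul, ← two_mul, ← pow_succ', ← pow_succ'] at this
      exact this
  intro k m hm
  have h2 : 2 ^ (k + 1) / 2 = 2 ^ k := by
    rw [pow_succ]
    exact Nat.mul_div_cancel _ two_pos
  rcases hm with rfl | rfl
  · obtain ⟨h, hh⟩ := ht k
    have := hH _ _ _ h hh
    rw [h2]
    refine ⟨h, ?_⟩
    have hc : Nat.card (Fin (2 ^ (k + 1)) → ZMod 2) = 2 ^ 2 ^ (k + 1) := by
      simp
    rw [hc] at this
    exact this
  · have h3 : 2 ≤ 2 ^ (k + 1) := by
      have : 1 ≤ 2 ^ k := Nat.one_le_two_pow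
      rw [pow_succ]
      omega
    have := (hG 2 2 (2 ^ (k + 1)) 1 (2 ^ k) hB (ht k) one_le_two h3 Nat.one_le_two_pow).1
    have e1 : 2 + 2 ^ (k + 1) = 2 ^ (k + 1) + 2 := add_comm _ _
    have e2 : 1 + 2 ^ k = (2 ^ (k + 1) + 2) / 2 := by
      rw [Nat.add_div_right _ two_pos, h2]
      omega
    rw [e1, e2] at this
    exact this

end Pool.Agent.H28.CU
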