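import Pool.Agent.H28.CU.Stm

set_option autoImplicit false

namespace Pool.Agent.H28.CU

theorem den2 : S_DEN2 := by
  intro n N t x d ht htn htN hx
  have hdiv : t * (N / t) + N % t = N := Nat.div_add_mod N t
  have hmod : N % t < t := Nat.mod_lt _ (by omega)
  obtain ⟨q, hq⟩ : ∃ q, q = N / t := ⟨_, rfl⟩
  obtain ⟨r, hr⟩ : ∃ r, r = N % t := ⟨_, rfl⟩
  rw [← hq, ← hr] at hdiv
  rw [← hr] at hmod
  rw [← hq, ← hr]
  refine ⟨fun _ => ?_, fun hd => ?_⟩
  · have h1 : r ≤ 2 * q := by
      by_contra hcon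
      push Not at hcon
      have h2 : 2 * q + 2 ≤ t := by omega
      have h3 : t * (2 * q + 2) ≤ t * t := Nat.mul_le_mul_left t h2
      nlinarith
    have h2 : N ≤ n * q := by
      have : (t + 2) * q ≤ n * q := Nat.mul_le_mul_right q htn
      nlinarith
    have h3 : n * x ≤ n * (q * d) := by
      calc n * x ≤ N * d := hx
        _ ≤ (n * q) * d := Nat.mul_le_mul_right d h2
        _ = n * (q * d) := by ring
    exact Nat.le_of_mul_le_mul_left h3 (by omega)
  · subst hd
    have h1 : (t + 2) * x ≤ N * (t + 1) := (Nat.mul_le_mul_right x htn).trans hx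
    have h2 : x ≤ N := by
      have : (t + 2) * x ≤ (t + 2) * N := by nlinarith
      exact Nat.le_of_mul_le_mul_left this (by omega)
    obtain ⟨y, rfl⟩ := Nat.exists_eq_add_of_le h2
    have h3 : t < 2 * y + 1 := by
      by_contra hcon
      push Not at hcon
      have h4 : (t + 2) * (2 * y + 1) ≤ (t + 2) * t := Nat.mul_le_mul_left _ hcon
      nlinarith
    omega

end Pool.Agent.H28.CU
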