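import Pool.Agent.H28.CU.Stm

set_option autoImplicit false

namespace Pool.Agent.H28.CU

open Finset Module SimpleGraph H931R3.LA Pool.Agent.W111.LAR Pool.Agent.TH486.LAC

theorem hl : S_HL := by
  intro X κ _ A h hA
  refine ⟨fun i x => ?_, hA.un⟩
  have h1 : {w | (fgr (h i)).Reachable x w} = Set.univ := by
    ext w
    simp only [Set.mem_ofPred_eq, Set.mem_univ, iff_true]
    obtain ⟨n, hn⟩ := hA.tr i x w
    rw [← hn, ← Equiv.Perm.iterate_eq_pow]
    exact fgr_reach (h i) x n
  unfold csize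
  rw [h1, Set.ncard_univ]

end Pool.Agent.H28.CU
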