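import Pool.Agent.H28.CU.Stm

set_option autoImplicit false

namespace Pool.Agent.H28.CU

theorem half : S_HALF := by
  intro Γ S σ _ h
  refine ⟨{s | s ∈ S ∧ WellOrderingRel s (σ s)}, fun s hs => hs.1, fun s hs => ?_, fun s hs h2 => ?_⟩
  · obtain ⟨h1, h2, h3⟩ := h s hs
    rcases trichotomous_of (WellOrderingRel (α := Γ)) s (σ s) with h4 | h4 | h4
    · exact Or.inl ⟨hs, h4⟩
    · exact absurd h4.symm h3
    · refine Or.inr ⟨h1, ?_⟩
      rw [h2]
      exact h4
  · have h3 := h2.2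
    rw [(h s hs.1).2.1] at h3
    exact asymm_of (WellOrderingRel (α := Γ)) hs.2 h3

end Pool.Agent.H28.CU
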