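import Pool.Agent.H28.CU.Stm

set_option autoImplicit false

namespace Pool.Agent.H28.CU

open Finset Module

theorem loc : S_LOC := by
  classical
  intro p _ V W ι _ _ _ _ v φ c G m hm hv hφ h1 h2 hp2 hG
  obtain ⟨g, hg⟩ := LinearMap.exists_leftInverse_of_injective (Finsupp.linearCombination (ZMod p) v)
    (LinearMap.ker_eq_bot.2 hv)
  have hgv : ∀ i, g (v i) = Finsupp.single i 1 := by
    intro i
    have h3 := LinearMap.congr_fun hg (Finsupp.single i 1)
    rw [LinearMap.comp_apply, Finsupp.linearCombination_single, one_smul] at h3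
    exact h3
  let σ : Fin m ≃ ι := (Fintype.equivFinOfCardEq hm).symm
  let ψ : W → Fin m → ZMod p := fun a s => g (φ a) (σ s)
  have hψ : ∀ i a b, c i a b → ψ b = ψ a + Pi.single (σ.symm i) 1 := by
    intro i a b hc
    funext s
    show g (φ b) (σ s) = g (φ a) (σ s) + (Pi.single (σ.symm i) 1 : Fin m → ZMod p) s
    rw [hφ i a b hc, map_add, hgv, Finsupp.add_apply]
    congr 1
    by_cases hs : i = σ s
    · subst hs
      rw [Finsupp.single_eq_same, σ.symm_apply_apply, Pi.single_eq_same]
    · rw [Finsupp.single_apply, if_neg hs, Pi.single_eq_of_ne]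
      intro h3
      apply hs
      rw [h3, σ.apply_symm_apply]
  have hne : ∀ i : Fin m, (Pi.single i 1 : Fin m → ZMod p) ≠ 0 := by
    intro i h3
    have h4 := congrFun h3 i
    rw [Pi.single_eq_same] at h4
    exact one_ne_zero h4
  have hinj : ∀ i i' : ι, (Pi.single (σ.symm i) 1 : Fin m → ZMod p) = Pi.single (σ.symm i') 1 → i = i' := by
    intro i i' h3
    have h4 := congrFun h3 (σ.symm i)
    rw [Pi.single_eq_same] at h4
    by_contra h5
    rw [Pi.single_eq_of_ne (fun h6 => h5 (σ.symm.injective h6))] at h4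
    exact one_ne_zero h4
  have hneg : ∀ i i' : ι, (Pi.single (σ.symm i) 1 : Fin m → ZMod p) = - Pi.single (σ.symm i') 1 → i = i' ∧ p = 2 := by
    intro i i' h3
    have h4 := congrFun h3 (σ.symm i)
    rw [Pi.single_eq_same, Pi.neg_apply] at h4
    by_cases h5 : i = i'
    · refine ⟨h5, ?_⟩
      rw [← h5, Pi.single_eq_same] at h4
      have h6 : ((2 : ℕ) : ZMod p) = 0 := by
        push_cast
        have : (1 : ZMod p) + 1 = 0 := by nth_rewrite 1 [h4]; ring
        rw [← this]; norm_num
      rw [ZMod.natCast_eq_zero_iff] at h6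
      exact (Nat.prime_dvd_prime_iff_eq (Fact.out : p.Prime) Nat.prime_two).1 h6
    · rw [Pi.single_eq_of_ne (fun h6 => h5 (σ.symm.injective h6)), neg_zero] at h4
      exact absurd h4 one_ne_zero
  refine ⟨ψ, fun a b hab => ?_, fun a b b' hb hb' hbb => ?_⟩
  · obtain ⟨i, hi | hi⟩ := (hG a b).1 hab
    · have h3 := hψ i a b hi
      refine ⟨fun h4 => hne (σ.symm i) ?_, σ.symm i, Or.inl h3⟩
      rw [← h4] at h3
      exact left_eq_add.1 h3
    · have h3 := hψ i b a hi
      refine ⟨fun h4 => hne (σ.symm i) ?_, σ.symm i, Or.inr h3⟩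
      rw [← h4] at h3
      exact left_eq_add.1 h3
  · obtain ⟨i, hi | hi⟩ := (hG a b).1 hb <;> obtain ⟨i', hi' | hi'⟩ := (hG a b').1 hb'
    · have h3 := hψ i a b hi
      have h4 := hψ i' a b' hi'
      rw [hbb, h4] at h3
      have h5 := hinj i' i (add_left_cancel h3)
      subst h5
      exact h1 i' a b b' hi hi'
    · have h3 := hψ i a b hi
      have h4 := hψ i' b' a hi'
      have h5 : (Pi.single (σ.symm i) 1 : Fin m → ZMod p) = - Pi.single (σ.symm i') 1 := by
        rw [hbb, h4, add_assoc] at h3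
        exact eq_neg_of_add_eq_zero_right (left_eq_add.1 h3)
      obtain ⟨h6, h7⟩ := hneg i i' h5
      subst h6
      exact h1 i a b b' hi (hp2 h7 i b' a hi')
    · have h3 := hψ i b a hi
      have h4 := hψ i' a b' hi'
      have h5 : (Pi.single (σ.symm i') 1 : Fin m → ZMod p) = - Pi.single (σ.symm i) 1 := by
        rw [← hbb, h3, add_assoc] at h4
        exact eq_neg_of_add_eq_zero_right (left_eq_add.1 h4)
      obtain ⟨h6, h7⟩ := hneg i' i h5
      subst h6
      exact h1 i' a b b' (hp2 h7 i' b a hi) hi'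
    · have h3 := hψ i b a hi
      have h4 := hψ i' b' a hi'
      rw [hbb, h4] at h3
      have h5 := hinj i' i (add_left_cancel h3)
      subst h5
      exact h2 i' a b b' hi hi'

end Pool.Agent.H28.CU
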