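import Pool.Agent.H28.CU.Stm

/-! # Project CU: the main theorem for labelled graphs, `p = 2` (helper12) -/

set_option autoImplicit false

namespace Pool.Agent.H28.CU

open Finset Module SimpleGraph H931R3.LA Pool.Agent.W111.LAR Pool.Agent.TH486.LAC

namespace Mc2Aux

lemma sum_if (l a x y : ℕ) (h : a ≤ l) :
    ∑ j : Fin l, (if (j : ℕ) < a then x + y else x) = l * x + a * y := by
  rw [Fin.sum_univ_eq_sum_range (fun j => if j < a then x + y else x) l]
  have h1 : ∀ j ∈ Finset.range l, (if j < a then x + y else x) = x + (if j < a then y else 0) := by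
    intro j _
    split_ifs <;> rfl
  rw [Finset.sum_congr rfl h1, Finset.sum_add_distrib, Finset.sum_const, Finset.card_range,
    smul_eq_mul, ← Finset.sum_filter, Finset.sum_const, smul_eq_mul]
  have h2 : (Finset.range l).filter (fun j => j < a) = Finset.range a := by
    ext j
    simp only [Finset.mem_filter, Finset.mem_range]
    omega
  rw [h2, Finset.card_range]

end Mc2Aux

open Mc2Aux

theorem mc2 : S_PART → S_LOC → S_PIECE → S_CUBE → S_COVE → S_COVO → S_MC2 := by
  intro hPart hLoc hPiece hCube hCove hCovo V W ι _ _ _ _ _ v φ c G k t hφ hfun hsym hG ht hN hev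
    hodd hU hU1
  classical
  have : FiniteDimensional (ZMod 2) V := inferInstance
  obtain ⟨N, hNd⟩ : ∃ N, N = Fintype.card ι := ⟨_, rfl⟩
  rw [← hNd] at hN hev hodd hU hU1 ⊢
  obtain ⟨h, hh⟩ : ∃ h, t = 2 * h := ⟨2 ^ k, by rw [ht, pow_succ]; ring⟩
  have hh1 : 1 ≤ h := by
    rcases Nat.eq_zero_or_pos h with h0 | h0
    · subst h0
      rw [ht] at hh
      have : 0 < 2 ^ (k + 1) := by positivity
      omega
    · exact h0
  have htpos : 0 < t := by omega
  obtain ⟨l, hl⟩ : ∃ l, l = N / t := ⟨_, rfl⟩
  obtain ⟨a, ha⟩ : ∃ a, a = N % t / 2 := ⟨_, rfl⟩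
  obtain ⟨ε, hε⟩ : ∃ ε, ε = N % 2 := ⟨_, rfl⟩
  rw [← hl] at hU
  rw [← ha] at hU1
  have hdiv : N = t * l + N % t := by rw [hl]; exact (Nat.div_add_mod N t).symm
  have hmod : N % t < t := Nat.mod_lt _ htpos
  have hmod2 : N % t = 2 * a + ε := by
    have h1 : N % t % 2 = N % 2 := Nat.mod_mod_of_dvd N ⟨h, hh⟩
    omega
  have hε1 : ε ≤ 1 := by omega
  have hNsum : N = l * t + 2 * a + ε := by rw [mul_comm l t]; omega
  have hal : a ≤ l := by
    have h1 : a ≤ h - 1 := by omega
    have h2 : h - 1 ≤ l := by
      rw [hl, Nat.le_div_iff_mul_le htpos]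
      have h3 : t * (t - 2) = 2 * ((h - 1) * t) := by
        have : t - 2 = 2 * (h - 1) := by omega
        rw [this]; ring
      rw [h3] at hN
      omega
    omega
  -- the sizes
  let m : Option (Fin l) → ℕ := fun j => match j with
    | none => ε
    | some j => if (j : ℕ) < a then t + 2 else t
  have hmsome : ∀ j : Fin l, m (some j) = if (j : ℕ) < a then t + 2 else t := fun j => rfl
  have hmnone : m none = ε := rfl
  have hsum : ∑ j, m j = Fintype.card ι := by
    rw [Fintype.sum_option, hmnone]
    simp only [hmsome]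
    rw [sum_if l a t 2 hal, ← hNd]
    omega
  obtain ⟨cc, hcc⟩ := hPart (ZMod 2) V ι (Option (Fin l)) v m hsum (by
    intro U
    rw [Fintype.sum_option, hmnone]
    simp only [hmsome]
    obtain ⟨d, hd⟩ : ∃ d, d = finrank (ZMod 2) U := ⟨_, rfl⟩
    rw [← hd]
    rcases Nat.lt_or_ge t d with htd | htd
    · rcases Nat.lt_or_ge (t + 1) d with htd2 | htd2
      · -- d ≥ t + 2
        have h1 : ∀ j : Fin l, min d (if (j : ℕ) < a then t + 2 else t) =
            if (j : ℕ) < a then t + 2 else t := by
          intro j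
          apply min_eq_right
          split_ifs <;> omega
        simp only [h1]
        rw [sum_if l a t 2 hal]
        have h2 : min d ε = ε := min_eq_right (by omega)
        rw [h2]
        have h3 : {i | v i ∈ U}.ncard ≤ N := by
          rw [hNd, ← Nat.card_eq_fintype_card, ← Set.ncard_univ]
          exact Set.ncard_le_ncard (Set.subset_univ _) (Set.toFinite _)
        omega
      · -- d = t + 1
        have hdt : d = t + 1 := by omega
        have h1 : ∀ j : Fin l, min d (if (j : ℕ) < a then t + 2 else t) =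
            if (j : ℕ) < a then t + 1 else t := by
          intro j
          split_ifs <;> omega
        simp only [h1]
        rw [sum_if l a t 1 hal]
        have h2 : min d ε = ε := min_eq_right (by omega)
        rw [h2]
        have h3 := hU1 U (by rw [← hd]; exact hdt)
        omega
    · -- d ≤ t
      have h1 : l * d ≤ ∑ j : Fin l, min d (if (j : ℕ) < a then t + 2 else t) := by
        calc l * d = ∑ _j : Fin l, d := by
              rw [Finset.sum_const, Finset.card_univ, Fintype.card_fin, smul_eq_mul]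
          _ ≤ _ := Finset.sum_le_sum fun j _ => by
              apply le_min le_rfl
              split_ifs <;> omega
      have h2 := hU U (by rw [← hd]; exact htd)
      rw [← hd] at h2
      omega)
  -- the graphs of the classes
  have hGirr : ∀ i a, ¬ c i a a := fun i a h => G.loopless.irrefl a ((hG a a).2 ⟨i, h⟩)
  let Gj : Option (Fin l) → SimpleGraph W := fun j =>
    { Adj := fun x y => ∃ i, cc i = j ∧ c i x y
      symm := ⟨fun x y ⟨i, h1, h2⟩ => ⟨i, h1, hsym i x y h2⟩⟩
      loopless := ⟨fun x ⟨i, _, h2⟩ => hGirr i x h2⟩ }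
  have hGj : ∀ j x y, (Gj j).Adj x y ↔ ∃ i, cc i = j ∧ c i x y := fun j x y => Iff.rfl
  have hpie : ∀ j : Fin l, Pie (Gj (some j)) (m (some j) / 2) (2 ^ t) := by
    intro j
    have hcard : Fintype.card {i // cc i = some j} = m (some j) := by
      rw [← (hcc (some j)).1, ← Nat.card_eq_fintype_card, ← Nat.card_coe_set_eq]
      rfl
    obtain ⟨ψ, hψ1, hψ2⟩ := hLoc 2 V W {i // cc i = some j} (fun i => v i.1) φ (fun i => c i.1)
      (Gj (some j)) (m (some j)) hcard (hcc (some j)).2 (fun i x y hxy => hφ i.1 x y hxy)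
      (fun i x y y' h1 h2 => hfun i.1 x y y' h1 h2)
      (fun i x y y' h1 h2 => hfun i.1 x y y' (hsym i.1 _ _ h1) (hsym i.1 _ _ h2))
      (fun _ i x y hxy => hsym i.1 x y hxy) (fun x y => by
        rw [hGj]
        constructor
        · rintro ⟨i, h1, h2⟩
          exact ⟨⟨i, h1⟩, Or.inl h2⟩
        · rintro ⟨i, h1 | h1⟩
          · exact ⟨i.1, i.2, h1⟩
          · exact ⟨i.1, i.2, hsym i.1 _ _ h1⟩)
    have hcube : LT 2 (m (some j)) (m (some j) / 2) (2 ^ t) := by
      have := hCube k (m (some j)) (by
        rw [hmsome, ← ht]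
        split_ifs
        · exact Or.inr rfl
        · exact Or.inl rfl)
      rwa [← ht] at this
    exact hPiece 2 (m (some j)) (m (some j) / 2) (2 ^ t) hcube W (Gj (some j)) ψ hψ1 hψ2
  have hK : ∑ j : Fin l, m (some j) / 2 = N / 2 := by
    have h1 : ∀ j : Fin l, m (some j) / 2 = if (j : ℕ) < a then h + 1 else h := by
      intro j
      rw [hmsome]
      split_ifs <;> omega
    simp only [h1]
    rw [sum_if l a h 1 hal]
    have h2 : l * t = 2 * (l * h) := by rw [hh]; ring
    omega
  have hGsup : G = Gj none ⊔ ⨆ j : Fin l, Gj (some j) := by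
    ext x y
    rw [SimpleGraph.sup_adj, SimpleGraph.iSup_adj, hG]
    constructor
    · rintro ⟨i, h1⟩
      cases hc : cc i with
      | none => exact Or.inl ⟨i, hc, h1⟩
      | some j => exact Or.inr ⟨j, i, hc, h1⟩
    · rintro (⟨i, _, h1⟩ | ⟨j, i, _, h1⟩)
      · exact ⟨i, h1⟩
      · exact ⟨i, h1⟩
  have hnone : {i | cc i = none}.ncard = ε := (hcc none).1
  rcases Nat.even_or_odd N with hNe | hNo
  · -- even
    have hε0 : ε = 0 := by rw [hε]; exact Nat.even_iff.1 hNe
    have hempty : {i | cc i = none} = ∅ := by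
      rw [hε0] at hnone
      exact (Set.ncard_eq_zero (Set.toFinite _)).1 hnone
    have hbot : Gj none = ⊥ := by
      ext x y
      rw [hGj]
      constructor
      · rintro ⟨i, h1, _⟩
        have : i ∈ {i | cc i = none} := h1
        rw [hempty] at this
        exact this.elim
      · intro h1
        exact (h1 : False).elim
    rw [hGsup, hbot, bot_sup_eq]
    have h1 := hCove W (Fin l) (fun j => m (some j) / 2) (2 ^ t) (fun j => Gj (some j)) hpie (by
      rw [hK]
      have := hev hNe
      omega)
    rwa [hK] at h1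
  · -- odd
    have hdeg : ∀ x, ((Gj none).neighborSet x).ncard ≤ 1 := by
      intro x
      rw [Set.ncard_le_one (Set.toFinite _)]
      intro y hy y' hy'
      obtain ⟨i, h1, h2⟩ := hy
      obtain ⟨i', h1', h2'⟩ := hy'
      have hii : i = i' := by
        have h3 : {i | cc i = none}.ncard ≤ 1 := by rw [hnone]; exact hε1
        exact (Set.ncard_le_one (Set.toFinite _)).1 h3 i h1 i' h1'
      subst hii
      exact hfun i x y y' h2 h2'
    rw [hGsup]
    have h1 := hCovo W (Fin l) (fun j => m (some j) / 2) (2 ^ t) (fun j => Gj (some j)) (Gj none)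
      hpie hdeg (by
        rw [hK]
        have h2 := hodd hNo
        have h3 : N % 2 = 1 := Nat.odd_iff.1 hNo
        omega)
    rwa [hK] at h1

end Pool.Agent.H28.CU
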