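import Pool.Agent.H28.CU.Stm

set_option autoImplicit false

namespace Pool.Agent.H28.CU

open Finset Module SimpleGraph

theorem mcp_arith {N t : ℕ} (ht : 1 ≤ t) (h : t * (t - 1) ≤ N) : N % t ≤ N / t := by
  have h1 : t * (N / t) + N % t = N := Nat.div_add_mod N t
  have h2 : N % t < t := Nat.mod_lt _ (by omega)
  by_contra hcon
  push Not at hcon
  obtain ⟨s, rfl⟩ : ∃ s, t = s + 1 := ⟨t - 1, by omega⟩
  have h3 : N / (s + 1) + 1 ≤ s := by omega
  have h4 : (s + 1) * (N / (s + 1) + 1) ≤ (s + 1) * s := Nat.mul_le_mul_left _ h3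
  simp only [Nat.add_sub_cancel] at h
  nlinarith

theorem mcp_count {l r : ℕ} (h : r ≤ l) : (univ.filter fun j : Fin l => j.1 < r).card = r := by
  have h1 : (univ.filter fun j : Fin l => j.1 < r) = (univ : Finset (Fin r)).map (Fin.castLEEmb h) := by
    ext j
    simp only [mem_filter, mem_univ, true_and, mem_map]
    constructor
    · intro hj
      exact ⟨⟨j.1, hj⟩, rfl⟩
    · rintro ⟨i, rfl⟩
      exact i.2
  rw [h1, card_map, card_univ, Fintype.card_fin]

theorem mcp : S_PART → S_LOC → S_PIECE → S_TORP → S_COVE → S_MCP := by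
  classical
  intro hPART hLOC hPIECE hTORP hCOVE p _ V W ι _ _ _ _ _ v φ c G k t hp2 hφ h1 h2 hG ht htN hNp hU
  have : Module.Finite (ZMod p) V := Module.Finite.of_finite
  obtain ⟨N, hN⟩ : ∃ N, N = Fintype.card ι := ⟨_, rfl⟩
  rw [← hN] at htN hNp hU ⊢
  have ht1 : 1 ≤ t := by rw [ht]; exact Nat.one_le_two_pow
  obtain ⟨l, hl⟩ : ∃ l, l = N / t := ⟨_, rfl⟩
  obtain ⟨r, hr⟩ : ∃ r, r = N % t := ⟨_, rfl⟩
  have hrl : r ≤ l := by rw [hr, hl]; exact mcp_arith ht1 htN
  have hdiv : t * l + r = N := by rw [hr, hl]; exact Nat.div_add_mod N t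
  let m : Option (Fin l) → ℕ := fun j => j.elim 0 fun j => if j.1 < r then t + 1 else t
  have hm0 : m none = 0 := rfl
  have hm1 : ∀ j : Fin l, m (some j) = if j.1 < r then t + 1 else t := fun j => rfl
  have hsum : ∑ j, m j = N := by
    rw [Fintype.sum_option, hm0, zero_add]
    have h3 : ∀ j : Fin l, m (some j) = t + if j.1 < r then 1 else 0 := fun j => by
      rw [hm1]; split_ifs <;> rfl
    rw [Finset.sum_congr rfl fun j _ => h3 j, Finset.sum_add_distrib, Finset.sum_const, card_univ,
      Fintype.card_fin, ← Finset.card_filter, mcp_count hrl, smul_eq_mul, mul_comm]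
    exact hdiv
  obtain ⟨col, hcol⟩ := hPART (ZMod p) V ι (Option (Fin l)) v m (by rw [hsum, hN]) (by
    intro U
    by_cases hd : finrank (ZMod p) U ≤ t
    · refine (hU U hd).trans ?_
      rw [← hl, Fintype.sum_option, hm0]
      have h3 : ∀ j ∈ (univ : Finset (Fin l)), finrank (ZMod p) U ≤ min (finrank (ZMod p) U) (m (some j)) := by
        intro j _
        rw [hm1]
        refine le_min le_rfl ?_
        split_ifs <;> omega
      have h4 := Finset.sum_le_sum h3
      rw [Finset.sum_const, card_univ, Fintype.card_fin, smul_eq_mul] at h4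
      exact h4.trans (Nat.le_add_left _ _)
    · push Not at hd
      have h3 : ∀ j ∈ (univ : Finset (Option (Fin l))), m j ≤ min (finrank (ZMod p) U) (m j) := by
        intro j _
        refine le_min ?_ le_rfl
        rcases j with _ | j
        · exact Nat.zero_le _
        · rw [hm1]
          split_ifs <;> omega
      refine le_trans ?_ (Finset.sum_le_sum h3)
      rw [hsum, hN, ← Nat.card_eq_fintype_card, ← Set.ncard_univ]
      exact Set.ncard_le_ncard (Set.subset_univ _) (Set.toFinite _))
  -- the classes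
  let Gj : Option (Fin l) → SimpleGraph W := fun j =>
    { Adj := fun a b => ∃ i : {i // col i = j}, c i.1 a b ∨ c i.1 b a
      symm := ⟨fun a b h => h.elim fun i hi => ⟨i, hi.symm⟩⟩
      loopless := ⟨fun a h => by
        obtain ⟨i, hi⟩ := h
        exact G.loopless.irrefl a ((hG a a).2 ⟨i.1, hi⟩)⟩ }
  have hGj : ∀ j a b, (Gj j).Adj a b ↔ ∃ i : {i // col i = j}, c i.1 a b ∨ c i.1 b a := fun j a b => Iff.rfl
  have hpie : ∀ j, Pie (Gj j) (m j) (p ^ t) := by
    intro j
    rcases j with _ | j
    · refine ⟨fun i => ⊥, fun i => i.elim0, fun i => i.elim0, ?_⟩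
      ext a b
      rw [hGj, SimpleGraph.iSup_adj]
      constructor
      · rintro ⟨i, -⟩
        have h3 := (hcol none).1
        rw [hm0, Set.ncard_eq_zero] at h3
        have h4 : i.1 ∈ {i | col i = none} := i.2
        rw [h3] at h4
        exact absurd h4 (Set.notMem_empty _)
      · rintro ⟨i, -⟩
        exact i.elim0
    · have hc : Fintype.card {i // col i = some j} = m (some j) := by
        rw [← (hcol (some j)).1, ← Nat.card_eq_fintype_card]
        rfl
      obtain ⟨ψ, hψ1, hψ2⟩ := hLOC p V W {i // col i = some j} (fun i => v i.1) φ (fun i => c i.1) (Gj (some j))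
        (m (some j)) hc (hcol (some j)).2 (fun i => hφ i.1) (fun i => h1 i.1) (fun i => h2 i.1)
        (fun h => absurd h hp2) (hGj (some j))
      have hLT : LT p (m (some j)) (m (some j)) (p ^ t) := by
        rw [ht]
        refine hTORP p k (m (some j)) ?_
        rw [hm1, ht]
        split_ifs
        · exact Or.inr rfl
        · exact Or.inl rfl
      exact hPIECE p (m (some j)) (m (some j)) (p ^ t) hLT W (Gj (some j)) ψ hψ1 hψ2
  have hcov := hCOVE W (Option (Fin l)) m (p ^ t) Gj hpie (by rw [hsum]; exact hNp)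
  rw [hsum] at hcov
  have hGG : (⨆ j, Gj j) = G := by
    ext a b
    rw [SimpleGraph.iSup_adj, hG]
    constructor
    · rintro ⟨j, i, hi⟩
      exact ⟨i.1, hi⟩
    · rintro ⟨i, hi⟩
      exact ⟨col i, ⟨i, rfl⟩, hi⟩
  rwa [hGG] at hcov

end Pool.Agent.H28.CU
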