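import Pool.Agent.H28.CU.Stm

set_option autoImplicit false

/-! Stub POS of the project CU (helper26) -/

namespace Pool.Agent.H28.CU

open Finset Module SimpleGraph H931R3.LA Pool.Agent.W111.LAR Pool.Agent.TH486.LAC

theorem pos : S_POS := by
  intro Y _ _ f hf N hN
  obtain ⟨y0⟩ := ‹Nonempty Y›
  choose k hk using fun y => hf y0 y
  refine ⟨fun y => (k y : ZMod N), ?_⟩
  intro y
  have h1 : (f ^ k (f y)) y0 = (f ^ (k y + 1)) y0 := by
    rw [hk, pow_succ', Equiv.Perm.mul_apply, hk]
  have h2 := hf.modEq y0 h1 hN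
  push_cast at h2
  exact h2

end Pool.Agent.H28.CU
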