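import Pool.Agent.H28.CU.Stm

set_option autoImplicit false

namespace Pool.Agent.H28.CU

open Finset Module SimpleGraph

theorem part : S_UNION → S_RANK → S_PART := by
  classical
  intro hU hR K V ι κ _ _ _ _ _ _ _ v m hm hd
  obtain ⟨c, hc⟩ := hU ι κ (fun j (A : Finset ι) => min (finrank K (Submodule.span K (v '' (A : Set ι)))) (m j))
    (fun j => hR K V ι v (m j)) Finset.univ (by
      intro A _
      refine le_trans ?_ (hd (Submodule.span K (v '' (A : Set ι))))
      rw [← Set.ncard_coe_finset]
      exact Set.ncard_le_ncard (fun i hi => Submodule.subset_span ⟨i, hi, rfl⟩) (Set.toFinite _))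
  have h1 : ∀ j, (Finset.univ.filter (fun x => c x = j)).card ≤ m j := by
    intro j
    rw [← hc j]
    exact min_le_right _ _
  have h2 : ∑ j, (Finset.univ.filter (fun x => c x = j)).card = ∑ j, m j := by
    rw [hm, ← Finset.card_univ]
    exact (Finset.card_eq_sum_card_fiberwise (fun x _ => Finset.mem_univ (c x))).symm
  have h3 := (Finset.sum_eq_sum_iff_of_le (fun j _ => h1 j)).1 h2
  refine ⟨c, fun j => ?_⟩
  have h4 : (Finset.univ.filter (fun x => c x = j)).card = m j := h3 j (Finset.mem_univ j)
  constructor
  · rw [← h4, ← Set.ncard_coe_finset]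
    congr 1
    ext i
    simp
  · have h5 := hc j
    rw [linearIndependent_iff_card_le_finrank_span]
    have h6 : Fintype.card {i // c i = j} = (Finset.univ.filter (fun x => c x = j)).card := by
      rw [Fintype.card_subtype]
    rw [h6, ← h5]
    have h7 : Set.range (fun i : {i // c i = j} => v i.1) =
        v '' ((Finset.univ.filter (fun x => c x = j) : Finset ι) : Set ι) := by
      ext y
      simp
    rw [h7]
    exact min_le_left _ _

end Pool.Agent.H28.CU
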