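import Pool.Agent.H28.CU.Stm

set_option autoImplicit false

/-! # Project CU, part PIECE -/

namespace Pool.Agent.H28.CU

open Finset Module SimpleGraph H931R3.LA Pool.Agent.W111.LAR Pool.Agent.TH486.LAC

theorem piece : S_PIECE := by
  rintro p n K L hp ⟨h, hsz, hun⟩ W _ G ψ hom inj
  have : NeZero p := ⟨hp.out.ne_zero⟩
  refine ⟨fun i => G ⊓ (fgr (h i)).comap ψ, fun i v => ?_, fun i v hcyc => ?_, ?_⟩
  · rw [← (pull_inj inj (fgr (h i)) v).ncard_image]
    exact (Set.ncard_le_ncard (pull_maps (fgr (h i)) v) (Set.toFinite _)).trans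
      (fgr_deg (h i).injective (ψ v))
  · exact (hsz i (ψ v)).trans (pull_size inj (fgr (h i)) (fun v => fgr_deg (h i).injective v) v hcyc)
  · ext a b
    rw [iSup_adj]
    constructor
    · intro hab
      have h3 := hom a b hab
      rw [hun, iSup_adj] at h3
      obtain ⟨i, hi⟩ := h3
      exact ⟨i, by rw [inf_adj]; exact ⟨hab, hi⟩⟩
    · rintro ⟨i, hi⟩
      rw [inf_adj] at hi
      exact hi.1

end Pool.Agent.H28.CU
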