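import Pool.Agent.H28.CU.Stm

set_option autoImplicit false

/-! # CU-PROD: products -/

namespace Pool.Agent.H28.CU

open Finset Module SimpleGraph H931R3.LA Pool.Agent.W111.LAR Pool.Agent.TH486.LAC

namespace Prod83

/-- the condition on the positions -/
def cc {N : ℕ} (s : ZMod N) : Prop := 0 ≤ s.val ∧ s.val < 1

theorem perm_iter {X : Type} (φ : Equiv.Perm X) (n : ℕ) (x : X) : φ^[n] x = (φ ^ n) x := by
  rw [Equiv.Perm.iterate_eq_pow]

/-- full cycles -/
theorem csize_full {X : Type} [Finite X] (φ : Equiv.Perm X) (h : Tr φ) (x : X) :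
    Nat.card X ≤ csize (fgr φ) x := by
  unfold csize
  have : {w | (fgr φ).Reachable x w} = Set.univ := by
    ext w
    simp only [Set.mem_univ, iff_true]
    obtain ⟨n, hn⟩ := h x w
    have := fgr_reach φ x n
    rw [perm_iter, hn] at this
    exact this
  rw [this, Set.ncard_univ]

/-- the product with the identity -/
theorem csize_right {X Y : Type} [Finite X] [Finite Y] (φ : Equiv.Perm (X × Y)) (f : Equiv.Perm Y)
    (hf : Tr f) (hφ : ∀ x y, φ (x, y) = (x, f y)) (z : X × Y) : Nat.card Y ≤ csize (fgr φ) z := by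
  unfold csize
  obtain ⟨x, y⟩ := z
  have hit : ∀ n : ℕ, φ^[n] (x, y) = (x, (f ^ n) y) := by
    intro n
    induction n with
    | zero => simp
    | succ n ih =>
      rw [Function.iterate_succ_apply', ih, hφ, pow_succ', Equiv.Perm.mul_apply]
  have hsub : Set.range (fun y' : Y => (x, y')) ⊆ {w | (fgr φ).Reachable (x, y) w} := by
    rintro _ ⟨y', rfl⟩
    obtain ⟨n, hn⟩ := hf y y'
    have := fgr_reach φ (x, y) n
    rw [hit, hn] at this
    exact this
  have h1 : (Set.range (fun y' : Y => (x, y'))).ncard = Nat.card Y := by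
    rw [← Set.image_univ, Set.ncard_image_of_injective _ (fun a b hab => (Prod.ext_iff.1 hab).2),
      Set.ncard_univ]
  rw [← h1]
  exact Set.ncard_le_ncard hsub (Set.toFinite _)

end Prod83

open Prod83

theorem prod : S_POS → S_HL → S_PROD := by
  intro hPOS _ p _ X Y κ κ' _ _ _ _ A B h f e a b he ha hab hX hY hA hB
  classical
  have hp := (Fact.out : p.Prime)
  have hN0 : NeZero (p ^ a) := ⟨(pow_pos hp.pos a).ne'⟩
  have hPX : ∀ i, ∃ P : X → ZMod (p ^ a), ∀ x, P (h i x) = P x + 1 := fun i =>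
    hPOS X (h i) (hA.tr i) (p ^ a) (by rw [hX])
  have hPY : ∀ j, ∃ P : Y → ZMod (p ^ a), ∀ y, P (f j y) = P y + 1 := fun j =>
    hPOS Y (f j) (hB.tr j) (p ^ a) (by rw [hY]; exact pow_dvd_pow p hab)
  choose PX hPX using hPX
  choose PY hPY using hPY
  have hex : ∀ k : κ ⊕ κ', ∃ φ : Equiv.Perm (X × Y),
      (∀ i, k = Sum.inl i → Tr φ ∧ ∀ x y, φ (x, y) =
        if cc (PX i x + PY (e i) y) then (h i x, y) else (x, f (e i) y)) ∧
      (∀ i, k = Sum.inr (e i) → Tr φ ∧ ∀ x y, φ (x, y) =
        if ¬ cc (PX i x + PY (e i) y) then (h i x, y) else (x, f (e i) y)) ∧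
      (∀ j, k = Sum.inr j → (¬ ∃ i, e i = j) → ∀ x y, φ (x, y) = (x, f j y)) := by
    rintro (i | j)
    · refine ⟨rotP (h i) (f (e i)) (PX i) (PY (e i)) (hPX i) (hPY (e i))
        (fun s => 0 ≤ s.val ∧ s.val < 1), ?_, ?_, ?_⟩
      · intro i' hi'
        obtain rfl := Sum.inl.inj hi'
        refine ⟨tr_rotI (p := p) (hB.tr (e i)) rfl ha hX hY (hPX i) (hPY (e i)) 0 1 (by norm_num)
          hp.one_lt, fun x y => ?_⟩
        rw [rotP_apply]
        by_cases hc : cc (PX i x + PY (e i) y)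
        · rw [if_pos hc]
          exact if_pos hc
        · rw [if_neg hc]
          exact if_neg hc
      · intro i' hi'
        cases hi'
      · intro j hj
        cases hj
    · by_cases hj : ∃ i, e i = j
      · obtain ⟨i, rfl⟩ := hj
        refine ⟨rotP (h i) (f (e i)) (PX i) (PY (e i)) (hPX i) (hPY (e i))
          (fun s => ¬ (0 ≤ s.val ∧ s.val < 1)), ?_, ?_, ?_⟩
        · intro i' hi'
          cases hi'
        · intro i' hi'
          obtain rfl := he (Sum.inr.inj hi')
          refine ⟨tr_rotI' (p := p) (hB.tr (e i)) rfl ha hX hY (hPX i) (hPY (e i)) 0 1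
            (by norm_num) hp.one_lt, fun x y => ?_⟩
          rw [rotP_apply]
          by_cases hc : cc (PX i x + PY (e i) y)
          · rw [if_neg (not_not.2 hc)]
            exact if_neg (not_not.2 hc)
          · rw [if_pos hc]
            exact if_pos hc
        · intro j hj hn
          exact absurd ⟨i, Sum.inr.inj hj⟩ hn
      · refine ⟨Equiv.prodCongr (Equiv.refl X) (f j), ?_, ?_, ?_⟩
        · intro i' hi'
          cases hi'
        · intro i' hi'
          exact absurd ⟨i', (Sum.inr.inj hi').symm⟩ hj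
        · intro j' hj' _ x y
          obtain rfl := Sum.inr.inj hj'
          rfl
  choose Φ hΦ1 hΦ2 hΦ3 using hex
  -- all steps are steps of one of the factors
  have hstep : ∀ k x y, (∃ i, Φ k (x, y) = (h i x, y)) ∨ ∃ j, Φ k (x, y) = (x, f j y) := by
    rintro (i | j) x y
    · have := (hΦ1 (Sum.inl i) i rfl).2 x y
      by_cases hc : cc (PX i x + PY (e i) y)
      · rw [if_pos hc] at this
        exact Or.inl ⟨i, this⟩
      · rw [if_neg hc] at this
        exact Or.inr ⟨_, this⟩
    · by_cases hj : ∃ i, e i = j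
      · obtain ⟨i, rfl⟩ := hj
        have := (hΦ2 (Sum.inr (e i)) i rfl).2 x y
        by_cases hc : cc (PX i x + PY (e i) y)
        · rw [if_neg (not_not.2 hc)] at this
          exact Or.inr ⟨_, this⟩
        · rw [if_pos hc] at this
          exact Or.inl ⟨i, this⟩
      · exact Or.inr ⟨j, hΦ3 (Sum.inr j) j rfl hj x y⟩
  have hleft : ∀ i x y, ∃ k, Φ k (x, y) = (h i x, y) := by
    intro i x y
    by_cases hc : cc (PX i x + PY (e i) y)
    · refine ⟨Sum.inl i, ?_⟩
      have := (hΦ1 (Sum.inl i) i rfl).2 x y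
      rwa [if_pos hc] at this
    · refine ⟨Sum.inr (e i), ?_⟩
      have := (hΦ2 (Sum.inr (e i)) i rfl).2 x y
      rwa [if_pos hc] at this
  have hright : ∀ j x y, ∃ k, Φ k (x, y) = (x, f j y) := by
    intro j x y
    by_cases hj : ∃ i, e i = j
    · obtain ⟨i, rfl⟩ := hj
      by_cases hc : cc (PX i x + PY (e i) y)
      · refine ⟨Sum.inr (e i), ?_⟩
        have := (hΦ2 (Sum.inr (e i)) i rfl).2 x y
        rwa [if_neg (not_not.2 hc)] at this
      · refine ⟨Sum.inl i, ?_⟩
        have := (hΦ1 (Sum.inl i) i rfl).2 x y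
        rwa [if_neg hc] at this
    · exact ⟨Sum.inr j, hΦ3 (Sum.inr j) j rfl hj x y⟩
  have hAadj : ∀ x x', A.Adj x x' ↔ ∃ i, x ≠ x' ∧ (x' = h i x ∨ x = h i x') := by
    intro x x'
    rw [hA.un, SimpleGraph.iSup_adj]
    rfl
  have hBadj : ∀ y y', B.Adj y y' ↔ ∃ j, y ≠ y' ∧ (y' = f j y ∨ y = f j y') := by
    intro y y'
    rw [hB.un, SimpleGraph.iSup_adj]
    rfl
  have hun : A.boxProd B = ⨆ k, fgr (Φ k) := by
    ext ⟨x, y⟩ ⟨x', y'⟩
    rw [SimpleGraph.boxProd_adj, SimpleGraph.iSup_adj]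
    constructor
    · rintro (⟨h1, h2⟩ | ⟨h1, h2⟩)
      · simp only at h1 h2
        subst h2
        obtain ⟨i, hne, h3⟩ := (hAadj x x').1 h1
        have hne' : (x, y) ≠ (x', y) := fun h => hne (Prod.ext_iff.1 h).1
        rcases h3 with rfl | rfl
        · obtain ⟨k, hk⟩ := hleft i x y
          exact ⟨k, hne', Or.inl hk.symm⟩
        · obtain ⟨k, hk⟩ := hleft i x' y
          exact ⟨k, hne', Or.inr hk.symm⟩
      · simp only at h1 h2
        subst h2
        obtain ⟨j, hne, h3⟩ := (hBadj y y').1 h1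
        have hne' : (x, y) ≠ (x, y') := fun h => hne (Prod.ext_iff.1 h).2
        rcases h3 with rfl | rfl
        · obtain ⟨k, hk⟩ := hright j x y
          exact ⟨k, hne', Or.inl hk.symm⟩
        · obtain ⟨k, hk⟩ := hright j x y'
          exact ⟨k, hne', Or.inr hk.symm⟩
    · rintro ⟨k, hne, h3⟩
      rcases h3 with h3 | h3
      · rcases hstep k x y with ⟨i, hi⟩ | ⟨j, hj⟩
        · rw [hi] at h3
          obtain ⟨h4, h5⟩ := Prod.mk.inj h3
          subst h4
          subst h5
          left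
          refine ⟨(hAadj _ _).2 ⟨i, ?_, Or.inl rfl⟩, rfl⟩
          intro h4
          exact hne (Prod.ext h4 rfl)
        · rw [hj] at h3
          obtain ⟨h4, h5⟩ := Prod.mk.inj h3
          subst h4
          subst h5
          right
          refine ⟨(hBadj _ _).2 ⟨j, ?_, Or.inl rfl⟩, rfl⟩
          intro h4
          exact hne (Prod.ext rfl h4)
      · rcases hstep k x' y' with ⟨i, hi⟩ | ⟨j, hj⟩
        · rw [hi] at h3
          obtain ⟨h4, h5⟩ := Prod.mk.inj h3
          subst h4
          subst h5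
          left
          refine ⟨(hAadj _ _).2 ⟨i, ?_, Or.inr rfl⟩, rfl⟩
          intro h4
          exact hne (Prod.ext h4 rfl)
        · rw [hj] at h3
          obtain ⟨h4, h5⟩ := Prod.mk.inj h3
          subst h4
          subst h5
          right
          refine ⟨(hBadj _ _).2 ⟨j, ?_, Or.inr rfl⟩, rfl⟩
          intro h4
          exact hne (Prod.ext rfl h4)
  have hcardXY : p ^ b ≤ Nat.card (X × Y) := by
    rw [Nat.card_prod, hX, hY]
    exact Nat.le_mul_of_pos_left _ (pow_pos hp.pos a)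
  refine ⟨Φ, ⟨?_, hun⟩, fun hs => ⟨?_, hun⟩⟩
  · rintro (i | j) z
    · exact hcardXY.trans (csize_full _ (hΦ1 (Sum.inl i) i rfl).1 z)
    · by_cases hj : ∃ i, e i = j
      · obtain ⟨i, rfl⟩ := hj
        exact hcardXY.trans (csize_full _ (hΦ2 (Sum.inr (e i)) i rfl).1 z)
      · rw [← hY]
        exact csize_right _ (f j) (hB.tr j) (hΦ3 (Sum.inr j) j rfl hj) z
  · rintro (i | j)
    · exact (hΦ1 (Sum.inl i) i rfl).1
    · obtain ⟨i, rfl⟩ := hs j
      exact (hΦ2 (Sum.inr (e i)) i rfl).1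

end Pool.Agent.H28.CU
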