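import Pool.Agent.H28.CU.Stm

set_option autoImplicit false

namespace Pool.Agent.H28.CU

open Finset Module SimpleGraph

theorem rank : S_RANK := by
  intro K V ι _ _ _ _ _ v m
  have f0 : finrank K (Submodule.span K (v '' ((∅ : Finset ι) : Set ι))) = 0 := by
    rw [Finset.coe_empty, Set.image_empty, Submodule.span_empty, finrank_bot]
  have fm : ∀ A B : Finset ι, A ⊆ B → finrank K (Submodule.span K (v '' (A : Set ι))) ≤
      finrank K (Submodule.span K (v '' (B : Set ι))) := fun A B h =>
    Submodule.finrank_mono (Submodule.span_mono (Set.image_mono (Finset.coe_subset.2 h)))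
  have fs : ∀ (A : Finset ι) (x : ι), finrank K (Submodule.span K (v '' ((insert x A : Finset ι) : Set ι))) ≤
      finrank K (Submodule.span K (v '' (A : Set ι))) + 1 := by
    intro A x
    rw [Finset.coe_insert, Set.image_insert_eq, Set.insert_eq, Submodule.span_union, add_comm]
    refine (Submodule.finrank_add_le_finrank_add_finrank _ _).trans (Nat.add_le_add_right ?_ _)
    have h := finrank_span_finset_le_card (R := K) ({v x} : Finset V)
    rw [Finset.coe_singleton, Finset.card_singleton] at h
    exact h
  have fsub : ∀ A B : Finset ι, finrank K (Submodule.span K (v '' ((A ∪ B : Finset ι) : Set ι))) +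
      finrank K (Submodule.span K (v '' ((A ∩ B : Finset ι) : Set ι))) ≤
      finrank K (Submodule.span K (v '' (A : Set ι))) + finrank K (Submodule.span K (v '' (B : Set ι))) := by
    intro A B
    rw [← Submodule.finrank_sup_add_finrank_inf_eq (Submodule.span K (v '' (A : Set ι)))
      (Submodule.span K (v '' (B : Set ι))), Finset.coe_union, Set.image_union, Submodule.span_union]
    have h : Submodule.span K (v '' ((A ∩ B : Finset ι) : Set ι)) ≤
        Submodule.span K (v '' (A : Set ι)) ⊓ Submodule.span K (v '' (B : Set ι)) :=
      le_inf (Submodule.span_mono (Set.image_mono (Finset.coe_subset.2 Finset.inter_subset_left)))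
        (Submodule.span_mono (Set.image_mono (Finset.coe_subset.2 Finset.inter_subset_right)))
    exact Nat.add_le_add_left (Submodule.finrank_mono h) _
  refine ⟨?_, ?_, ?_, ?_⟩
  · simp only [f0]
    exact Nat.zero_min m
  · intro A B h
    exact min_le_min_right m (fm A B h)
  · intro A x
    have h1 := fs A x
    show min _ m ≤ min _ m + 1
    omega
  · intro A B
    have h1 := fsub A B
    have h2 := fm (A ∩ B) A Finset.inter_subset_left
    have h3 := fm (A ∩ B) B Finset.inter_subset_right
    have h4 := fm A (A ∪ B) Finset.subset_union_left
    have h5 := fm B (A ∪ B) Finset.subset_union_right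
    show min _ m + min _ m ≤ min _ m + min _ m
    omega

end Pool.Agent.H28.CU
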