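import Pool.Agent.H28.CU.Stm

/-! # Project CU: the matroid union theorem (helper12) -/

set_option autoImplicit false


namespace Pool.Agent.H28.CU.UnionAux

open Finset

theorem le_card {ι : Type} [DecidableEq ι] {r : Finset ι → ℕ} (h : RK r) (A : Finset ι) :
    r A ≤ A.card := by
  induction A using Finset.induction_on with
  | empty => rw [h.empty]; exact Nat.zero_le _
  | insert x A hx ih =>
    rw [Finset.card_insert_of_notMem hx]
    exact (h.step A x).trans (by omega)

/-- the contraction of `A` -/
theorem contract {ι : Type} [DecidableEq ι] {r : Finset ι → ℕ} (h : RK r) (A : Finset ι) :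
    RK (fun B => r (B ∪ A) - r A) := by
  have hle : ∀ B, r A ≤ r (B ∪ A) := fun B => h.mono _ _ Finset.subset_union_right
  refine ⟨?_, fun B C hBC => ?_, fun B x => ?_, fun B C => ?_⟩
  · simp
  · have := h.mono (B ∪ A) (C ∪ A) (Finset.union_subset_union_left hBC)
    show r (B ∪ A) - r A ≤ r (C ∪ A) - r A
    omega
  · have h1 := h.step (B ∪ A) x
    rw [← Finset.insert_union] at h1
    have := hle B
    show r (insert x B ∪ A) - r A ≤ r (B ∪ A) - r A + 1
    omega
  · have h1 := h.sub (B ∪ A) (C ∪ A)
    have e1 : (B ∪ A) ∪ (C ∪ A) = (B ∪ C) ∪ A := by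
      ext y; simp only [Finset.mem_union]; tauto
    have e2 : (B ∪ A) ∩ (C ∪ A) = (B ∩ C) ∪ A := by
      ext y; simp only [Finset.mem_union, Finset.mem_inter]; tauto
    rw [e1, e2] at h1
    have a1 := hle B; have a2 := hle C; have a3 := hle (B ∪ C); have a4 := hle (B ∩ C)
    show r (B ∪ C ∪ A) - r A + (r (B ∩ C ∪ A) - r A) ≤ r (B ∪ A) - r A + (r (C ∪ A) - r A)
    omega

theorem core (ι κ : Type) [DecidableEq ι] [Fintype κ] [Nonempty κ] [DecidableEq κ] :
    ∀ (n : ℕ) (T : Finset ι), T.card = n → ∀ (r : κ → Finset ι → ℕ), (∀ j, RK (r j)) →
    (∀ A, A ⊆ T → A.card ≤ ∑ j, r j A) →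
    ∃ c : ι → κ, ∀ j, r j (T.filter (fun x => c x = j)) = (T.filter (fun x => c x = j)).card := by
  intro n
  induction n using Nat.strong_induction_on with
  | _ n ih =>
    intro T hn r hr hT
    by_cases hne : T = ∅
    · subst hne
      obtain ⟨j0⟩ := (inferInstance : Nonempty κ)
      exact ⟨fun _ => j0, fun j => by simp [(hr j).empty]⟩
    by_cases hcase : ∃ A, A ⊆ T ∧ A ≠ ∅ ∧ A ≠ T ∧ A.card = ∑ j, r j A
    · -- a tight set
      obtain ⟨A, hAT, hA0, hA1, hAc⟩ := hcase
      have hlt : A.card < T.card := Finset.card_lt_card (Finset.ssubset_iff_subset_ne.2 ⟨hAT, hA1⟩)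
      obtain ⟨cA, hcA⟩ := ih A.card (by omega) A rfl r hr (fun B hB => hT B (hB.trans hAT))
      -- the classes in `A` have full rank
      have hsumA : ∑ j, (A.filter (fun x => cA x = j)).card = A.card :=
        (Finset.card_eq_sum_card_fiberwise (fun x _ => Finset.mem_univ (cA x))).symm
      have hfull : ∀ j, r j (A.filter (fun x => cA x = j)) = r j A := by
        have h1 : ∀ j ∈ (Finset.univ : Finset κ), r j (A.filter (fun x => cA x = j)) ≤ r j A :=
          fun j _ => (hr j).mono _ _ (Finset.filter_subset _ _)
        have h2 : ∑ j, r j (A.filter (fun x => cA x = j)) = ∑ j, r j A := by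
          rw [← hAc, ← hsumA]
          exact Finset.sum_congr rfl fun j _ => hcA j
        have h3 := (Finset.sum_eq_sum_iff_of_le h1).1 h2
        exact fun j => h3 j (Finset.mem_univ j)
      -- contraction
      have hTA : (T \ A).card = T.card - A.card := Finset.card_sdiff_of_subset hAT
      have hApos : 0 < A.card := Finset.card_pos.2 (Finset.nonempty_iff_ne_empty.2 hA0)
      obtain ⟨cB, hcB⟩ := ih (T \ A).card (by omega) (T \ A) rfl
        (fun j B => r j (B ∪ A) - r j A) (fun j => contract (hr j) A) (by
          intro B hB
          have hdis : Disjoint B A := by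
            rw [Finset.disjoint_left]
            intro x hx hxA
            exact (Finset.mem_sdiff.1 (hB hx)).2 hxA
          have h1 := hT (B ∪ A) (Finset.union_subset (hB.trans Finset.sdiff_subset) hAT)
          rw [Finset.card_union_of_disjoint hdis] at h1
          have h2 : ∑ j, r j (B ∪ A) = ∑ j, (r j (B ∪ A) - r j A) + ∑ j, r j A := by
            rw [← Finset.sum_add_distrib]
            refine Finset.sum_congr rfl fun j _ => ?_
            have := (hr j).mono A (B ∪ A) Finset.subset_union_right
            omega
          show B.card ≤ ∑ j, (r j (B ∪ A) - r j A)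
          omega)
      refine ⟨fun x => if x ∈ A then cA x else cB x, fun j => ?_⟩
      set A' := A.filter (fun x => cA x = j) with hA'
      set B' := (T \ A).filter (fun x => cB x = j) with hB'
      have hfil : T.filter (fun x => (if x ∈ A then cA x else cB x) = j) = A' ∪ B' := by
        ext x
        simp only [hA', hB', Finset.mem_filter, Finset.mem_union, Finset.mem_sdiff]
        constructor
        · rintro ⟨h1, h2⟩
          by_cases hx : x ∈ A
          · rw [if_pos hx] at h2
            exact Or.inl ⟨hx, h2⟩
          · rw [if_neg hx] at h2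
            exact Or.inr ⟨⟨h1, hx⟩, h2⟩
        · rintro (⟨h1, h2⟩ | ⟨⟨h1, h2⟩, h3⟩)
          · exact ⟨hAT h1, by rw [if_pos h1]; exact h2⟩
          · exact ⟨h1, by rw [if_neg h2]; exact h3⟩
      rw [hfil]
      have hdis : Disjoint A' B' := by
        rw [Finset.disjoint_left]
        intro x hx hxB
        rw [hB', Finset.mem_filter, Finset.mem_sdiff] at hxB
        exact hxB.1.2 (Finset.mem_filter.1 hx).1
      have hAA : A' ⊆ A := Finset.filter_subset _ _
      have hint : (A' ∪ B') ∩ A = A' := by
        ext x
        simp only [Finset.mem_inter, Finset.mem_union]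
        constructor
        · rintro ⟨h1 | h1, h2⟩
          · exact h1
          · rw [hB', Finset.mem_filter, Finset.mem_sdiff] at h1
            exact absurd h2 h1.1.2
        · exact fun h => ⟨Or.inl h, hAA h⟩
      have huni : (A' ∪ B') ∪ A = B' ∪ A := by
        ext x
        simp only [Finset.mem_union]
        constructor
        · rintro ((h | h) | h)
          · exact Or.inr (hAA h)
          · exact Or.inl h
          · exact Or.inr h
        · rintro (h | h)
          · exact Or.inl (Or.inr h)
          · exact Or.inr h
      have h1 := (hr j).sub (A' ∪ B') A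
      rw [hint, huni] at h1
      have h2 : r j (B' ∪ A) - r j A = B'.card := hcB j
      have h3 : r j A' = A'.card := hcA j
      have h4 : r j A' = r j A := hfull j
      have h5 := (hr j).mono A (B' ∪ A) Finset.subset_union_right
      have h6 := le_card (hr j) (A' ∪ B')
      rw [Finset.card_union_of_disjoint hdis] at h6 ⊢
      omega
    · -- no tight set
      push Not at hcase
      obtain ⟨x, hx⟩ := Finset.nonempty_iff_ne_empty.2 hne
      obtain ⟨j0, hj0⟩ : ∃ j0, 1 ≤ r j0 {x} := by
        by_contra hno
        push Not at hno
        have h1 := hT {x} (Finset.singleton_subset_iff.2 hx)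
        have h2 : ∑ j, r j {x} = 0 := Finset.sum_eq_zero fun j _ => by
          have := hno j; omega
        rw [h2, Finset.card_singleton] at h1
        omega
      have hj1 : r j0 {x} = 1 := by
        have := le_card (hr j0) {x}
        rw [Finset.card_singleton] at this
        omega
      have hcard : (T.erase x).card = T.card - 1 := Finset.card_erase_of_mem hx
      have hTpos : 0 < T.card := Finset.card_pos.2 ⟨x, hx⟩
      let r' : κ → Finset ι → ℕ := fun j B => if j = j0 then r j (B ∪ {x}) - r j {x} else r j B
      have hr' : ∀ j, RK (r' j) := by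
        intro j
        by_cases hj : j = j0
        · have : r' j = fun B => r j (B ∪ {x}) - r j {x} := by
            funext B; simp only [r', if_pos hj]
          rw [this]
          exact contract (hr j) {x}
        · have : r' j = r j := by
            funext B; simp only [r', if_neg hj]
          rw [this]
          exact hr j
      obtain ⟨c, hc⟩ := ih (T.erase x).card (by omega) (T.erase x) rfl r' hr' (by
        intro B hB
        by_cases hB0 : B = ∅
        · subst hB0; simp
        have hBT : B ⊆ T := hB.trans (Finset.erase_subset _ _)
        have hxB : x ∉ B := fun h => (Finset.mem_erase.1 (hB h)).1 rfl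
        have hBne : B ≠ T := fun h => hxB (h ▸ hx)
        have h1 := hcase B hBT (Finset.nonempty_iff_ne_empty.2 hB0) hBne
        have h2 := hT B hBT
        have h3 : B.card + 1 ≤ ∑ j, r j B := by omega
        have h4 : ∑ j, r j B ≤ ∑ j, r' j B + 1 := by
          rw [← Finset.add_sum_erase _ _ (Finset.mem_univ j0),
            ← Finset.add_sum_erase _ (fun j => r' j B) (Finset.mem_univ j0)]
          have h5 : ∑ j ∈ Finset.univ.erase j0, r j B = ∑ j ∈ Finset.univ.erase j0, r' j B := by
            refine Finset.sum_congr rfl fun j hj => ?_
            simp only [r', if_neg (Finset.mem_erase.1 hj).1]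
          have h6 : r' j0 B = r j0 (B ∪ {x}) - 1 := by
            simp only [r', if_pos, hj1]
          have h7 := (hr j0).mono B (B ∪ {x}) Finset.subset_union_left
          rw [h5, h6]
          omega
        omega)
      refine ⟨fun y => if y = x then j0 else c y, fun j => ?_⟩
      set B' := (T.erase x).filter (fun y => c y = j) with hB'
      have hxB' : x ∉ B' := by
        rw [hB', Finset.mem_filter, Finset.mem_erase]
        rintro ⟨⟨h1, -⟩, -⟩
        exact h1 rfl
      by_cases hj : j = j0
      · have hfil : T.filter (fun y => (if y = x then j0 else c y) = j) = B' ∪ {x} := by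
          ext y
          simp only [hB', Finset.mem_filter, Finset.mem_union, Finset.mem_erase,
            Finset.mem_singleton]
          constructor
          · rintro ⟨h1, h2⟩
            by_cases hy : y = x
            · exact Or.inr hy
            · rw [if_neg hy] at h2
              exact Or.inl ⟨⟨hy, h1⟩, h2⟩
          · rintro (⟨⟨h1, h2⟩, h3⟩ | h1)
            · exact ⟨h2, by rw [if_neg h1]; exact h3⟩
            · subst h1
              exact ⟨hx, by rw [if_pos rfl]; exact hj.symm⟩
        rw [hfil]
        have h1 : r' j B' = B'.card := hc j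
        have h2 : r' j B' = r j (B' ∪ {x}) - r j {x} := by simp only [r', if_pos hj]
        have h3 : r j {x} = 1 := by rw [hj]; exact hj1
        have h4 := (hr j).mono {x} (B' ∪ {x}) Finset.subset_union_right
        have h5 : (B' ∪ {x}).card = B'.card + 1 := by
          rw [Finset.card_union_of_disjoint (Finset.disjoint_singleton_right.2 hxB'),
            Finset.card_singleton]
        rw [h5]
        omega
      · have hfil : T.filter (fun y => (if y = x then j0 else c y) = j) = B' := by
          ext y
          simp only [hB', Finset.mem_filter, Finset.mem_erase]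
          constructor
          · rintro ⟨h1, h2⟩
            by_cases hy : y = x
            · rw [if_pos hy] at h2
              exact absurd h2.symm hj
            · rw [if_neg hy] at h2
              exact ⟨⟨hy, h1⟩, h2⟩
          · rintro ⟨⟨h1, h2⟩, h3⟩
            exact ⟨h2, by rw [if_neg h1]; exact h3⟩
        rw [hfil]
        have h1 : r' j B' = B'.card := hc j
        have h2 : r' j B' = r j B' := by simp only [r', if_neg hj]
        rw [← h2, h1]

end Pool.Agent.H28.CU.UnionAux

namespace Pool.Agent.H28.CU

theorem union : S_UNION := fun ι κ _ _ _ _ r hr T hT => UnionAux.core ι κ T.card T rfl r hr hT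

end Pool.Agent.H28.CU
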