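import Pool.Agent.H28.CU.Stm

set_option autoImplicit false

/-! # Project CU, part VEC3 -/

namespace Pool.Agent.H28.CU

open Finset Module SimpleGraph H931R3.LA Pool.Agent.W111.LAR Pool.Agent.TH486.LAC

theorem even_of_neg (n : ℕ) (A : Set (Fin n → ZMod 3)) (hneg : ∀ s ∈ A, -s ∈ A) (h0 : 0 ∉ A) :
    Even A.ncard := by
  classical
  have hfin : A.Finite := Set.toFinite _
  rw [Set.ncard_eq_toFinset_card A hfin]
  have h2 : ∑ _s ∈ hfin.toFinset, (1 : ZMod 2) = 0 := by
    refine Finset.sum_involution (fun s _ => -s) ?_ ?_ ?_ ?_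
    · intro _ _
      decide
    · intro s hs _ h
      refine h0 ?_
      have h3 : s = 0 := by
        funext i
        have h4 : - s i = s i := congrFun h i
        have h5 : ∀ x : ZMod 3, -x = x → x = 0 := by decide
        exact h5 _ h4
      rw [← h3]
      exact hfin.mem_toFinset.1 hs
    · intro s hs
      exact hfin.mem_toFinset.2 (hneg s (hfin.mem_toFinset.1 hs))
    · intro s _
      exact neg_neg s
  rw [Finset.sum_const, nsmul_eq_mul, mul_one] at h2
  rw [ZMod.natCast_eq_zero_iff] at h2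
  exact even_iff_two_dvd.2 h2

theorem vec3 : S_CAYP → S_NUM3 → S_DEN3 → S_VEC3 := by
  intro hC hNu hD n S X hX hS hn hU
  have : Fact (Nat.Prime 3) := ⟨Nat.prime_three⟩
  have hneg : ∀ s ∈ S, -s ∈ S := by
    intro s hs
    have h4 : X.Adj 0 s := (hX 0 s).2 (by simpa using hs)
    have h5 := (hX s 0).1 h4.symm
    simpa using h5
  have h0 : (0 : Fin n → ZMod 3) ∉ S := by
    intro h
    have : X.Adj 0 0 := (hX 0 0).2 (by simpa using h)
    exact X.irrefl this
  obtain ⟨N, hN⟩ := even_of_neg n S hneg h0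
  have hS2 : S.ncard / 2 = N := by omega
  obtain ⟨k, t, ht, htn, h6, htt⟩ := hNu n N (by omega) (by
    refine le_trans (le_of_eq ?_) hn
    rw [hN]
    ring)
  have ht2 : 1 ≤ t := by
    rw [ht]
    exact Nat.one_le_two_pow
  refine hC 3 (Multiplicative (Fin n → ZMod 3)) (Fin n → ZMod 3) (MonoidHom.id _) S X k t
    (by norm_num) ?_ ?_ ht ?_ ?_ ?_
  · intro g h
    refine (hX g h).trans ?_
    rw [sub_eq_neg_add]
    rfl
  · refine Set.nonempty_of_ncard_ne_zero ?_
    have : (144 : ℕ) ≤ S.ncard := hS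
    show S.ncard ≠ 0
    omega
  · show 2 * (t * (t - 1)) ≤ S.ncard
    rw [hN]
    have : t * (t - 1) ≤ t * (t + 1) := Nat.mul_le_mul_left t (by omega)
    omega
  · show S.ncard ≤ 3 ^ t
    omega
  · intro U hd
    show {s | s ∈ S ∧ s ∈ U}.ncard ≤ 2 * (S.ncard / (2 * t)) * finrank (ZMod 3) U
    obtain ⟨x, hx⟩ := even_of_neg n {s | s ∈ S ∧ s ∈ U}
      (fun s hs => ⟨hneg s hs.1, U.neg_mem hs.2⟩) (fun h => h0 h.1)
    have h7 := hU U
    have h8 : n * x ≤ N * finrank (ZMod 3) U := by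
      rw [hx, hN] at h7
      nlinarith
    have h9 := hD n N t x (finrank (ZMod 3) U) ht2 htn htt h8 hd
    have h10 : S.ncard / (2 * t) = N / t := by
      rw [hN, ← two_mul, Nat.mul_div_mul_left _ _ two_pos]
    rw [h10, hx, mul_assoc]
    omega

end Pool.Agent.H28.CU
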