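import Pool.Agent.H28.CU.Vec2
import Pool.Agent.H28.CU.Cay2
import Pool.Agent.H28.CU.Cayp
import Pool.Agent.H28.CU.Vec3
import Pool.Agent.H28.CU.Mc2
import Pool.Agent.H28.CU.Mcp
import Pool.Agent.H28.CU.Avg
import Pool.Agent.H28.CU.Loc
import Pool.Agent.H28.CU.COVO
import Pool.Agent.H28.CU.Part
import Pool.Agent.H28.CU.Rank
import Pool.Agent.H28.CU.Union
import Pool.Agent.H28.CU.Piece
import Pool.Agent.H28.CU.Torp
import Pool.Agent.H28.CU.Cube
import Pool.Agent.H28.CU.TRANS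
import Pool.Agent.H28.CU.Prod
import Pool.Agent.H28.CU.HL
import Pool.Agent.H28.CU.POS
import Pool.Agent.H28.CU.BP
import Pool.Agent.H28.CU.B2
import Pool.Agent.H28.CU.Den2
import Pool.Agent.H28.CU.Half
import Pool.Agent.H28.CU.T.NUM

set_option autoImplicit false

/-! Assembly of part 1. -/

namespace Pool.Agent.H28.CU

open Finset Module T91

theorem glue_all : S_GLUE := glue (prod pos hl) cu_trans tsum
theorem cube_all : S_CUBE := cube b2 glue_all hl
theorem torp_all : S_TORP := torp bp glue_all hl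
theorem part_all : S_PART := part union rank
theorem mc2_all : S_MC2 := mc2 part_all loc piece cube_all cove covo
theorem mcp_all : S_MCP := mcp part_all loc piece torp_all cove
theorem vec2_all : S_VEC2 := vec2 (cay2 mc2_all) NUM2 den2
theorem vec3_all : S_VEC3 := vec3 (cayp mcp_all half) NUM3 DEN3

/-- Uniformly dense sets for `p = 2, 3`. -/
theorem vec_all : ∀ (p n : ℕ) [Fact p.Prime] (S : Set (Fin n → ZMod p))
    (X : SimpleGraph (Fin n → ZMod p)), p = 2 ∨ p = 3 → (∀ v w, X.Adj v w ↔ w - v ∈ S) →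
    144 ≤ S.ncard → 72 * S.ncard ^ 2 ≤ p ^ n →
    ((∀ U : Submodule (ZMod p) (Fin n → ZMod p),
      n * {s | s ∈ S ∧ s ∈ U}.ncard ≤ S.ncard * finrank (ZMod p) U) ∨
    ∃ 𝒢 : Subgroup ((Fin n → ZMod p) ≃ₗ[ZMod p] (Fin n → ZMod p)),
      (∀ g ∈ 𝒢, ∀ s ∈ S, g s ∈ S) ∧
      ∀ U : Submodule (ZMod p) (Fin n → ZMod p), (∀ g ∈ 𝒢, ∀ u ∈ U, g u ∈ U) →
        (∃ s ∈ S, s ∈ U) → U = ⊤) → LACov X S.ncard := by
  intro p n _ S X hp hX h1 h2 h3
  have h4 : ∀ U : Submodule (ZMod p) (Fin n → ZMod p),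
      n * {s | s ∈ S ∧ s ∈ U}.ncard ≤ S.ncard * finrank (ZMod p) U := by
    rcases h3 with h3 | ⟨𝒢, h3, h4⟩
    · exact h3
    · exact avg p n S 𝒢 h3 h4
  rcases hp with rfl | rfl
  · exact vec2_all n S X hX h1 h2 h4
  · exact vec3_all n S X hX h1 (by nlinarith) h4

end Pool.Agent.H28.CU
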