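import Pool.Agent.H28.CU.Stm

set_option autoImplicit false

namespace Pool.Agent.H28.CU

open Finset Module SimpleGraph H931R3.LA Pool.Agent.W111.LAR Pool.Agent.TH486.LAC

/-- the pieces as one family -/
theorem cove_family {W κ : Type} [Fintype κ] (K : κ → ℕ) (L : ℕ)
    (G : κ → SimpleGraph W) (hG : ∀ j, Pie (G j) (K j) L) :
    ∃ H : (Σ j, Fin (K j)) → SimpleGraph W, (∀ i v, ((H i).neighborSet v).ncard ≤ 2) ∧
      (∀ i v, Cyc (H i) v → L ≤ csize (H i) v) ∧ (⨆ j, G j) = ⨆ i, H i ∧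
      Fintype.card (Σ j, Fin (K j)) = ∑ j, K j := by
  choose H h1 h2 h3 using hG
  refine ⟨fun p => H p.1 p.2, fun p v => h1 p.1 p.2 v, fun p v => h2 p.1 p.2 v, ?_, ?_⟩
  · rw [iSup_sigma]
    exact iSup_congr fun j => h3 j
  · simp

theorem cove : S_COVE := by
  intro W κ _ _ K L G hG hL
  classical
  obtain ⟨H, h1, h2, h3, h4⟩ := cove_family K L G hG
  rw [h3, ← h4]
  refine cov_of_load H h1 fun v => ?_
  rcases Nat.eq_zero_or_pos L with h0 | h0
  · have hem : Fintype.card (Σ j, Fin (K j)) = 0 := by rw [h4]; omega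
    have : IsEmpty (Σ j, Fin (K j)) := Fintype.card_eq_zero_iff.1 hem
    simp
  · have hL0 : (0 : ℝ) < L := by exact_mod_cast h0
    have h5 : ∀ i, (if Cyc (H i) v then (2 : ℝ) / csize (H i) v else 0) ≤ 2 / L := by
      intro i
      split_ifs with hc
      · exact div_le_div_of_nonneg_left (by norm_num) hL0 (by exact_mod_cast h2 i v hc)
      · positivity
    refine (Finset.sum_le_sum fun i _ => h5 i).trans ?_
    rw [Finset.sum_const, nsmul_eq_mul, Finset.card_univ, h4, ← mul_div_assoc, div_le_one hL0]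
    have : (2 : ℝ) * ((∑ j, K j : ℕ) : ℝ) ≤ L := by exact_mod_cast hL
    linarith

end Pool.Agent.H28.CU
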