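import Pool.Agent.H28.CU.Stm2
import Pool.Agent.H28.CU.Cayp

set_option autoImplicit false

/-! # Project CU, part CAYM -/

namespace Pool.Agent.H28.CU

open Finset Module SimpleGraph H931R3.LA Pool.Agent.W111.LAR Pool.Agent.TH486.LAC

theorem caym : S_MC2P → S_MCDP → S_PSUM → S_COVE → S_COVO → S_HALF → S_CAYM := by
  intro hM2 hMD hPS hCE hCO hH Γ V _ _ _ _ _ π S I J X k t hX hne hI hJ ht h1 h2 he ho h3 h4
  have hN : 0 < S.ncard := (Set.ncard_pos (Set.toFinite _)).2 hne
  -- symmetric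
  have hsymm : ∀ s ∈ S, s⁻¹ ∈ S := by
    intro s hs
    have h5 : X.Adj 1 s := (hX 1 s).2 (by simpa using hs)
    have h6 := (hX s 1).1 h5.symm
    simpa using h6
  have hIinv : ∀ s ∈ I, s⁻¹ = s := fun s hs =>
    inv_eq_of_mul_eq_one_left ((hI s).1 hs).2
  have hJs : ∀ s ∈ J, s⁻¹ ∈ J := by
    intro s hs
    obtain ⟨h5, h6⟩ := (hJ s).1 hs
    refine (hJ _).2 ⟨hsymm s h5, fun h7 => h6 ?_⟩
    have h8 := congrArg (fun x => x⁻¹) h7
    simpa using h8
  have hJne : ∀ s ∈ J, s⁻¹ ≠ s := by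
    intro s hs h5
    refine ((hJ s).1 hs).2 ?_
    nth_rewrite 1 [← h5]
    exact inv_mul_cancel s
  have hSIJ : S.ncard = I.ncard + J.ncard := by
    have h5 : S = I ∪ J := by
      ext s
      rw [Set.mem_union, hI, hJ]
      by_cases h6 : s * s = 1
      · simp [h6]
      · simp [h6]
    have h6 : Disjoint I J := by
      rw [Set.disjoint_left]
      intro s h7 h8
      exact ((hJ s).1 h8).2 ((hI s).1 h7).2
    rw [h5, Set.ncard_union_eq h6 (Set.toFinite _) (Set.toFinite _)]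
  obtain ⟨T, hTJ, hT, hT'⟩ := hH Γ J (fun s => s⁻¹) (Set.toFinite _)
    (fun s hs => ⟨hJs s hs, inv_inv s, hJne s hs⟩)
  have hJT : J.ncard = 2 * T.ncard := by
    have := ncard_half J T (fun s => s⁻¹) (fun _ => True)
      (fun s hs => ⟨hJs s hs, inv_inv s⟩) (fun _ _ h => h) hTJ hT hT'
    simpa using this
  have hJ2 : J.ncard / 2 = T.ncard := by omega
  rw [hJ2] at h2
  refine lacov_of X S.ncard hN (cay_ncard S X hX) ?_
  intro W _ G f hom inj
  have : Fintype T := Fintype.ofFinite T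
  have : Fintype I := Fintype.ofFinite I
  have hcT : Fintype.card T = T.ncard := by
    rw [← Nat.card_eq_fintype_card, Nat.card_coe_set_eq]
  have hcI : Fintype.card I = I.ncard := by
    rw [← Nat.card_eq_fintype_card, Nat.card_coe_set_eq]
  -- the two subgraphs
  let GI : SimpleGraph W :=
    { Adj := fun a b => G.Adj a b ∧ (f a)⁻¹ * f b ∈ I
      symm := ⟨fun a b h => ⟨h.1.symm, by
        have h5 : (f b)⁻¹ * f a = ((f a)⁻¹ * f b)⁻¹ := by group
        rw [h5, hIinv _ h.2]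
        exact h.2⟩⟩
      loopless := ⟨fun a h => G.loopless.irrefl a h.1⟩ }
  let GJ : SimpleGraph W :=
    { Adj := fun a b => G.Adj a b ∧ (f a)⁻¹ * f b ∈ J
      symm := ⟨fun a b h => ⟨h.1.symm, by
        have h5 : (f b)⁻¹ * f a = ((f a)⁻¹ * f b)⁻¹ := by group
        rw [h5]
        exact hJs _ h.2⟩⟩
      loopless := ⟨fun a h => G.loopless.irrefl a h.1⟩ }
  have hG : G = GI ⊔ GJ := by
    ext a b
    rw [SimpleGraph.sup_adj]
    constructor
    · intro hab
      have h5 := (hX _ _).1 (hom a b hab)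
      by_cases h6 : ((f a)⁻¹ * f b) * ((f a)⁻¹ * f b) = 1
      · exact Or.inl ⟨hab, (hI _).2 ⟨h5, h6⟩⟩
      · exact Or.inr ⟨hab, (hJ _).2 ⟨h5, h6⟩⟩
    · rintro (h5 | h5)
      · exact h5.1
      · exact h5.1
  -- the involutions
  have key2 := hM2 V W I (fun s => (π s.1).toAdd) (fun a => (π (f a)).toAdd)
    (fun s a b => G.Adj a b ∧ (f a)⁻¹ * f b = s.1) GI k t
  rw [hcI] at key2
  obtain ⟨P, Q, hPQ, hPd, hPe, hQ⟩ : ∃ P Q : SimpleGraph W, GI = P ⊔ Q ∧
      (∀ a, (P.neighborSet a).ncard ≤ 1) ∧ (Even I.ncard → P = ⊥) ∧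
      Pie Q (I.ncard / 2) (2 ^ t) := by
    refine key2 ?_ ?_ ?_ ?_ ht h1 ?_ ?_
    · rintro s a b ⟨_, hs⟩
      have : f b = f a * s.1 := by rw [← hs]; simp
      rw [this, map_mul]
      rfl
    · rintro s a b b' ⟨hab, hs⟩ ⟨hab', hs'⟩
      refine inj a b b' hab hab' ?_
      exact mul_left_cancel (hs.trans hs'.symm)
    · rintro s a b ⟨hab, hs⟩
      refine ⟨hab.symm, ?_⟩
      rw [← hIinv _ s.2, ← hs]
      group
    · intro a b
      constructor
      · intro hab
        exact ⟨⟨(f a)⁻¹ * f b, hab.2⟩, hab.1, rfl⟩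
      · rintro ⟨s, hab, hs⟩
        refine ⟨hab, ?_⟩
        rw [hs]
        exact s.2
    · intro U hU
      have := ncard_sub I (fun s => (π s).toAdd ∈ U)
      rw [this]
      exact (h3 U hU).1
    · intro U hU
      have := ncard_sub I (fun s => (π s).toAdd ∈ U)
      rw [this]
      exact h4 U hU
  -- the other elements
  have keyD := hMD 2 V W T (fun s => (π s.1).toAdd) (fun a => (π (f a)).toAdd)
    (fun s a b => G.Adj a b ∧ (f a)⁻¹ * f b = s.1) GJ (k + 1) t
  rw [hcT] at keyD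
  have hpie : Pie GJ T.ncard (2 ^ t) := by
    refine keyD ?_ ?_ ?_ ?_ ht h2 ?_
    · rintro s a b ⟨_, hs⟩
      have : f b = f a * s.1 := by rw [← hs]; simp
      rw [this, map_mul]
      rfl
    · rintro s a b b' ⟨hab, hs⟩ ⟨hab', hs'⟩
      refine inj a b b' hab hab' ?_
      exact mul_left_cancel (hs.trans hs'.symm)
    · rintro s a b b' ⟨hab, hs⟩ ⟨hab', hs'⟩
      refine inj a b b' hab.symm hab'.symm ?_
      have h7 := hs.trans hs'.symm
      have h8 := mul_right_cancel h7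
      exact inv_injective h8
    · intro a b
      constructor
      · intro hab
        rcases hT _ hab.2 with h7 | h7
        · exact ⟨⟨_, h7⟩, Or.inl ⟨hab.1, rfl⟩⟩
        · refine ⟨⟨_, h7⟩, Or.inr ⟨hab.1.symm, ?_⟩⟩
          show (f b)⁻¹ * f a = ((f a)⁻¹ * f b)⁻¹
          group
      · rintro ⟨s, ⟨hab, hs⟩ | ⟨hab, hs⟩⟩
        · refine ⟨hab, ?_⟩
          rw [hs]
          exact hTJ s.2
        · have h5 : GJ.Adj b a := ⟨hab, by
            rw [hs]
            exact hTJ s.2⟩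
          exact h5.symm
    · intro U hU
      have h7 := ncard_sub T (fun s => (π s).toAdd ∈ U)
      rw [h7]
      have h8 := ncard_half J T (fun s => s⁻¹) (fun s => (π s).toAdd ∈ U)
        (fun s hs => ⟨hJs s hs, inv_inv s⟩) (fun s _ h => by
          show (π s⁻¹).toAdd ∈ U
          rw [map_inv, toAdd_inv]
          exact U.neg_mem h) hTJ hT hT'
      have h9 := (h3 U hU).2
      rw [h8, hJ2, mul_assoc] at h9
      exact Nat.le_of_mul_le_mul_left h9 two_pos
  have hsum : Pie (Q ⊔ GJ) (I.ncard / 2 + T.ncard) (2 ^ t) := (hPS W (2 ^ t)).2 Q GJ _ _ hQ hpie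
  have hG2 : G = P ⊔ (Q ⊔ GJ) := by
    rw [hG, hPQ, sup_assoc]
  have h7 : (⨆ _ : Unit, (Q ⊔ GJ)) = Q ⊔ GJ := iSup_const
  rcases Nat.even_or_odd S.ncard with hev | hod
  · have hIe : Even I.ncard := by
      rw [hSIJ, hJT] at hev
      exact (Nat.even_add.1 hev).2 (even_two_mul _)
    have hle := he hev
    obtain ⟨i, hi⟩ := hIe
    have h6 := hCE W Unit (fun _ => I.ncard / 2 + T.ncard) (2 ^ t) (fun _ => Q ⊔ GJ)
      (fun _ => hsum) (by simp only [Finset.univ_unique, Finset.sum_singleton]; omega)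
    rw [h7] at h6
    have h8 : ∑ _ : Unit, (I.ncard / 2 + T.ncard) + 1 = S.ncard / 2 + 1 := by
      simp only [Finset.univ_unique, Finset.sum_singleton]
      omega
    rw [h8] at h6
    rw [hG2, hPe ⟨i, hi⟩, bot_sup_eq]
    exact h6
  · have hle := ho hod
    obtain ⟨i, hi⟩ := hod
    have h6 := hCO W Unit (fun _ => I.ncard / 2 + T.ncard) (2 ^ t) (fun _ => Q ⊔ GJ) P
      (fun _ => hsum) hPd (by simp only [Finset.univ_unique, Finset.sum_singleton]; omega)
    rw [h7] at h6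
    have h8 : ∑ _ : Unit, (I.ncard / 2 + T.ncard) + 1 = S.ncard / 2 + 1 := by
      simp only [Finset.univ_unique, Finset.sum_singleton]
      omega
    rw [h8] at h6
    rw [hG2]
    exact h6

end Pool.Agent.H28.CU
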