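import Pool.Agent.H28.CU.Stm2
import Pool.Agent.H28.CU.Cayp

set_option autoImplicit false

/-! # Project CU, part CAYQ -/

namespace Pool.Agent.H28.CU

open Finset Module SimpleGraph H931R3.LA Pool.Agent.W111.LAR Pool.Agent.TH486.LAC

theorem cayq : S_MCDP → S_HALF → S_COVE → S_CAYQ := by
  intro hM hH hC p hp Γ V _ _ _ _ _ π S X k t hp2 hX hne ht h1 h2 h3
  have hN : 0 < S.ncard := (Set.ncard_pos (Set.toFinite _)).2 hne
  have hp2' : (2 : ZMod p) ≠ 0 := by
    intro h
    have : ((2 : ℕ) : ZMod p) = 0 := by exact_mod_cast h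
    rw [ZMod.natCast_eq_zero_iff] at this
    exact hp2 ((Nat.prime_dvd_prime_iff_eq hp.out Nat.prime_two).1 this)
  -- symmetric
  have hsymm : ∀ s ∈ S, s⁻¹ ∈ S := by
    intro s hs
    have h4 : X.Adj 1 s := (hX 1 s).2 (by simpa using hs)
    have h5 := (hX s 1).1 h4.symm
    simpa using h5
  have hne0 : ∀ s ∈ S, (π s).toAdd ≠ 0 := by
    intro s hs h0
    have h4 := h3 ⊥ (by rw [finrank_bot]; exact Nat.zero_le _)
    rw [finrank_bot, mul_zero, Nat.le_zero, Set.ncard_eq_zero (Set.toFinite _)] at h4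
    have h5 : s ∈ {s | s ∈ S ∧ (π s).toAdd ∈ (⊥ : Submodule (ZMod p) V)} :=
      ⟨hs, by rw [Submodule.mem_bot]; exact h0⟩
    rw [h4] at h5
    exact h5
  have hinv : ∀ s ∈ S, s⁻¹ ≠ s := by
    intro s hs h
    refine hne0 s hs ?_
    have h4 : (π s⁻¹).toAdd = (π s).toAdd := by rw [h]
    rw [map_inv, toAdd_inv] at h4
    have h5 : (2 : ZMod p) • (π s).toAdd = 0 := by
      rw [two_smul]
      nth_rewrite 1 [← h4]
      exact neg_add_cancel _
    exact (smul_eq_zero.1 h5).resolve_left hp2'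
  obtain ⟨T, hTS, hT, hT'⟩ := hH Γ S (fun s => s⁻¹) (Set.toFinite _)
    (fun s hs => ⟨hsymm s hs, inv_inv s, hinv s hs⟩)
  have hST : S.ncard = 2 * T.ncard := by
    have := ncard_half S T (fun s => s⁻¹) (fun _ => True)
      (fun s hs => ⟨hsymm s hs, inv_inv s⟩) (fun _ _ h => h) hTS hT hT'
    simpa using this
  have hS2 : S.ncard / 2 = T.ncard := by omega
  rw [hS2] at h1
  refine lacov_of X S.ncard hN (cay_ncard S X hX) ?_
  intro W _ G f hom inj
  have : Fintype T := Fintype.ofFinite T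
  have hc : Fintype.card T = T.ncard := by
    rw [← Nat.card_eq_fintype_card, Nat.card_coe_set_eq]
  have key := hM p V W T (fun s => (π s.1).toAdd) (fun a => (π (f a)).toAdd)
    (fun s a b => G.Adj a b ∧ (f a)⁻¹ * f b = s.1) G k t
  rw [hc] at key
  have hpie : Pie G T.ncard (p ^ t) := by
    refine key ?_ ?_ ?_ ?_ ht h1 ?_
    · rintro s a b ⟨_, hs⟩
      have : f b = f a * s.1 := by rw [← hs]; simp
      rw [this, map_mul]
      rfl
    · rintro s a b b' ⟨hab, hs⟩ ⟨hab', hs'⟩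
      refine inj a b b' hab hab' ?_
      exact mul_left_cancel (hs.trans hs'.symm)
    · rintro s a b b' ⟨hab, hs⟩ ⟨hab', hs'⟩
      refine inj a b b' hab.symm hab'.symm ?_
      have h7 := hs.trans hs'.symm
      have h8 := mul_right_cancel h7
      exact inv_injective h8
    · intro a b
      constructor
      · intro hab
        rcases hT _ ((hX _ _).1 (hom a b hab)) with h7 | h7
        · exact ⟨⟨_, h7⟩, Or.inl ⟨hab, rfl⟩⟩
        · refine ⟨⟨_, h7⟩, Or.inr ⟨hab.symm, ?_⟩⟩
          show (f b)⁻¹ * f a = ((f a)⁻¹ * f b)⁻¹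
          group
      · rintro ⟨s, ⟨hab, _⟩ | ⟨hab, _⟩⟩
        · exact hab
        · exact hab.symm
    · intro U hU
      have h7 := ncard_sub T (fun s => (π s).toAdd ∈ U)
      rw [h7]
      have h8 := ncard_half S T (fun s => s⁻¹) (fun s => (π s).toAdd ∈ U)
        (fun s hs => ⟨hsymm s hs, inv_inv s⟩) (fun s _ h => by
          show (π s⁻¹).toAdd ∈ U
          rw [map_inv, toAdd_inv]
          exact U.neg_mem h) hTS hT hT'
      have h9 := h3 U hU
      rw [h8, hS2, mul_assoc] at h9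
      exact Nat.le_of_mul_le_mul_left h9 two_pos
  have h6 := hC W Unit (fun _ => T.ncard) (p ^ t) (fun _ => G) (fun _ => hpie)
    (by simp; omega)
  have h7 : (⨆ _ : Unit, G) = G := iSup_const
  rw [h7] at h6
  have h8 : ∑ _ : Unit, T.ncard + 1 = S.ncard / 2 + 1 := by
    rw [hS2]
    simp
  rw [h8] at h6
  exact h6

end Pool.Agent.H28.CU
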