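import Pool.Agent.H28.CU.Stm2

set_option autoImplicit false

/-! # Project CU, part DB -/

namespace Pool.Agent.H28.CU

open Finset Module SimpleGraph H931R3.LA Pool.Agent.W111.LAR Pool.Agent.TH486.LAC

theorem db : S_DB := by
  intro p hp
  refine ⟨fun _ => Equiv.addRight (Pi.single 0 1), fun x i => ⟨0, ?_⟩, fun _ => ?_⟩
  · rw [Subsingleton.elim i 0]
    rfl
  · have key : ∀ (n : ℕ) (x : Fin 1 → ZMod p),
        ((Equiv.addRight (Pi.single 0 1 : Fin 1 → ZMod p)) ^ n) x = x + Pi.single 0 (n : ZMod p) := by
      intro n
      induction n with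
      | zero =>
        intro x
        simp
      | succ n ih =>
        intro x
        rw [pow_succ', Equiv.Perm.mul_apply, ih]
        change x + Pi.single 0 (n : ZMod p) + Pi.single 0 1 = _
        rw [add_assoc, ← Pi.single_add]
        push_cast
        rfl
    intro x y
    refine ⟨(y 0 - x 0).val, ?_⟩
    rw [key, ZMod.natCast_zmod_val]
    funext i
    rw [Subsingleton.elim i 0]
    simp

end Pool.Agent.H28.CU
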