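import Pool.Agent.H28.CU.Stm2

set_option autoImplicit false

/-! Stub DGLUE of the project CU (helper1): oriented products, for all primes. -/

namespace Pool.Agent.H28.CU

open Finset Module SimpleGraph H931R3.LA Pool.Agent.W111.LAR Pool.Agent.TH486.LAC

namespace DG1

/-- the condition on the positions -/
def cc {N : ℕ} (s : ZMod N) : Prop := 0 ≤ s.val ∧ s.val < 1

/-- orbits of full cycles -/
theorem orb_full {X : Type} [Finite X] (φ : Equiv.Perm X) (h : Tr φ) (x : X) :
    Nat.card X ≤ {y | ∃ n : ℕ, (φ ^ n) x = y}.ncard := by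
  have : {y | ∃ n : ℕ, (φ ^ n) x = y} = Set.univ := by
    ext w
    simp only [Set.mem_setOf_eq, Set.mem_univ, iff_true]
    exact h x w
  rw [this, Set.ncard_univ]

/-- the product with the identity -/
theorem orb_right {X Y : Type} [Finite X] [Finite Y] (φ : Equiv.Perm (X × Y)) (f : Equiv.Perm Y)
    (hf : Tr f) (hφ : ∀ x y, φ (x, y) = (x, f y)) (z : X × Y) :
    Nat.card Y ≤ {y | ∃ n : ℕ, (φ ^ n) z = y}.ncard := by
  obtain ⟨x, y⟩ := z
  have hit : ∀ n : ℕ, (φ ^ n) (x, y) = (x, (f ^ n) y) := by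
    intro n
    induction n with
    | zero => simp
    | succ n ih =>
      rw [pow_succ', Equiv.Perm.mul_apply, ih, hφ, pow_succ', Equiv.Perm.mul_apply]
  have hsub : Set.range (fun y' : Y => (x, y')) ⊆ {w | ∃ n : ℕ, (φ ^ n) (x, y) = w} := by
    rintro _ ⟨y', rfl⟩
    obtain ⟨n, hn⟩ := hf y y'
    exact ⟨n, by rw [hit, hn]⟩
  have h1 : (Set.range (fun y' : Y => (x, y'))).ncard = Nat.card Y := by
    rw [← Set.image_univ, Set.ncard_image_of_injective _ (fun a b hab => (Prod.ext_iff.1 hab).2),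
      Set.ncard_univ]
  rw [← h1]
  exact Set.ncard_le_ncard hsub (Set.toFinite _)

theorem oprod (hPOS : S_POS) (p : ℕ) [Fact p.Prime] (X Y κ κ' : Type) [Finite X] [Finite Y]
    [Nonempty X] [Nonempty Y] (h : κ → Equiv.Perm X) (f : κ' → Equiv.Perm Y)
    (e : κ → κ') (a b : ℕ) (he : Function.Injective e) (ha : 1 ≤ a) (hab : a ≤ b)
    (hX : Nat.card X = p ^ a) (hY : Nat.card Y = p ^ b) (hA : ∀ i, Tr (h i)) (hB : ∀ j, Tr (f j)) :
    ∃ Φ : κ ⊕ κ' → Equiv.Perm (X × Y), (∀ i x y, ∃ k, Φ k (x, y) = (h i x, y)) ∧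
      (∀ j x y, ∃ k, Φ k (x, y) = (x, f j y)) ∧
      (∀ k z, p ^ b ≤ {y | ∃ n : ℕ, (Φ k ^ n) z = y}.ncard) ∧
      (Function.Surjective e → ∀ k, Tr (Φ k)) := by
  classical
  have hp := (Fact.out : p.Prime)
  have hN0 : NeZero (p ^ a) := ⟨(pow_pos hp.pos a).ne'⟩
  have hPX : ∀ i, ∃ P : X → ZMod (p ^ a), ∀ x, P (h i x) = P x + 1 := fun i =>
    hPOS X (h i) (hA i) (p ^ a) (by rw [hX])
  have hPY : ∀ j, ∃ P : Y → ZMod (p ^ a), ∀ y, P (f j y) = P y + 1 := fun j =>
    hPOS Y (f j) (hB j) (p ^ a) (by rw [hY]; exact pow_dvd_pow p hab)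
  choose PX hPX using hPX
  choose PY hPY using hPY
  have hex : ∀ k : κ ⊕ κ', ∃ φ : Equiv.Perm (X × Y),
      (∀ i, k = Sum.inl i → Tr φ ∧ ∀ x y, φ (x, y) =
        if cc (PX i x + PY (e i) y) then (h i x, y) else (x, f (e i) y)) ∧
      (∀ i, k = Sum.inr (e i) → Tr φ ∧ ∀ x y, φ (x, y) =
        if ¬ cc (PX i x + PY (e i) y) then (h i x, y) else (x, f (e i) y)) ∧
      (∀ j, k = Sum.inr j → (¬ ∃ i, e i = j) → ∀ x y, φ (x, y) = (x, f j y)) := by
    rintro (i | j)
    · refine ⟨rotP (h i) (f (e i)) (PX i) (PY (e i)) (hPX i) (hPY (e i))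
        (fun s => 0 ≤ s.val ∧ s.val < 1), ?_, ?_, ?_⟩
      · intro i' hi'
        obtain rfl := Sum.inl.inj hi'
        refine ⟨tr_rotI (p := p) (hB (e i)) rfl ha hX hY (hPX i) (hPY (e i)) 0 1 (by norm_num)
          hp.one_lt, fun x y => ?_⟩
        rw [rotP_apply]
        by_cases hc : cc (PX i x + PY (e i) y)
        · rw [if_pos hc]
          exact if_pos hc
        · rw [if_neg hc]
          exact if_neg hc
      · intro i' hi'
        cases hi'
      · intro j hj
        cases hj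
    · by_cases hj : ∃ i, e i = j
      · obtain ⟨i, rfl⟩ := hj
        refine ⟨rotP (h i) (f (e i)) (PX i) (PY (e i)) (hPX i) (hPY (e i))
          (fun s => ¬ (0 ≤ s.val ∧ s.val < 1)), ?_, ?_, ?_⟩
        · intro i' hi'
          cases hi'
        · intro i' hi'
          obtain rfl := he (Sum.inr.inj hi')
          refine ⟨tr_rotI' (p := p) (hB (e i)) rfl ha hX hY (hPX i) (hPY (e i)) 0 1
            (by norm_num) hp.one_lt, fun x y => ?_⟩
          rw [rotP_apply]
          by_cases hc : cc (PX i x + PY (e i) y)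
          · rw [if_neg (not_not.2 hc)]
            exact if_neg (not_not.2 hc)
          · rw [if_pos hc]
            exact if_pos hc
        · intro j hj hn
          exact absurd ⟨i, Sum.inr.inj hj⟩ hn
      · refine ⟨Equiv.prodCongr (Equiv.refl X) (f j), ?_, ?_, ?_⟩
        · intro i' hi'
          cases hi'
        · intro i' hi'
          exact absurd ⟨i', (Sum.inr.inj hi').symm⟩ hj
        · intro j' hj' _ x y
          obtain rfl := Sum.inr.inj hj'
          rfl
  choose Φ hΦ1 hΦ2 hΦ3 using hex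
  have hleft : ∀ i x y, ∃ k, Φ k (x, y) = (h i x, y) := by
    intro i x y
    by_cases hc : cc (PX i x + PY (e i) y)
    · refine ⟨Sum.inl i, ?_⟩
      have := (hΦ1 (Sum.inl i) i rfl).2 x y
      rwa [if_pos hc] at this
    · refine ⟨Sum.inr (e i), ?_⟩
      have := (hΦ2 (Sum.inr (e i)) i rfl).2 x y
      rwa [if_pos hc] at this
  have hright : ∀ j x y, ∃ k, Φ k (x, y) = (x, f j y) := by
    intro j x y
    by_cases hj : ∃ i, e i = j
    · obtain ⟨i, rfl⟩ := hj
      by_cases hc : cc (PX i x + PY (e i) y)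
      · refine ⟨Sum.inr (e i), ?_⟩
        have := (hΦ2 (Sum.inr (e i)) i rfl).2 x y
        rwa [if_neg (not_not.2 hc)] at this
      · refine ⟨Sum.inl i, ?_⟩
        have := (hΦ1 (Sum.inl i) i rfl).2 x y
        rwa [if_neg hc] at this
    · exact ⟨Sum.inr j, hΦ3 (Sum.inr j) j rfl hj x y⟩
  have hcardXY : p ^ b ≤ Nat.card (X × Y) := by
    rw [Nat.card_prod, hX, hY]
    exact Nat.le_mul_of_pos_left _ (pow_pos hp.pos a)
  refine ⟨Φ, hleft, hright, ?_, fun hs => ?_⟩
  · rintro (i | j) z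
    · exact hcardXY.trans (orb_full _ (hΦ1 (Sum.inl i) i rfl).1 z)
    · by_cases hj : ∃ i, e i = j
      · obtain ⟨i, rfl⟩ := hj
        exact hcardXY.trans (orb_full _ (hΦ2 (Sum.inr (e i)) i rfl).1 z)
      · rw [← hY]
        exact orb_right _ (f j) (hB j) (hΦ3 (Sum.inr j) j rfl hj) z
  · rintro (i | j)
    · exact (hΦ1 (Sum.inl i) i rfl).1
    · obtain ⟨i, rfl⟩ := hs j
      exact (hΦ2 (Sum.inr (e i)) i rfl).1

/-- powers of conjugates -/
theorem conj_pow {A B : Type} (E : A ≃ B) (φ : Equiv.Perm A) (n : ℕ) (x : B) :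
    ((E.permCongr φ) ^ n) x = E ((φ ^ n) (E.symm x)) := by
  induction n with
  | zero => simp
  | succ n ih =>
    rw [pow_succ', Equiv.Perm.mul_apply, ih, Equiv.permCongr_apply, Equiv.symm_apply_apply,
      pow_succ', Equiv.Perm.mul_apply]

theorem append_left {p m n : ℕ} (a : Fin m → ZMod p) (b : Fin n → ZMod p) (i : Fin m) :
    Fin.append (a + Pi.single i 1) b = Fin.append a b + Pi.single (Fin.castAdd n i) 1 := by
  funext k
  refine Fin.addCases (fun k => ?_) (fun k => ?_) k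
  · rw [Pi.add_apply, Fin.append_left, Fin.append_left, Pi.add_apply]
    congr 1
    by_cases hk : k = i
    · subst hk
      simp
    · rw [Pi.single_eq_of_ne hk, Pi.single_eq_of_ne]
      intro h
      exact hk (Fin.castAdd_injective m n h)
  · rw [Pi.add_apply, Fin.append_right, Fin.append_right, Pi.single_eq_of_ne, add_zero]
    intro h
    have := congrArg Fin.val h
    simp at this
    omega

theorem append_right {p m n : ℕ} (a : Fin m → ZMod p) (b : Fin n → ZMod p) (i : Fin n) :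
    Fin.append a (b + Pi.single i 1) = Fin.append a b + Pi.single (Fin.natAdd m i) 1 := by
  funext k
  refine Fin.addCases (fun k => ?_) (fun k => ?_) k
  · rw [Pi.add_apply, Fin.append_left, Fin.append_left, Pi.single_eq_of_ne, add_zero]
    intro h
    have := congrArg Fin.val h
    simp at this
    omega
  · rw [Pi.add_apply, Fin.append_right, Fin.append_right, Pi.add_apply]
    congr 1
    by_cases hk : k = i
    · subst hk
      simp
    · rw [Pi.single_eq_of_ne hk, Pi.single_eq_of_ne]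
      intro h
      exact hk (Fin.natAdd_injective n m h)

end DG1

open DG1

theorem dglue : S_POS → S_DGLUE := by
  intro hPOS p m n _ hm hn hm1 hmn
  obtain ⟨h, hh, hhT⟩ := hm
  obtain ⟨f, hf, hfT⟩ := hn
  have hcm : Nat.card (Fin m → ZMod p) = p ^ m := by
    rw [Nat.card_fun, Nat.card_fin, Nat.card_zmod]
  have hcn : Nat.card (Fin n → ZMod p) = p ^ n := by
    rw [Nat.card_fun, Nat.card_fin, Nat.card_zmod]
  have hfin : ∀ k : ℕ, Finite (Fin k → ZMod p) := fun k => inferInstance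
  obtain ⟨Φ, h1, h2, h3, h4⟩ := oprod hPOS p (Fin m → ZMod p) (Fin n → ZMod p) (Fin m) (Fin n)
    h f (Fin.castLE hmn) m n (Fin.castLE_injective hmn) hm1 hmn hcm hcn hhT hfT
  set E : (Fin m → ZMod p) × (Fin n → ZMod p) ≃ (Fin (m + n) → ZMod p) := Fin.appendEquiv m n
    with hE
  have hEa : ∀ a b, E (a, b) = Fin.append a b := fun a b => rfl
  let Ψ : Fin (m + n) → Equiv.Perm (Fin (m + n) → ZMod p) := fun j =>
    E.permCongr (Φ (finSumFinEquiv.symm j))
  have hΨ : ∀ k z, Ψ (finSumFinEquiv k) (E z) = E (Φ k z) := by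
    intro k z
    show E.permCongr (Φ (finSumFinEquiv.symm (finSumFinEquiv k))) (E z) = _
    rw [Equiv.symm_apply_apply, Equiv.permCongr_apply, Equiv.symm_apply_apply]
  have hcov : ∀ x i, ∃ j, Ψ j x = x + Pi.single i 1 := by
    intro x i
    obtain ⟨⟨a, b⟩, rfl⟩ := E.surjective x
    refine Fin.addCases (fun i => ?_) (fun i => ?_) i
    · obtain ⟨j, hj⟩ := hh a i
      obtain ⟨k, hk⟩ := h1 j a b
      refine ⟨finSumFinEquiv k, ?_⟩
      rw [hΨ, hk, hj, hEa, hEa, append_left]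
    · obtain ⟨j, hj⟩ := hf b i
      obtain ⟨k, hk⟩ := h2 j a b
      refine ⟨finSumFinEquiv k, ?_⟩
      rw [hΨ, hk, hj, hEa, hEa, append_right]
  refine ⟨⟨Ψ, hcov, ?_⟩, ?_⟩
  · intro j x
    have hs : {y | ∃ n : ℕ, (Ψ j ^ n) x = y} =
        E '' {y | ∃ n : ℕ, (Φ (finSumFinEquiv.symm j) ^ n) (E.symm x) = y} := by
      ext y
      constructor
      · rintro ⟨k, rfl⟩
        exact ⟨_, ⟨k, rfl⟩, (conj_pow E _ k x).symm⟩
      · rintro ⟨_, ⟨k, rfl⟩, rfl⟩
        exact ⟨k, conj_pow E _ k x⟩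
    rw [hs, Set.ncard_image_of_injective _ E.injective]
    exact h3 _ _
  · intro hmn'
    refine ⟨Ψ, hcov, ?_⟩
    have hsur : Function.Surjective (Fin.castLE hmn) := by
      intro j
      exact ⟨⟨j.1, by omega⟩, rfl⟩
    intro j x y
    obtain ⟨k, hk⟩ := h4 hsur (finSumFinEquiv.symm j) (E.symm x) (E.symm y)
    refine ⟨k, ?_⟩
    show ((E.permCongr (Φ (finSumFinEquiv.symm j))) ^ k) x = y
    rw [conj_pow, hk, Equiv.apply_symm_apply]

end Pool.Agent.H28.CU
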