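import Pool.Agent.H79.LA.TH486_LAC_Prod
import Pool.Agent.H79.LA.TH486_LAC_Factor
import Pool.Agent.H79.LA.TH486_LAC_Lift
import Pool.Agent.H79.LA.W111_LAR_Top

set_option autoImplicit false

/-!
Project CU (helper28, MP_0a041d_co): linear arboricity of graphs which are unions of covers of
cubes and tori; Cayley graphs whose connection set is spread in an elementary abelian quotient.
-/

namespace Pool.Agent.H28.CU

open Finset Module SimpleGraph H931R3.LA Pool.Agent.W111.LAR Pool.Agent.TH486.LAC

/-- The Cayley graph of `(ZMod p)^ι` with respect to the unit vectors (the cube for `p = 2`). -/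
def tor (p : ℕ) (ι : Type) [DecidableEq ι] : SimpleGraph (ι → ZMod p) where
  Adj x y := x ≠ y ∧ ∃ i, y = x + Pi.single i 1 ∨ x = y + Pi.single i 1
  symm.symm _ _ h := ⟨h.1.symm, h.2.elim fun i hi => ⟨i, hi.symm⟩⟩
  loopless.irrefl _ h := h.1 rfl

/-- The graph `A` is the union of the graphs `fgr (h i)` of the permutations `h i`, all of which
are full cycles (`Tr`, transitive). -/
structure HamD {X κ : Type} (A : SimpleGraph X) (h : κ → Equiv.Perm X) : Prop where
  tr : ∀ i, Tr (h i)
  un : A = ⨆ i, fgr (h i)

/-- The graph `A` is the union of the graphs `fgr (h i)` of the permutations `h i`, all components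
of which have at least `L` vertices. -/
structure LonD {X κ : Type} (A : SimpleGraph X) (h : κ → Equiv.Perm X) (L : ℕ) : Prop where
  sz : ∀ i x, L ≤ csize (fgr (h i)) x
  un : A = ⨆ i, fgr (h i)

/-- The torus of dimension `n` is the union of `K` full cycles. -/
def HT (p n K : ℕ) : Prop := ∃ h : Fin K → Equiv.Perm (Fin n → ZMod p), HamD (tor p (Fin n)) h

/-- The torus of dimension `n` is the union of the graphs of `K` permutations with cycles of
length at least `L`. -/
def LT (p n K L : ℕ) : Prop :=
  ∃ h : Fin K → Equiv.Perm (Fin n → ZMod p), LonD (tor p (Fin n)) h L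

/-- `G` is the union of `K` graphs of maximum degree two all whose cycles have at least `L`
vertices. -/
def Pie {W : Type} (G : SimpleGraph W) (K L : ℕ) : Prop :=
  ∃ H : Fin K → SimpleGraph W, (∀ i v, ((H i).neighborSet v).ncard ≤ 2) ∧
    (∀ i v, Cyc (H i) v → L ≤ csize (H i) v) ∧ G = ⨆ i, H i

/-- Matroid rank functions. -/
structure RK {ι : Type} [DecidableEq ι] (r : Finset ι → ℕ) : Prop where
  empty : r ∅ = 0
  mono : ∀ A B, A ⊆ B → r A ≤ r B
  step : ∀ A x, r (insert x A) ≤ r A + 1
  sub : ∀ A B, r (A ∪ B) + r (A ∩ B) ≤ r A + r B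

/-- The property of the conclusion: `|S|` is the degree of `X`; `la X = ⌊|S|/2⌋ + 1`, and every
finite nonempty graph with a locally injective homomorphism to `X` (e.g. a finite cover) has linear
arboricity at most `⌊|S|/2⌋ + 1`, with equality if it is `|S|`-regular. -/
def LACov {Γ : Type} (X : SimpleGraph Γ) (N : ℕ) : Prop :=
  (∀ g, (X.neighborSet g).ncard = N) ∧ la X = N / 2 + 1 ∧
  ∀ (W : Type) [Finite W] [Nonempty W] (G : SimpleGraph W) (f : W → Γ),
    (∀ a b, G.Adj a b → X.Adj (f a) (f b)) →
    (∀ a b c, G.Adj a b → G.Adj a c → f b = f c → b = c) →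
    la G ≤ N / 2 + 1 ∧ ((∀ a, (G.neighborSet a).ncard = N) → la G = N / 2 + 1)

end Pool.Agent.H28.CU
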