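import Pool.Agent.H28.CU.Stm2

set_option autoImplicit false

/-! # Project CU, part DPIECE -/

namespace Pool.Agent.H28.CU

open Finset Module SimpleGraph H931R3.LA Pool.Agent.W111.LAR Pool.Agent.TH486.LAC

theorem dpiece : S_DPIECE := by
  classical
  rintro p m L hp ⟨h, hcov, hsz⟩ V W ι _ _ _ _ _ v φ c G hm hv hφ h1 h2 hG
  have : NeZero p := ⟨hp.out.ne_zero⟩
  obtain ⟨g, hg⟩ := LinearMap.exists_leftInverse_of_injective (Finsupp.linearCombination (ZMod p) v)
    (LinearMap.ker_eq_bot.2 hv)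
  have hgv : ∀ i, g (v i) = Finsupp.single i 1 := by
    intro i
    have h3 := LinearMap.congr_fun hg (Finsupp.single i 1)
    rw [LinearMap.comp_apply, Finsupp.linearCombination_single, one_smul] at h3
    exact h3
  let σ : Fin m ≃ ι := (Fintype.equivFinOfCardEq hm).symm
  let ψ : W → Fin m → ZMod p := fun a s => g (φ a) (σ s)
  have hψ : ∀ i a b, c i a b → ψ b = ψ a + Pi.single (σ.symm i) 1 := by
    intro i a b hc
    funext s
    show g (φ b) (σ s) = g (φ a) (σ s) + (Pi.single (σ.symm i) 1 : Fin m → ZMod p) s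
    rw [hφ i a b hc, map_add, hgv, Finsupp.add_apply]
    congr 1
    by_cases hs : i = σ s
    · subst hs
      rw [Finsupp.single_eq_same, σ.symm_apply_apply, Pi.single_eq_same]
    · rw [Finsupp.single_apply, if_neg hs, Pi.single_eq_of_ne]
      intro h3
      apply hs
      rw [h3, σ.apply_symm_apply]
  have hinj : ∀ i i' : ι, (Pi.single (σ.symm i) 1 : Fin m → ZMod p) =
      Pi.single (σ.symm i') 1 → i = i' := by
    intro i i' h3
    have h4 := congrFun h3 (σ.symm i)
    rw [Pi.single_eq_same] at h4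
    by_contra h5
    rw [Pi.single_eq_of_ne (fun h6 => h5 (σ.symm.injective h6))] at h4
    exact one_ne_zero h4
  -- out-neighbours and in-neighbours
  let O : Fin m → W → Set W := fun j a => {b | ∃ i, c i a b ∧ ψ b = h j (ψ a)}
  let N : Fin m → W → Set W := fun j a => {b | ∃ i, c i b a ∧ ψ a = h j (ψ b)}
  have hO : ∀ j a, (O j a).Subsingleton := by
    rintro j a b ⟨i, hi, e⟩ b' ⟨i', hi', e'⟩
    have e1 := hψ i a b hi
    have e2 := hψ i' a b' hi'
    rw [e, ← e', e2] at e1
    have e3 := hinj i' i (add_left_cancel e1)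
    subst e3
    exact h1 i' a b b' hi hi'
  have hN : ∀ j a, (N j a).Subsingleton := by
    rintro j a b ⟨i, hi, e⟩ b' ⟨i', hi', e'⟩
    have e0 : ψ b = ψ b' := (h j).injective (e.symm.trans e')
    have e1 := hψ i b a hi
    have e2 := hψ i' b' a hi'
    rw [e0, e2] at e1
    have e3 := hinj i' i (add_left_cancel e1)
    subst e3
    exact h2 i' a b b' hi hi'
  let H : Fin m → SimpleGraph W := fun j =>
    { Adj := fun a b => b ∈ O j a ∨ b ∈ N j a
      symm := ⟨fun a b hab => by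
        rcases hab with ⟨i, hi, e⟩ | ⟨i, hi, e⟩
        · exact Or.inr ⟨i, hi, e⟩
        · exact Or.inl ⟨i, hi, e⟩⟩
      loopless := ⟨fun a hab => by
        rcases hab with ⟨i, hi, e⟩ | ⟨i, hi, e⟩
        · exact G.loopless.irrefl a ((hG a a).2 ⟨i, Or.inl hi⟩)
        · exact G.loopless.irrefl a ((hG a a).2 ⟨i, Or.inl hi⟩)⟩ }
  have hH : ∀ j a b, (H j).Adj a b ↔ b ∈ O j a ∨ b ∈ N j a := fun j a b => Iff.rfl
  have hnb : ∀ j a, (H j).neighborSet a = O j a ∪ N j a := by
    intro j a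
    ext b
    rw [mem_neighborSet, hH]
    rfl
  have h1c : ∀ s : Set W, s.Subsingleton → s.ncard ≤ 1 := fun s hs =>
    Set.ncard_le_one_iff_subsingleton.2 hs
  refine ⟨H, fun j a => ?_, fun j a hcyc => ?_, ?_⟩
  · rw [hnb]
    have := Set.ncard_union_le (O j a) (N j a)
    have := h1c _ (hO j a)
    have := h1c _ (hN j a)
    omega
  · have hstep : ∀ w, (H j).Reachable a w → ∃ b, (H j).Adj w b ∧ ψ b = h j (ψ w) := by
      intro w hw
      have e1 := hcyc w hw
      rw [hnb] at e1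
      have e2 : (O j w).Nonempty := by
        by_contra hcon
        rw [Set.not_nonempty_iff_eq_empty] at hcon
        rw [hcon, Set.empty_union] at e1
        have := h1c _ (hN j w)
        omega
      obtain ⟨b, hb⟩ := e2
      obtain ⟨i, hi, e⟩ := id hb
      exact ⟨b, Or.inl hb, e⟩
    have hall : ∀ n : ℕ, ∃ b, (H j).Reachable a b ∧ ψ b = (h j ^ n) (ψ a) := by
      intro n
      induction n with
      | zero => exact ⟨a, Reachable.refl a, rfl⟩
      | succ n ih =>
        obtain ⟨b, hb, e⟩ := ih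
        obtain ⟨b', hb', e'⟩ := hstep b hb
        refine ⟨b', hb.trans hb'.reachable, ?_⟩
        rw [e', e, pow_succ', Equiv.Perm.mul_apply]
    have hsub : {y | ∃ n : ℕ, (h j ^ n) (ψ a) = y} ⊆ ψ '' {b | (H j).Reachable a b} := by
      rintro y ⟨n, rfl⟩
      obtain ⟨b, hb, e⟩ := hall n
      exact ⟨b, hb, e⟩
    exact (hsz j (ψ a)).trans ((Set.ncard_le_ncard hsub (Set.toFinite _)).trans
      (Set.ncard_image_le (Set.toFinite _)))
  · ext a b
    rw [iSup_adj, hG]
    constructor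
    · rintro ⟨i, hi | hi⟩
      · obtain ⟨j, hj⟩ := hcov (ψ a) (σ.symm i)
        exact ⟨j, Or.inl ⟨i, hi, by rw [hj, hψ i a b hi]⟩⟩
      · obtain ⟨j, hj⟩ := hcov (ψ b) (σ.symm i)
        exact ⟨j, Or.inr ⟨i, hi, by rw [hj, hψ i b a hi]⟩⟩
    · rintro ⟨j, hj⟩
      rcases (hH j a b).1 hj with ⟨i, hi, -⟩ | ⟨i, hi, -⟩
      · exact ⟨i, Or.inl hi⟩
      · exact ⟨i, Or.inr hi⟩

end Pool.Agent.H28.CU
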