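import Pool.Agent.H28.CU.Stm2

set_option autoImplicit false

/-! # Project CU, part DTOR -/

namespace Pool.Agent.H28.CU

open Finset Module SimpleGraph H931R3.LA Pool.Agent.W111.LAR Pool.Agent.TH486.LAC

theorem dtor : S_DB → S_DGLUE → S_DTOR := by
  intro hB hG p hp
  have : NeZero p := ⟨hp.out.ne_zero⟩
  have ht : ∀ k : ℕ, DHT p (2 ^ k) := by
    intro k
    induction k with
    | zero => exact hB p
    | succ k ih =>
      have := (hG p _ _ ih ih Nat.one_le_two_pow le_rfl).2 rfl
      rw [← two_mul, ← pow_succ'] at this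
      exact this
  intro k m hm
  rcases hm with rfl | rfl
  · obtain ⟨h, hh, htr⟩ := ht k
    refine ⟨h, hh, fun j x => ?_⟩
    have hc : Nat.card (Fin (2 ^ k) → ZMod p) = p ^ 2 ^ k := by
      simp
    have hu : {y | ∃ n : ℕ, (h j ^ n) x = y} = Set.univ := by
      ext y
      simp only [Set.mem_univ, iff_true]
      exact htr j x y
    rw [hu, Set.ncard_univ, hc]
  · have := (hG p 1 (2 ^ k) (hB p) (ht k) le_rfl Nat.one_le_two_pow).1
    rw [add_comm 1 (2 ^ k)] at this
    exact this

end Pool.Agent.H28.CU
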