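import Pool.Agent.H28.CU.Stm2

/-! # Project CU: unions of pieces (helper12) -/

set_option autoImplicit false

namespace Pool.Agent.H28.CU

open Finset Module SimpleGraph H931R3.LA Pool.Agent.W111.LAR Pool.Agent.TH486.LAC

namespace PsumAux

lemma pie_of_equiv {W κ : Type} [Fintype κ] (L n : ℕ) (G : SimpleGraph W) (H : κ → SimpleGraph W)
    (h1 : ∀ i v, ((H i).neighborSet v).ncard ≤ 2)
    (h2 : ∀ i v, Cyc (H i) v → L ≤ csize (H i) v) (h3 : G = ⨆ i, H i)
    (hn : Fintype.card κ = n) : Pie G n L := by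
  subst hn
  refine ⟨fun i => H ((Fintype.equivFin κ).symm i), fun i v => h1 _ v, fun i v h => h2 _ v h, ?_⟩
  rw [h3]
  exact ((Fintype.equivFin κ).symm.iSup_comp (g := H)).symm

end PsumAux

open PsumAux

theorem psum : S_PSUM := by
  intro W L
  refine ⟨?_, ?_⟩
  · intro κ _ K G hG
    choose H h1 h2 h3 using hG
    refine pie_of_equiv (κ := Σ j, Fin (K j)) L _ _ (fun p => H p.1 p.2) (fun p v => h1 p.1 p.2 v)
      (fun p v => h2 p.1 p.2 v) ?_ (by simp)
    rw [iSup_sigma]
    exact iSup_congr fun j => h3 j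
  · rintro G G' K K' ⟨H, h1, h2, h3⟩ ⟨H', h1', h2', h3'⟩
    refine pie_of_equiv (κ := Fin K ⊕ Fin K') L _ _ (Sum.elim H H') ?_ ?_ ?_ (by simp)
    · rintro (i | i) v
      · exact h1 i v
      · exact h1' i v
    · rintro (i | i) v h
      · exact h2 i v h
      · exact h2' i v h
    · rw [iSup_sum, h3, h3']
      rfl

end Pool.Agent.H28.CU
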