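import Pool.Agent.H28.CU.Asm
import Pool.Agent.H28.CU.Caym
import Pool.Agent.H28.CU.Cayq
import Pool.Agent.H28.CU.DB
import Pool.Agent.H28.CU.DGLUE
import Pool.Agent.H28.CU.Dpiece
import Pool.Agent.H28.CU.Dtor
import Pool.Agent.H28.CU.Mc2p
import Pool.Agent.H28.CU.Mcdp
import Pool.Agent.H28.CU.Psum

set_option autoImplicit false

/-! Assembly of part 2. -/

namespace Pool.Agent.H28.CU

theorem mc2p_all : S_MC2P := mc2p part_all loc piece cube_all psum
theorem mcdp_all : S_MCDP := mcdp part_all dpiece (dtor db (dglue pos)) psum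
theorem caym_all : S_CAYM := caym mc2p_all mcdp_all psum cove covo half
theorem cayq_all : S_CAYQ := cayq mcdp_all half cove

end Pool.Agent.H28.CU
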