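import Pool.Agent.H28.CU.Defs

set_option autoImplicit false

/-!
# Spread connection sets: definitions
-/

namespace Pool.Agent.H28.CU

open Module

/-- `X` is the Cayley graph of `Γ` with the connection set `S`. -/
def IsCay {Γ : Type} [Group Γ] (X : SimpleGraph Γ) (S : Set Γ) : Prop :=
  ∀ g h, X.Adj g h ↔ g⁻¹ * h ∈ S

/-- The elements of `S` with `s * s = 1`. -/
def invs {Γ : Type} [Group Γ] (S : Set Γ) : Set Γ := {s | s ∈ S ∧ s * s = 1}

/-- The elements of `S` with `s * s ≠ 1`. -/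
def nonInvs {Γ : Type} [Group Γ] (S : Set Γ) : Set Γ := {s | s ∈ S ∧ s * s ≠ 1}

section

variable (p : ℕ) [Fact p.Prime] {Γ V : Type} [Group Γ] [AddCommGroup V] [Module (ZMod p) V]
  (π : Γ →* Multiplicative V) (S : Set Γ)

/-- The number of the `s ∈ S` with `π s ∈ U`. -/
noncomputable def numIn (U : Submodule (ZMod p) V) : ℕ := {s | s ∈ S ∧ (π s).toAdd ∈ U}.ncard

/-- Each subspace `U` of dimension at most `t` contains `π s` for at most `b * dim U` of the
`s ∈ S`. -/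
def Spread (t b : ℕ) : Prop :=
  ∀ U : Submodule (ZMod p) V, finrank (ZMod p) U ≤ t → numIn p π S U ≤ b * finrank (ZMod p) U

/-- Each subspace `U` of dimension `d` contains `π s` for at most `|S| - a` of the `s ∈ S`. -/
def Outside (d a : ℕ) : Prop :=
  ∀ U : Submodule (ZMod p) V, finrank (ZMod p) U = d → numIn p π S U + a ≤ S.ncard

end

/-- The hypotheses for `p = 2`; `I = invs S`, `J = nonInvs S`, `l = ⌊|I| / t⌋`,
`a = ⌊(|I| mod t) / 2⌋`. -/
structure SpreadTwo {Γ V : Type} [Group Γ] [AddCommGroup V] [Module (ZMod 2) V]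
    (π : Γ →* Multiplicative V) (S : Set Γ) (t : ℕ) : Prop where
  small : (invs S).ncard % t / 2 ≤ (invs S).ncard / t
  small' : (nonInvs S).ncard / 2 % t ≤ (nonInvs S).ncard / 2 / t
  even : Even S.ncard → S.ncard ≤ 2 ^ t
  odd : Odd S.ncard → 6 * S.ncard ≤ 2 ^ t + 14
  spread : Spread 2 π (invs S) t ((invs S).ncard / t)
  outside : Outside 2 π (invs S) (t + 1) ((invs S).ncard % t / 2)
  spread' : Spread 2 π (nonInvs S) t (2 * ((nonInvs S).ncard / 2 / t))

/-- The hypotheses for `p` odd. -/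
structure SpreadOdd (p : ℕ) [Fact p.Prime] {Γ V : Type} [Group Γ] [AddCommGroup V]
    [Module (ZMod p) V] (π : Γ →* Multiplicative V) (S : Set Γ) (t : ℕ) : Prop where
  small : S.ncard / 2 % t ≤ S.ncard / 2 / t
  le : S.ncard ≤ p ^ t
  spread : Spread p π S t (2 * (S.ncard / 2 / t))

/-- `S` is uniformly dense in `(ℤ/p)^n`: `|S ∩ U| ≤ |S| dim U / n` for all subspaces `U`. -/
def Uniform (p n : ℕ) [Fact p.Prime] (S : Set (Fin n → ZMod p)) : Prop :=
  ∀ U : Submodule (ZMod p) (Fin n → ZMod p),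
    n * {s | s ∈ S ∧ s ∈ U}.ncard ≤ S.ncard * finrank (ZMod p) U

/-- `S` is mapped into itself by a group `𝒢` of linear automorphisms of `(ℤ/p)^n` such that the
whole space is the only `𝒢`-invariant subspace which meets `S`. -/
def IrreducibleSet (p n : ℕ) [Fact p.Prime] (S : Set (Fin n → ZMod p)) : Prop :=
  ∃ 𝒢 : Subgroup ((Fin n → ZMod p) ≃ₗ[ZMod p] (Fin n → ZMod p)),
    (∀ g ∈ 𝒢, ∀ s ∈ S, g s ∈ S) ∧
    ∀ U : Submodule (ZMod p) (Fin n → ZMod p), (∀ g ∈ 𝒢, ∀ u ∈ U, g u ∈ U) →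
      (∃ s ∈ S, s ∈ U) → U = ⊤

end Pool.Agent.H28.CU
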