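import Pool.Agent.H28.CU.Defs

set_option autoImplicit false

/-!
# Project CU: stubs

`fgr f` (TH486_LAC_Factor) is the graph of the function `f` (`v ≠ w ∧ (w = f v ∨ v = f w)`), with
`fgr_deg`, `fgr_reach`; `Tr`, `Tr.card`, `Tr.modEq`, `rotP`, `rotP_apply`, `tr_rotI`, `tr_rotI'`
(TH486_LAC_Tower/Pos/Prod) are about full cycles; `Cyc`, `csize`, `cov_of_load`, `cov_matching`,
`la_eq_of_cov` (W111_LAR_*), `pull_inj`, `pull_maps`, `pull_size` (TH486_LAC_Lift) about linear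
forests.
-/

namespace Pool.Agent.H28.CU

open Finset Module SimpleGraph H931R3.LA Pool.Agent.W111.LAR Pool.Agent.TH486.LAC

/-! ## Part 1: cubes and tori -/

/-- CU-POS. Positions on a full cycle. Proof: as `exists_pos` (TH486_LAC_Pos) without `u`: fix `y0`,
choose `k y` with `(f ^ k y) y0 = y`, put `P y = k y` and use `Tr.modEq`. (15 lines) -/
def S_POS : Prop := ∀ (Y : Type) [Finite Y] [Nonempty Y] (f : Equiv.Perm Y), Tr f →
  ∀ N : ℕ, N ∣ Nat.card Y → ∃ P : Y → ZMod N, ∀ y, P (f y) = P y + 1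

/-- CU-HL. Full cycles have long components: by `fgr_reach` every vertex is reachable from every
vertex. (10 lines) -/
def S_HL : Prop := ∀ (X κ : Type) [Finite X] (A : SimpleGraph X) (h : κ → Equiv.Perm X),
  HamD A h → LonD A h (Nat.card X)

/-- CU-PROD (dep POS, HL). Products: `A □ B` is the union of `|κ| + |κ'|` permutation graphs.
Proof. Let `N = p ^ a` (`NeZero`), take positions `PX i : X → ZMod N` of `h i` and
`PY j : Y → ZMod N` of `f j` (S_POS; `p ^ a ∣ p ^ b`). For `i : κ` let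
`Φ (inl i) = rotP (h i) (f (e i)) (PX i) (PY (e i)) _ _ (fun s => 0 ≤ s.val ∧ s.val < 1)`,
`Φ (inr (e i)) = rotP ... (fun s => ¬ (0 ≤ s.val ∧ s.val < 1))` (same `i`), and `Φ (inr j) (x, y) =
(x, f j y)` (`Equiv.prodCongr (Equiv.refl X) (f j)`) if `j` is not in the range of `e`.
The first two are full cycles of `X × Y` by `tr_rotI`, `tr_rotI'` with `lo = 0`, `hi = 1 < p`;
the third has the orbits `{x} × Y` of size `p ^ b`. Union: if `x' = h i x ≠ x` then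
`(x, y) ↦ (x', y)` is a step of `Φ (inl i)` or of `Φ (inr (e i))` according to the position of
`(x, y)`; if `y' = f j y ≠ y` then `(x, y) ↦ (x, y')` is a step of `Φ (inl i)` or `Φ (inr j)` if
`j = e i`, and of `Φ (inr j)` if `j` is not in the range. Conversely all steps are of these two
kinds, so that their graphs are subgraphs of `A □ B` (`boxProd_adj`). (150 lines) -/
def S_PROD : Prop := ∀ (p : ℕ) [Fact p.Prime] (X Y κ κ' : Type) [Finite X] [Finite Y]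
  [Nonempty X] [Nonempty Y]
  (A : SimpleGraph X) (B : SimpleGraph Y) (h : κ → Equiv.Perm X) (f : κ' → Equiv.Perm Y)
  (e : κ → κ') (a b : ℕ), Function.Injective e → 1 ≤ a → a ≤ b → Nat.card X = p ^ a →
  Nat.card Y = p ^ b → HamD A h → HamD B f →
  ∃ Φ : κ ⊕ κ' → Equiv.Perm (X × Y), LonD (A □ B) Φ (p ^ b) ∧
    (Function.Surjective e → HamD (A □ B) Φ)

/-- CU-TRANS. Transport along an isomorphism and reindexing. (Take
`φ.trans ((h (σ i)).trans φ.symm)`; 60 lines) -/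
def S_TRANS : Prop := ∀ (X Y κ κ' : Type) [Finite X] [Finite Y] (A : SimpleGraph X)
  (B : SimpleGraph Y) (φ : X ≃ Y) (σ : κ ≃ κ') (h : κ' → Equiv.Perm Y),
  (∀ x x', A.Adj x x' ↔ B.Adj (φ x) (φ x')) →
  (HamD B h → ∃ h' : κ → Equiv.Perm X, HamD A h') ∧
  ∀ L, LonD B h L → ∃ h' : κ → Equiv.Perm X, LonD A h' L

/-- CU-TSUM. The torus of a sum (e.g. through `Equiv.sumArrowEquivProdArrow` and `finSumFinEquiv`;
40 lines). -/
def S_TSUM : Prop := ∀ (p m n : ℕ) [Fact p.Prime],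
  ∃ φ : (Fin (m + n) → ZMod p) ≃ (Fin m → ZMod p) × (Fin n → ZMod p),
    ∀ x x', (tor p (Fin (m + n))).Adj x x' ↔ (tor p (Fin m) □ tor p (Fin n)).Adj (φ x) (φ x')

/-- CU-GLUE (dep PROD, TRANS, TSUM). Combine: `Nat.card (Fin m → ZMod p) = p ^ m`,
`e = Fin.castLE`. (40 lines) -/
def S_GLUE : Prop := ∀ (p m n K K' : ℕ) [Fact p.Prime], HT p m K → HT p n K' → 1 ≤ m → m ≤ n →
  K ≤ K' → LT p (m + n) (K + K') (p ^ n) ∧ (K = K' → HT p (m + n) (K + K'))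

/-- CU-B2. The square is a 4-cycle: `(x0, x1) ↦ (x0 + x1 + 1, ...)`, explicitly
`00 ↦ 10 ↦ 11 ↦ 01 ↦ 00`; everything by `decide`. (25 lines) -/
def S_B2 : Prop := HT 2 2 1

/-- CU-BP. The cycle of length `p`, `x ↦ x + 1` on `Fin 1 → ZMod p`. (25 lines) -/
def S_BP : Prop := ∀ (p : ℕ) [Fact p.Prime], HT p 1 1

/-- CU-CUBE (dep B2, GLUE, HL). With `t = 2 ^ (k + 1)`: `HT 2 t (t / 2)` by doubling; then for
`m = t` HL, for `m = t + 2` GLUE with `HT 2 2 1`. (40 lines) -/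
def S_CUBE : Prop := ∀ k m : ℕ, m = 2 ^ (k + 1) ∨ m = 2 ^ (k + 1) + 2 →
  LT 2 m (m / 2) (2 ^ 2 ^ (k + 1))

/-- CU-TORP (dep BP, GLUE, HL). The same for the torus: `HT p (2 ^ k) (2 ^ k)` by doubling. (40
lines) -/
def S_TORP : Prop := ∀ (p : ℕ) [Fact p.Prime] (k m : ℕ), m = 2 ^ k ∨ m = 2 ^ k + 1 →
  LT p m m (p ^ 2 ^ k)

/-! ## Part 2: pieces and coverings -/

/-- CU-PIECE. Pull back the decomposition: `H i = G ⊓ (fgr (h i)).comap ψ`; degrees by `pull_inj`,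
`pull_maps`, `fgr_deg`; component sizes by `pull_size`. (See the proof of `LD.lift`; 40 lines) -/
def S_PIECE : Prop := ∀ (p n K L : ℕ) [Fact p.Prime], LT p n K L → ∀ (W : Type) [Finite W]
  (G : SimpleGraph W) (ψ : W → Fin n → ZMod p),
  (∀ a b, G.Adj a b → (tor p (Fin n)).Adj (ψ a) (ψ b)) →
  (∀ a b b', G.Adj a b → G.Adj a b' → ψ b = ψ b' → b = b') → Pie G K L

/-- CU-COVE. `cov_of_load` for the family indexed by `Σ j, Fin (K j)`: the load is at most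
`2 (∑ K j) / L ≤ 1`. (If `L = 0` then all `K j = 0` and the graph is empty.) (40 lines) -/
def S_COVE : Prop := ∀ (W κ : Type) [Finite W] [Fintype κ] (K : κ → ℕ) (L : ℕ)
  (G : κ → SimpleGraph W), (∀ j, Pie (G j) (K j) L) → 2 * ∑ j, K j ≤ L →
  Cov (⨆ j, G j) (∑ j, K j + 1)

/-- CU-COVO. `cov_matching` for the family indexed by `Σ j, Fin (K j)`. (25 lines) -/
def S_COVO : Prop := ∀ (W κ : Type) [Finite W] [Fintype κ] (K : κ → ℕ) (L : ℕ)
  (G : κ → SimpleGraph W) (P : SimpleGraph W), (∀ j, Pie (G j) (K j) L) →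
  (∀ v, (P.neighborSet v).ncard ≤ 1) → 12 * ∑ j, K j ≤ L + 8 →
  Cov (P ⊔ ⨆ j, G j) (∑ j, K j + 1)

/-- CU-LOC. Labelled graphs with independent labels map to the torus. Proof: extend `v` to a basis of
`V` / take a linear map `l : V → (ι → ZMod p)` with `l (v i) = Pi.single i 1` (exists as `v` is
linearly independent: `LinearIndependent.extend`, or `exists_leftInverse` of the injective map
`(ι → ZMod p) → V`), and `ψ a = l (φ a) ∘ σ` with `σ : Fin m ≃ ι`. Edge with label `i`: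
`ψ b = ψ a ± e_i`. Locally injective: if `a b` has label `i` and `a b'` label `i'` and
`ψ b = ψ b'`, then `± e_i = ± e_{i'}`; so `i = i'` (evaluate), and for `p ≠ 2` equal signs, so
`b = b'` by functionality of `c i` in the right direction; for `p = 2` by symmetry both are `c i a b`,
`c i a b'`. (90 lines) -/
def S_LOC : Prop := ∀ (p : ℕ) [Fact p.Prime] (V W ι : Type) [AddCommGroup V] [Module (ZMod p) V]
  [Finite V] [Fintype ι] (v : ι → V) (φ : W → V) (c : ι → W → W → Prop) (G : SimpleGraph W)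
  (m : ℕ), Fintype.card ι = m → LinearIndependent (ZMod p) v →
  (∀ i a b, c i a b → φ b = φ a + v i) → (∀ i a b b', c i a b → c i a b' → b = b') →
  (∀ i a b b', c i b a → c i b' a → b = b') → (p = 2 → ∀ i a b, c i a b → c i b a) →
  (∀ a b, G.Adj a b ↔ ∃ i, c i a b ∨ c i b a) →
  ∃ ψ : W → Fin m → ZMod p, (∀ a b, G.Adj a b → (tor p (Fin m)).Adj (ψ a) (ψ b)) ∧
    ∀ a b b', G.Adj a b → G.Adj a b' → ψ b = ψ b' → b = b'

/-! ## Part 3: matroid partition -/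

/-- CU-UNION. Matroid union theorem (Edmonds). Induction on `T.card` (strong), for all families `r`.
`T = ∅` trivial. First `r j A ≤ A.card` (`empty`, `step`).
Case 1: there is `A ⊂ T`, `A ≠ ∅`, `A ≠ T` with `A.card = ∑ r j A`. By induction for `A` a colouring
`cA` with `r j (A_j) = |A_j|`; as `|A| = ∑ |A_j| = ∑ r j A_j ≤ ∑ r j A = |A|`, `r j A_j = r j A`.
Contraction `r' j B = r j (B ∪ A) - r j A` is again `RK`, and for `B ⊆ T \ A`:
`|B| + |A| ≤ ∑ r j (B ∪ A) = ∑ r' j B + |A|`. Induction for `T \ A`, `r'`: colouring `cB`. The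
colouring `if x ∈ A then cA x else cB x` works: by `sub` for `A_j ∪ B_j` and `A`:
`r j (B_j ∪ A) + r j A_j ≤ r j (A_j ∪ B_j) + r j A`, so `r j (A_j ∪ B_j) ≥ |B_j| + r j A =
|A_j| + |B_j|`.
Case 2: otherwise pick `x ∈ T` and `j0` with `r j0 {x} = 1` (from `|{x}| ≤ ∑ r j {x}`), replace
`r j0` by `B ↦ r j0 (insert x B) - r j0 {x}` and `T` by `T.erase x`: for `∅ ≠ B ⊆ T \ x`,
`|B| + 1 ≤ ∑ r j B ≤ ∑ r' j B + 1`. Induction, then colour `x` with `j0`. (150 lines) -/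
def S_UNION : Prop := ∀ (ι κ : Type) [DecidableEq ι] [Fintype κ] [Nonempty κ] [DecidableEq κ]
  (r : κ → Finset ι → ℕ), (∀ j, RK (r j)) → ∀ T : Finset ι,
  (∀ A, A ⊆ T → A.card ≤ ∑ j, r j A) →
  ∃ c : ι → κ, ∀ j, r j (T.filter (fun x => c x = j)) = (T.filter (fun x => c x = j)).card

/-- CU-RANK. Truncated linear rank functions are `RK`. (truncation: case distinction with `omega`;
linear rank: `Submodule.finrank_sup_add_finrank_inf_eq`, `Submodule.finrank_mono`; 60 lines) -/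
def S_RANK : Prop := ∀ (K V ι : Type) [Field K] [AddCommGroup V] [Module K V]
  [FiniteDimensional K V] [DecidableEq ι] (v : ι → V) (m : ℕ),
  RK (fun A : Finset ι => min (finrank K (Submodule.span K (v '' (A : Set ι)))) m)

/-- CU-PART (dep UNION, RANK). Partition into independent sets of prescribed sizes. Apply UNION with
`T = univ`, `r j A = min (rank (v '' A)) (m j)`; hypothesis for `A`: take `U = span (v '' A)`,
`|A| ≤ #{i | v i ∈ U}`. The classes have at most `m j` elements, and `∑ m j = |ι|`. Rank =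
cardinality gives linear independence (`linearIndependent_iff_card_eq_finrank_span`). (70 lines) -/
def S_PART : Prop := ∀ (K V ι κ : Type) [Field K] [AddCommGroup V] [Module K V]
  [FiniteDimensional K V] [Fintype ι] [Fintype κ] [Nonempty κ] (v : ι → V) (m : κ → ℕ),
  ∑ j, m j = Fintype.card ι →
  (∀ U : Submodule K V, {i | v i ∈ U}.ncard ≤ ∑ j, min (finrank K U) (m j)) →
  ∃ c : ι → κ, ∀ j, {i | c i = j}.ncard = m j ∧
    LinearIndependent K (fun i : {i // c i = j} => v i.1)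

/-! ## Part 4: the main theorem for labelled graphs -/

/-- CU-MC2 (dep PART, LOC, PIECE, CUBE, COVE, COVO). Let `N = |ι|`, `l = N / t`, `a = (N % t) / 2`,
`ε = N % 2` (`N % t = 2 a + ε`, `N = l t + 2 a + ε`, as `t` is even; `a ≤ t / 2 - 1 ≤ l` by
`t * (t - 2) ≤ 2 * N`). Sizes on `Option (Fin l)`: `m (some j) = if j < a then t + 2 else t`,
`m none = ε`; the sum is `N`. PART: if `d = finrank U ≤ t` then `#{v i ∈ U} ≤ l d ≤ ∑ min d (m j)`;
if `d = t + 1` then `∑ min d (m j) = l t + a + ε = N - a ≥ #{v i ∈ U}`; if `d ≥ t + 2` the sum is `N`.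
For the class `some j`: `G_j` = graph of the labels in this class; LOC + PIECE + CUBE give
`Pie (G_j) (m j / 2) (2 ^ t)`. The class `none` has at most one label: degree at most one.
`∑ m (some j) / 2 = (N - ε) / 2 = N / 2`. `N` even: the class `none` is empty, COVE
(`2 * (N / 2) = N ≤ 2 ^ t`). `N` odd: COVO (`12 * (N / 2) = 6 N - 6 ≤ 2 ^ t + 8`).
(If `l = 0` the hypothesis for the `U` spanned by one `v i` shows that `ι` is empty or
use `none` anyway; no special case needed.) (150 lines) -/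
def S_MC2 : Prop := ∀ (V W ι : Type) [AddCommGroup V] [Module (ZMod 2) V] [Finite V] [Finite W]
  [Fintype ι] (v : ι → V) (φ : W → V) (c : ι → W → W → Prop) (G : SimpleGraph W) (k t : ℕ),
  (∀ i a b, c i a b → φ b = φ a + v i) → (∀ i a b b', c i a b → c i a b' → b = b') →
  (∀ i a b, c i a b → c i b a) → (∀ a b, G.Adj a b ↔ ∃ i, c i a b) →
  t = 2 ^ (k + 1) → t * (t - 2) ≤ 2 * Fintype.card ι →
  (Even (Fintype.card ι) → Fintype.card ι ≤ 2 ^ t) →
  (Odd (Fintype.card ι) → 6 * Fintype.card ι ≤ 2 ^ t + 14) →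
  (∀ U : Submodule (ZMod 2) V, finrank (ZMod 2) U ≤ t →
    {i | v i ∈ U}.ncard ≤ Fintype.card ι / t * finrank (ZMod 2) U) →
  (∀ U : Submodule (ZMod 2) V, finrank (ZMod 2) U = t + 1 →
    {i | v i ∈ U}.ncard + Fintype.card ι % t / 2 ≤ Fintype.card ι) →
  Cov G (Fintype.card ι / 2 + 1)

/-- CU-MCP (dep PART, LOC, PIECE, TORP, COVE). Let `N = |ι|`, `l = N / t`, `r = N % t ≤ l`. Sizes on
`Option (Fin l)`: `m (some j) = if j < r then t + 1 else t`, `m none = 0` (the sum is `N`). PART: if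
`d = finrank U ≤ t`: `#{v i ∈ U} ≤ l d ≤ ∑ min d (m j)`; if `d ≥ t + 1` the sum is `N`. Pieces
`Pie (G_j) (m j) (p ^ t)` by LOC, PIECE, TORP; the class `none` is empty; COVE. (100 lines) -/
def S_MCP : Prop := ∀ (p : ℕ) [Fact p.Prime] (V W ι : Type) [AddCommGroup V] [Module (ZMod p) V]
  [Finite V] [Finite W] [Fintype ι] (v : ι → V) (φ : W → V) (c : ι → W → W → Prop)
  (G : SimpleGraph W) (k t : ℕ), p ≠ 2 →
  (∀ i a b, c i a b → φ b = φ a + v i) → (∀ i a b b', c i a b → c i a b' → b = b') →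
  (∀ i a b b', c i b a → c i b' a → b = b') → (∀ a b, G.Adj a b ↔ ∃ i, c i a b ∨ c i b a) →
  t = 2 ^ k → t * (t - 1) ≤ Fintype.card ι → 2 * Fintype.card ι ≤ p ^ t →
  (∀ U : Submodule (ZMod p) V, finrank (ZMod p) U ≤ t →
    {i | v i ∈ U}.ncard ≤ Fintype.card ι / t * finrank (ZMod p) U) →
  Cov G (Fintype.card ι + 1)

/-! ## Part 5: Cayley graphs -/

/-- CU-CAY2 (dep MC2). Cayley graphs of finite groups generated by involutions. For a locally
injective `f : W → Γ` use `ι = S` (subtype), `v s = (π s).toAdd`, `φ a = (π (f a)).toAdd`,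
`c s a b = G.Adj a b ∧ (f a)⁻¹ * f b = s` (symmetric as `s⁻¹ = s`, functional by local
injectivity). `f = id` gives `Cov X`; equality by `la_eq_of_cov`
(`(N + 2) / 2 = N / 2 + 1`), degree: `neighborSet g = (g * ·) '' S`. (90 lines) -/
def S_CAY2 : Prop := ∀ (Γ V : Type) [Group Γ] [Finite Γ] [AddCommGroup V] [Module (ZMod 2) V]
  [Finite V] (π : Γ →* Multiplicative V) (S : Set Γ) (X : SimpleGraph Γ) (k t : ℕ),
  (∀ g h, X.Adj g h ↔ g⁻¹ * h ∈ S) → (∀ s ∈ S, s * s = 1) → S.Nonempty →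
  t = 2 ^ (k + 1) → t * (t - 2) ≤ 2 * S.ncard →
  (Even S.ncard → S.ncard ≤ 2 ^ t) → (Odd S.ncard → 6 * S.ncard ≤ 2 ^ t + 14) →
  (∀ U : Submodule (ZMod 2) V, finrank (ZMod 2) U ≤ t →
    {s | s ∈ S ∧ (π s).toAdd ∈ U}.ncard ≤ S.ncard / t * finrank (ZMod 2) U) →
  (∀ U : Submodule (ZMod 2) V, finrank (ZMod 2) U = t + 1 →
    {s | s ∈ S ∧ (π s).toAdd ∈ U}.ncard + S.ncard % t / 2 ≤ S.ncard) →
  LACov X S.ncard

/-- CU-HALF. A half system for a fixed point free involution of a finite set. (induction or a linear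
order / choice on the quotient; 40 lines) -/
def S_HALF : Prop := ∀ (Γ : Type) (S : Set Γ) (σ : Γ → Γ), S.Finite →
  (∀ s ∈ S, σ s ∈ S ∧ σ (σ s) = s ∧ σ s ≠ s) →
  ∃ T : Set Γ, T ⊆ S ∧ (∀ s ∈ S, s ∈ T ∨ σ s ∈ T) ∧ ∀ s ∈ T, σ s ∉ T

/-- CU-CAYP (dep MCP, HALF). Cayley graphs of finite groups, `p` odd. `X` is a simple graph, so `S`
is closed under inverses and `1 ∉ S`; the hypothesis for `U = ⊥` gives `π s ≠ 0` for `s ∈ S`, so
`s⁻¹ ≠ s` (as `p` is odd, `2 (π s) ≠ 0`). Take the half system `T` for `σ s = s⁻¹`; `|S| = 2 |T|`,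
`#{s ∈ S, π s ∈ U} = 2 #{s ∈ T, π s ∈ U}`. MCP with `ι = T`,
`c s a b = G.Adj a b ∧ (f a)⁻¹ * f b = s`. (120 lines) -/
def S_CAYP : Prop := ∀ (p : ℕ) [Fact p.Prime] (Γ V : Type) [Group Γ] [Finite Γ] [AddCommGroup V]
  [Module (ZMod p) V] [Finite V] (π : Γ →* Multiplicative V) (S : Set Γ) (X : SimpleGraph Γ)
  (k t : ℕ), p ≠ 2 → (∀ g h, X.Adj g h ↔ g⁻¹ * h ∈ S) → S.Nonempty →
  t = 2 ^ k → 2 * (t * (t - 1)) ≤ S.ncard → S.ncard ≤ p ^ t →
  (∀ U : Submodule (ZMod p) V, finrank (ZMod p) U ≤ t →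
    {s | s ∈ S ∧ (π s).toAdd ∈ U}.ncard ≤ 2 * (S.ncard / (2 * t)) * finrank (ZMod p) U) →
  LACov X S.ncard

/-! ## Part 6: uniformly dense sets in `(ZMod p)^n` -/

/-- CU-AVG. Sets invariant under a group without invariant subspaces meeting the set are uniformly
dense. Proof: for `s ∈ S` let `O` be its orbit under `𝒢` (finite group, as `V` is finite). The span
of `O` is invariant and contains `s`, so it is `⊤`, and `O` contains a basis `B`, `|B| = n`. For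
every `g ∈ 𝒢`, `g B` is independent, so `|g B ∩ U| ≤ finrank U`. Sum over `g ∈ 𝒢`:
`∑_g |g B ∩ U| = ∑_{b ∈ B} #{g | g b ∈ U} = n * |O ∩ U| * |𝒢| / |O|`, since `#{g | g b = o}` is the same
number `|𝒢| / |O|` for all `b, o ∈ O`. So `n |O ∩ U| ≤ |O| finrank U`; sum over the orbits in `S`.
(100 lines) -/
def S_AVG : Prop := ∀ (p n : ℕ) [Fact p.Prime] (S : Set (Fin n → ZMod p))
  (𝒢 : Subgroup ((Fin n → ZMod p) ≃ₗ[ZMod p] (Fin n → ZMod p))),
  (∀ g ∈ 𝒢, ∀ s ∈ S, g s ∈ S) →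
  (∀ U : Submodule (ZMod p) (Fin n → ZMod p), (∀ g ∈ 𝒢, ∀ u ∈ U, g u ∈ U) →
    (∃ s ∈ S, s ∈ U) → U = ⊤) →
  ∀ U : Submodule (ZMod p) (Fin n → ZMod p),
    n * {s | s ∈ S ∧ s ∈ U}.ncard ≤ S.ncard * finrank (ZMod p) U

/-- CU-NUM2. Take for `t = 2 ^ (k + 1)` the least power of two with `6 N ≤ 2 ^ t`; `t ≥ 16` as
`6 N ≥ 864 > 2 ^ 8`. The largest power of two `T ≤ n - 2` has `T ≥ (n - 1) / 2`, i.e.
`2 T ≥ n - 1`, and `(6 N) ^ 2 ≤ 2 ^ (n - 1) ≤ 2 ^ (2 T)`, so `6 N ≤ 2 ^ T` and `t ≤ T ≤ n - 2`.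
`t * (t + 2) ≤ 2 * N`: for `t = 16` since `N ≥ 144`; for `t ≥ 32` by minimality `6 N > 2 ^ (t / 2)`
and `2 ^ (t / 2) ≥ 3 t (t + 2)`. (60 lines) -/
def S_NUM2 : Prop := ∀ n N : ℕ, 144 ≤ N → 72 * N ^ 2 ≤ 2 ^ n →
  ∃ k t : ℕ, t = 2 ^ (k + 1) ∧ t + 2 ≤ n ∧ 6 * N ≤ 2 ^ t ∧ t * (t + 2) ≤ 2 * N

/-- CU-NUM3. The same for `p = 3`: `t = 2 ^ k` the least power of two with `2 N ≤ 3 ^ t`; `t ≥ 8` as
`144 > 3 ^ 4`; the largest power of two `T ≤ n - 1` has `2 T ≥ n`, `(2 N) ^ 2 ≤ 3 ^ n ≤ 3 ^ (2 T)`.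
`t = 8`: `72 ≤ N`; `t ≥ 16`: `2 N > 3 ^ (t / 2) ≥ 2 t (t + 1)`. (60 lines) -/
def S_NUM3 : Prop := ∀ n N : ℕ, 72 ≤ N → 4 * N ^ 2 ≤ 3 ^ n →
  ∃ k t : ℕ, t = 2 ^ k ∧ t + 1 ≤ n ∧ 2 * N ≤ 3 ^ t ∧ t * (t + 1) ≤ N

/-- CU-DEN2. Arithmetic: `x ≤ N / t * d` for `d ≤ t` follows from `N ≤ n * (N / t)`, i.e. from
`N (n - t) ≥ n (t - 1)`, which follows from `n ≥ t + 2` and `t (t + 2) ≤ 2 N`; for `d = t + 1`:
`x ≤ N (t + 1) / n ≤ N - N / (t + 2) ≤ N - t / 2 ≤ N - N % t / 2`. (50 lines) -/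
def S_DEN2 : Prop := ∀ n N t x d : ℕ, 2 ≤ t → t + 2 ≤ n → t * (t + 2) ≤ 2 * N → n * x ≤ N * d →
  (d ≤ t → x ≤ N / t * d) ∧ (d = t + 1 → x + N % t / 2 ≤ N)

/-- CU-DEN3. Arithmetic: for `d ≤ t` from `N ≤ n * (N / t)`. (30 lines) -/
def S_DEN3 : Prop := ∀ n N t x d : ℕ, 1 ≤ t → t + 1 ≤ n → t * (t + 1) ≤ N → n * x ≤ N * d →
  d ≤ t → x ≤ N / t * d

/-- CU-VEC2 (dep CAY2, NUM2, DEN2). `Γ = Multiplicative (Fin n → ZMod 2)`, `π = id` (or transfer the
graph along `Multiplicative.ofAdd`). (60 lines) -/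
def S_VEC2 : Prop := ∀ (n : ℕ) (S : Set (Fin n → ZMod 2)) (X : SimpleGraph (Fin n → ZMod 2)),
  (∀ v w, X.Adj v w ↔ w - v ∈ S) → 144 ≤ S.ncard → 72 * S.ncard ^ 2 ≤ 2 ^ n →
  (∀ U : Submodule (ZMod 2) (Fin n → ZMod 2),
    n * {s | s ∈ S ∧ s ∈ U}.ncard ≤ S.ncard * finrank (ZMod 2) U) → LACov X S.ncard

/-- CU-VEC3 (dep CAYP, NUM3, DEN3). The same for `p = 3`; `S.ncard` is even (`S = -S`, `0 ∉ S`), so
`N = S.ncard / 2`. (70 lines) -/
def S_VEC3 : Prop := ∀ (n : ℕ) (S : Set (Fin n → ZMod 3)) (X : SimpleGraph (Fin n → ZMod 3)),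
  (∀ v w, X.Adj v w ↔ w - v ∈ S) → 144 ≤ S.ncard → S.ncard ^ 2 ≤ 3 ^ n →
  (∀ U : Submodule (ZMod 3) (Fin n → ZMod 3),
    n * {s | s ∈ S ∧ s ∈ U}.ncard ≤ S.ncard * finrank (ZMod 3) U) → LACov X S.ncard

end Pool.Agent.H28.CU
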