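import Pool.Agent.H28.CU.Stm

set_option autoImplicit false

/-!
# Project CU, part 2: arbitrary connection sets (also elements which are not involutions, `p = 2`)

The oriented version: the digraph of the torus `x → x + e_i` (for `p = 2`: both orientations of each edge
of the cube) is a union of permutations with long cycles, for every prime `p`.
-/

namespace Pool.Agent.H28.CU

open Finset Module SimpleGraph H931R3.LA Pool.Agent.W111.LAR Pool.Agent.TH486.LAC

/-- The digraph of the torus of dimension `m` is the union of `m` full cycles. -/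
def DHT (p m : ℕ) : Prop :=
  ∃ h : Fin m → Equiv.Perm (Fin m → ZMod p), (∀ x i, ∃ j, h j x = x + Pi.single i 1) ∧
    ∀ j, Tr (h j)

/-- The digraph of the torus of dimension `m` is the union of `m` permutations all whose cycles have
at least `L` elements. -/
def DLT (p m L : ℕ) : Prop :=
  ∃ h : Fin m → Equiv.Perm (Fin m → ZMod p), (∀ x i, ∃ j, h j x = x + Pi.single i 1) ∧
    ∀ j x, L ≤ {y | ∃ n : ℕ, (h j ^ n) x = y}.ncard

/-- CU-DB. `m = 1`: `x ↦ x + 1` (also for `p = 2`). (25 lines) -/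
def S_DB : Prop := ∀ (p : ℕ) [Fact p.Prime], DHT p 1

/-- CU-DGLUE (dep POS). Products, for all primes `p` (also 2). On `(Fin m → ZMod p) × (Fin n → ZMod p)`:
with positions (POS) `Φ (inl j) = rotP (h j) (f (castLE j)) .. (fun s => 0 ≤ s.val ∧ s.val < 1)`,
`Φ (inr (castLE j)) = rotP .. (fun s => ¬ (0 ≤ s.val ∧ s.val < 1))`, `Φ (inr j') = id × f j'` for the other
`j'`; full cycles by `tr_rotI`, `tr_rotI'` (`lo = 0`, `hi = 1 < p`); `id × f j'` has orbits of size
`p ^ n`. Covering: for `i : Fin m` choose `j` with `h j x = x + e_i`; at `(x, y)` one of `Φ (inl j)`,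
`Φ (inr (castLE j))` moves to `(h j x, y)`; for `i : Fin n` choose `j'` with `f j' y = y + e_i`; if
`j' = castLE j` one of the two moves to `(x, f j' y)`, otherwise `Φ (inr j')`. Transfer to
`Fin (m + n) → ZMod p` (`Fin.append`, `Fin.addCases`, `finSumFinEquiv`). (150 lines; the undirected
version is CU-PROD) -/
def S_DGLUE : Prop := ∀ (p m n : ℕ) [Fact p.Prime], DHT p m → DHT p n → 1 ≤ m → m ≤ n →
  DLT p (m + n) (p ^ n) ∧ (m = n → DHT p (m + n))

/-- CU-DTOR (dep DB, DGLUE). Doubling; full cycles of a set with `p ^ m` elements have orbits of this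
size. (40 lines) -/
def S_DTOR : Prop := ∀ (p : ℕ) [Fact p.Prime] (k m : ℕ), m = 2 ^ k ∨ m = 2 ^ k + 1 →
  DLT p m (p ^ 2 ^ k)

/-- CU-DPIECE. Oriented pieces. Take a linear map `l` with `l (v i) = e_{σ i}` (`σ : ι ≃ Fin m`) and
`ψ = l ∘ φ`, so that `c i a b` implies `ψ b = ψ a + e_{σ i}`. `H j`: adjacency of `a ≠ b` if for some `i`
(`c i a b` and `ψ b = h j (ψ a)`) or the same with `a`, `b` exchanged. For fixed `j`, `i` is determined by
`ψ a` (`h j (ψ a) = ψ a + e_{σ i}`) or by `ψ b`, so every vertex has at most one out-neighbour and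
at most one in-neighbour: degree at most two. `G = ⨆ H j` by the covering property. If the component
of `a` is a cycle (all degrees two), every vertex of it has an out-neighbour; following the
out-neighbours gives vertices of the component over all `(h j ^ n) (ψ a)`; so `L ≤ csize`. (110
lines) -/
def S_DPIECE : Prop := ∀ (p m L : ℕ) [Fact p.Prime], DLT p m L → ∀ (V W ι : Type)
  [AddCommGroup V] [Module (ZMod p) V] [Finite V] [Finite W] [Fintype ι] (v : ι → V) (φ : W → V)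
  (c : ι → W → W → Prop) (G : SimpleGraph W), Fintype.card ι = m →
  LinearIndependent (ZMod p) v → (∀ i a b, c i a b → φ b = φ a + v i) →
  (∀ i a b b', c i a b → c i a b' → b = b') → (∀ i a b b', c i b a → c i b' a → b = b') →
  (∀ a b, G.Adj a b ↔ ∃ i, c i a b ∨ c i b a) → Pie G m L

/-- CU-PSUM. Unions of pieces. (`finSigmaFinEquiv`, resp. `Fin.append`; 40 lines) -/
def S_PSUM : Prop := ∀ (W : Type) (L : ℕ),
  (∀ (κ : Type) [Fintype κ] (K : κ → ℕ) (G : κ → SimpleGraph W), (∀ j, Pie (G j) (K j) L) →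
    Pie (⨆ j, G j) (∑ j, K j) L) ∧
  ∀ (G G' : SimpleGraph W) (K K' : ℕ), Pie G K L → Pie G' K' L → Pie (G ⊔ G') (K + K') L

/-- CU-MC2P (dep PART, LOC, PIECE, CUBE, PSUM). The decomposition of the proof of CU-MC2 (without the
last step), with the hypothesis `a = N % t / 2 ≤ N / t = l` itself. (150 lines) -/
def S_MC2P : Prop := ∀ (V W ι : Type) [AddCommGroup V] [Module (ZMod 2) V] [Finite V] [Finite W]
  [Fintype ι] (v : ι → V) (φ : W → V) (c : ι → W → W → Prop) (G : SimpleGraph W) (k t : ℕ),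
  (∀ i a b, c i a b → φ b = φ a + v i) → (∀ i a b b', c i a b → c i a b' → b = b') →
  (∀ i a b, c i a b → c i b a) → (∀ a b, G.Adj a b ↔ ∃ i, c i a b) →
  t = 2 ^ (k + 1) → Fintype.card ι % t / 2 ≤ Fintype.card ι / t →
  (∀ U : Submodule (ZMod 2) V, finrank (ZMod 2) U ≤ t →
    {i | v i ∈ U}.ncard ≤ Fintype.card ι / t * finrank (ZMod 2) U) →
  (∀ U : Submodule (ZMod 2) V, finrank (ZMod 2) U = t + 1 →
    {i | v i ∈ U}.ncard + Fintype.card ι % t / 2 ≤ Fintype.card ι) →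
  ∃ P Q : SimpleGraph W, G = P ⊔ Q ∧ (∀ a, (P.neighborSet a).ncard ≤ 1) ∧
    (Even (Fintype.card ι) → P = ⊥) ∧ Pie Q (Fintype.card ι / 2) (2 ^ t)

/-- CU-MCDP (dep PART, DPIECE, DTOR, PSUM). All primes `p`. As CU-MCP: sizes `t + 1` (`r = N % t` times)
and `t` (`N / t - r` times), `m none = 0`; pieces by DPIECE, DTOR; PSUM. (100 lines) -/
def S_MCDP : Prop := ∀ (p : ℕ) [Fact p.Prime] (V W ι : Type) [AddCommGroup V] [Module (ZMod p) V]
  [Finite V] [Finite W] [Fintype ι] (v : ι → V) (φ : W → V) (c : ι → W → W → Prop)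
  (G : SimpleGraph W) (k t : ℕ),
  (∀ i a b, c i a b → φ b = φ a + v i) → (∀ i a b b', c i a b → c i a b' → b = b') →
  (∀ i a b b', c i b a → c i b' a → b = b') → (∀ a b, G.Adj a b ↔ ∃ i, c i a b ∨ c i b a) →
  t = 2 ^ k → Fintype.card ι % t ≤ Fintype.card ι / t →
  (∀ U : Submodule (ZMod p) V, finrank (ZMod p) U ≤ t →
    {i | v i ∈ U}.ncard ≤ Fintype.card ι / t * finrank (ZMod p) U) →
  Pie G (Fintype.card ι) (p ^ t)

/-- CU-CAYM (dep MC2P, MCDP, PSUM, COVE, COVO, HALF). Arbitrary Cayley graphs over an elementary abelian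
2-group. `I`: the involutions in `S`, `J`: the other elements. For a locally injective `f : W → Γ` (also
`f = id`): labels `s ∈ I` (`c s a b = G.Adj a b ∧ (f a)⁻¹ * f b = s`, symmetric), MC2P:
`G_I = P ⊔ Q`; labels in a half system `T` of `J` (`σ s = s⁻¹ ≠ s`; HALF), `|T| = |J| / 2`,
`#{s ∈ T, π s ∈ U} = #{s ∈ J, π s ∈ U} / 2`, MCDP: `Pie G_T |T| (2 ^ t)`. `G = P ⊔ (Q ⊔ G_T)`, PSUM,
`|S| / 2 = |I| / 2 + |J| / 2`. `|S|` even iff `|I|` even: then `P = ⊥` and COVE (`κ = Unit`), otherwise COVO.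
The rest as in CU-CAY2. (150 lines) -/
def S_CAYM : Prop := ∀ (Γ V : Type) [Group Γ] [Finite Γ] [AddCommGroup V] [Module (ZMod 2) V]
  [Finite V] (π : Γ →* Multiplicative V) (S I J : Set Γ) (X : SimpleGraph Γ) (k t : ℕ),
  (∀ g h, X.Adj g h ↔ g⁻¹ * h ∈ S) → S.Nonempty → (∀ s, s ∈ I ↔ s ∈ S ∧ s * s = 1) →
  (∀ s, s ∈ J ↔ s ∈ S ∧ s * s ≠ 1) → t = 2 ^ (k + 1) →
  I.ncard % t / 2 ≤ I.ncard / t → J.ncard / 2 % t ≤ J.ncard / 2 / t →
  (Even S.ncard → S.ncard ≤ 2 ^ t) → (Odd S.ncard → 6 * S.ncard ≤ 2 ^ t + 14) →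
  (∀ U : Submodule (ZMod 2) V, finrank (ZMod 2) U ≤ t →
    {s | s ∈ I ∧ (π s).toAdd ∈ U}.ncard ≤ I.ncard / t * finrank (ZMod 2) U ∧
    {s | s ∈ J ∧ (π s).toAdd ∈ U}.ncard ≤ 2 * (J.ncard / 2 / t) * finrank (ZMod 2) U) →
  (∀ U : Submodule (ZMod 2) V, finrank (ZMod 2) U = t + 1 →
    {s | s ∈ I ∧ (π s).toAdd ∈ U}.ncard + I.ncard % t / 2 ≤ I.ncard) →
  LACov X S.ncard

/-- CU-CAYQ (dep MCDP, HALF, COVE). `p` odd, as CU-CAYP with the weaker condition
`|S| / 2 % t ≤ |S| / 2 / t`. (120 lines) -/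
def S_CAYQ : Prop := ∀ (p : ℕ) [Fact p.Prime] (Γ V : Type) [Group Γ] [Finite Γ] [AddCommGroup V]
  [Module (ZMod p) V] [Finite V] (π : Γ →* Multiplicative V) (S : Set Γ) (X : SimpleGraph Γ)
  (k t : ℕ), p ≠ 2 → (∀ g h, X.Adj g h ↔ g⁻¹ * h ∈ S) → S.Nonempty →
  t = 2 ^ k → S.ncard / 2 % t ≤ S.ncard / 2 / t → S.ncard ≤ p ^ t →
  (∀ U : Submodule (ZMod p) V, finrank (ZMod p) U ≤ t →
    {s | s ∈ S ∧ (π s).toAdd ∈ U}.ncard ≤ 2 * (S.ncard / 2 / t) * finrank (ZMod p) U) →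
  LACov X S.ncard

end Pool.Agent.H28.CU
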