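import Pool.Agent.H28.CU.Stm

set_option autoImplicit false

/-! # Project CU: `S_TRANS`, `S_TSUM` -/

namespace Pool.Agent.H28.CU

open Finset Module SimpleGraph H931R3.LA Pool.Agent.W111.LAR Pool.Agent.TH486.LAC

namespace TransAux

variable {X Y : Type} (φ : X ≃ Y)

/-- The transported permutation. -/
def tp (h : Equiv.Perm Y) : Equiv.Perm X := φ.trans (h.trans φ.symm)

lemma tp_apply (h : Equiv.Perm Y) (x : X) : φ (tp φ h x) = h (φ x) := by simp [tp]

lemma tp_pow (h : Equiv.Perm Y) (n : ℕ) (x : X) : φ ((tp φ h ^ n) x) = (h ^ n) (φ x) := by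
  induction n generalizing x with
  | zero => simp
  | succ n ih => rw [pow_succ, pow_succ, Equiv.Perm.mul_apply, Equiv.Perm.mul_apply, ih, tp_apply]

lemma tp_adj (h : Equiv.Perm Y) (x x' : X) :
    (fgr (tp φ h)).Adj x x' ↔ (fgr h).Adj (φ x) (φ x') := by
  have e1 : x' = tp φ h x ↔ φ x' = h (φ x) := by rw [← tp_apply, φ.injective.eq_iff]
  have e2 : x = tp φ h x' ↔ φ x = h (φ x') := by rw [← tp_apply, φ.injective.eq_iff]
  have e3 : x ≠ x' ↔ φ x ≠ φ x' := φ.injective.ne_iff.symm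
  show (x ≠ x' ∧ (x' = tp φ h x ∨ x = tp φ h x')) ↔ (φ x ≠ φ x' ∧ (φ x' = h (φ x) ∨ φ x = h (φ x')))
  rw [e1, e2, e3]

lemma tp_csize (h : Equiv.Perm Y) (x : X) : csize (fgr (tp φ h)) x = csize (fgr h) (φ x) := by
  let I : fgr (tp φ h) ≃g fgr h := ⟨φ, fun {a b} => (tp_adj φ h a b).symm⟩
  unfold csize
  have : {w | (fgr h).Reachable (φ x) w} = φ '' {w | (fgr (tp φ h)).Reachable x w} := by
    ext w
    simp only [Set.mem_ofPred_eq, Set.mem_image]
    constructor
    · intro hw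
      refine ⟨φ.symm w, ?_, by simp⟩
      rw [← I.reachable_iff]
      simpa [I] using hw
    · rintro ⟨w, hw, rfl⟩
      exact I.reachable_iff.2 hw
  rw [this, Set.ncard_image_of_injective _ φ.injective]

lemma tp_sup {κ κ' : Type} (A : SimpleGraph X) (B : SimpleGraph Y) (σ : κ ≃ κ')
    (h : κ' → Equiv.Perm Y) (hA : ∀ x x', A.Adj x x' ↔ B.Adj (φ x) (φ x'))
    (hB : B = ⨆ i, fgr (h i)) : A = ⨆ i, fgr (tp φ (h (σ i))) := by
  ext x x'
  rw [hA, hB, SimpleGraph.iSup_adj, SimpleGraph.iSup_adj]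
  constructor
  · rintro ⟨j, hj⟩
    refine ⟨σ.symm j, ?_⟩
    rw [tp_adj, Equiv.apply_symm_apply]
    exact hj
  · rintro ⟨i, hi⟩
    exact ⟨σ i, (tp_adj φ _ _ _).1 hi⟩

end TransAux

open TransAux in
theorem cu_trans : S_TRANS := by
  intro X Y κ κ' _ _ A B φ σ h hA
  refine ⟨fun hB => ⟨fun i => tp φ (h (σ i)), ?_, tp_sup φ A B σ h hA hB.un⟩, fun L hB =>
    ⟨fun i => tp φ (h (σ i)), ?_, tp_sup φ A B σ h hA hB.un⟩⟩
  · intro i x y
    obtain ⟨n, hn⟩ := hB.tr (σ i) (φ x) (φ y)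
    refine ⟨n, φ.injective ?_⟩
    rw [tp_pow]
    exact hn
  · intro i x
    rw [tp_csize]
    exact hB.sz (σ i) (φ x)

namespace TsumAux

variable {p m n : ℕ} [Fact p.Prime]

/-- The equivalence. -/
def sp (p m n : ℕ) : (Fin (m + n) → ZMod p) ≃ (Fin m → ZMod p) × (Fin n → ZMod p) :=
  (Fin.appendEquiv m n).symm

lemma sp1 (x : Fin (m + n) → ZMod p) (i : Fin m) : (sp p m n x).1 i = x (Fin.castAdd n i) := rfl

lemma sp2 (x : Fin (m + n) → ZMod p) (j : Fin n) : (sp p m n x).2 j = x (Fin.natAdd m j) := rfl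

lemma left (x y : Fin (m + n) → ZMod p) (i : Fin m) :
    y = x + Pi.single (Fin.castAdd n i) 1 ↔
      (sp p m n y).1 = (sp p m n x).1 + Pi.single i 1 ∧ (sp p m n y).2 = (sp p m n x).2 := by
  constructor
  · rintro rfl
    constructor
    · funext k
      simp only [sp1, Pi.add_apply]
      congr 1
      by_cases h : k = i
      · subst h; simp
      · rw [Pi.single_eq_of_ne h, Pi.single_eq_of_ne]
        intro hc
        exact h (Fin.castAdd_injective m n hc)
    · funext k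
      simp only [sp2, Pi.add_apply]
      rw [Pi.single_eq_of_ne, add_zero]
      intro hc
      have := congrArg Fin.val hc
      simp at this
      omega
  · rintro ⟨h1, h2⟩
    funext k
    refine Fin.addCases (fun k => ?_) (fun k => ?_) k
    · have := congrFun h1 k
      simp only [sp1, Pi.add_apply] at this
      rw [this, Pi.add_apply]
      congr 1
      by_cases h : k = i
      · subst h; simp
      · rw [Pi.single_eq_of_ne h, Pi.single_eq_of_ne]
        intro hc
        exact h (Fin.castAdd_injective m n hc)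
    · have := congrFun h2 k
      simp only [sp2] at this
      rw [this, Pi.add_apply, Pi.single_eq_of_ne, add_zero]
      intro hc
      have := congrArg Fin.val hc
      simp at this
      omega

lemma right (x y : Fin (m + n) → ZMod p) (j : Fin n) :
    y = x + Pi.single (Fin.natAdd m j) 1 ↔
      (sp p m n y).2 = (sp p m n x).2 + Pi.single j 1 ∧ (sp p m n y).1 = (sp p m n x).1 := by
  constructor
  · rintro rfl
    constructor
    · funext k
      simp only [sp2, Pi.add_apply]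
      congr 1
      by_cases h : k = j
      · subst h; simp
      · rw [Pi.single_eq_of_ne h, Pi.single_eq_of_ne]
        intro hc
        exact h (Fin.natAdd_injective n m hc)
    · funext k
      simp only [sp1, Pi.add_apply]
      rw [Pi.single_eq_of_ne, add_zero]
      intro hc
      have := congrArg Fin.val hc
      simp at this
      omega
  · rintro ⟨h1, h2⟩
    funext k
    refine Fin.addCases (fun k => ?_) (fun k => ?_) k
    · have := congrFun h2 k
      simp only [sp1] at this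
      rw [this, Pi.add_apply, Pi.single_eq_of_ne, add_zero]
      intro hc
      have := congrArg Fin.val hc
      simp at this
      omega
    · have := congrFun h1 k
      simp only [sp2, Pi.add_apply] at this
      rw [this, Pi.add_apply]
      congr 1
      by_cases h : k = j
      · subst h; simp
      · rw [Pi.single_eq_of_ne h, Pi.single_eq_of_ne]
        intro hc
        exact h (Fin.natAdd_injective n m hc)

end TsumAux

open TsumAux in
theorem tsum : S_TSUM := by
  intro p m n _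
  refine ⟨sp p m n, fun x y => ?_⟩
  rw [boxProd_adj]
  have hne : x ≠ y ↔ ¬ ((sp p m n x).1 = (sp p m n y).1 ∧ (sp p m n x).2 = (sp p m n y).2) := by
    rw [← Prod.ext_iff, (sp p m n).injective.eq_iff]
  show (x ≠ y ∧ ∃ i, y = x + Pi.single i 1 ∨ x = y + Pi.single i 1) ↔
    (((sp p m n x).1 ≠ (sp p m n y).1 ∧ ∃ i, (sp p m n y).1 = (sp p m n x).1 + Pi.single i 1 ∨
      (sp p m n x).1 = (sp p m n y).1 + Pi.single i 1) ∧ (sp p m n x).2 = (sp p m n y).2) ∨
    (((sp p m n x).2 ≠ (sp p m n y).2 ∧ ∃ i, (sp p m n y).2 = (sp p m n x).2 + Pi.single i 1 ∨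
      (sp p m n x).2 = (sp p m n y).2 + Pi.single i 1) ∧ (sp p m n x).1 = (sp p m n y).1)
  constructor
  · rintro ⟨h0, i, hi⟩
    rw [hne] at h0
    revert hi
    refine Fin.addCases (fun k => ?_) (fun k => ?_) i
    · intro hi
      rw [left, left] at hi
      rcases hi with ⟨h1, h2⟩ | ⟨h1, h2⟩
      · exact Or.inl ⟨⟨fun h => h0 ⟨h, h2.symm⟩, k, Or.inl h1⟩, h2.symm⟩
      · exact Or.inl ⟨⟨fun h => h0 ⟨h, h2⟩, k, Or.inr h1⟩, h2⟩
    · intro hi
      rw [right, right] at hi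
      rcases hi with ⟨h1, h2⟩ | ⟨h1, h2⟩
      · exact Or.inr ⟨⟨fun h => h0 ⟨h2.symm, h⟩, k, Or.inl h1⟩, h2.symm⟩
      · exact Or.inr ⟨⟨fun h => h0 ⟨h2, h⟩, k, Or.inr h1⟩, h2⟩
  · rintro (⟨⟨h1, k, hk⟩, h2⟩ | ⟨⟨h1, k, hk⟩, h2⟩)
    · refine ⟨hne.2 fun h => h1 h.1, Fin.castAdd n k, ?_⟩
      rw [left, left]
      rcases hk with hk | hk
      · exact Or.inl ⟨hk, h2.symm⟩
      · exact Or.inr ⟨hk, h2⟩
    · refine ⟨hne.2 fun h => h1 h.2, Fin.natAdd m k, ?_⟩
      rw [right, right]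
      rcases hk with hk | hk
      · exact Or.inl ⟨hk, h2.symm⟩
      · exact Or.inr ⟨hk, h2⟩

theorem glue : S_PROD → S_TRANS → S_TSUM → S_GLUE := by
  intro hP hT hS p m n K K' _ hm hn h1 hmn hK
  obtain ⟨h, hh⟩ := hm
  obtain ⟨f, hf⟩ := hn
  obtain ⟨Φ, hΦ1, hΦ2⟩ := hP p (Fin m → ZMod p) (Fin n → ZMod p) (Fin K) (Fin K') _ _ h f
    (Fin.castLE hK) m n (Fin.castLE_injective hK) h1 hmn (by simp [Nat.card_eq_fintype_card])
    (by simp [Nat.card_eq_fintype_card]) hh hf
  obtain ⟨φ, hφ⟩ := hS p m n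
  obtain ⟨t1, t2⟩ := hT (Fin (m + n) → ZMod p) ((Fin m → ZMod p) × (Fin n → ZMod p))
    (Fin (K + K')) (Fin K ⊕ Fin K') (tor p (Fin (m + n))) _ φ finSumFinEquiv.symm Φ hφ
  refine ⟨t2 _ hΦ1, fun hKK => t1 (hΦ2 fun j => ⟨⟨j.1, by omega⟩, ?_⟩)⟩
  ext
  rfl

end Pool.Agent.H28.CU
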