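import Pool.Agent.H28.CU.Stm

set_option autoImplicit false

/-! # Project CU, part VEC2 -/

namespace Pool.Agent.H28.CU

open Finset Module SimpleGraph H931R3.LA Pool.Agent.W111.LAR Pool.Agent.TH486.LAC

theorem vec2 : S_CAY2 → S_NUM2 → S_DEN2 → S_VEC2 := by
  intro hC hNu hD n S X hX hS hn hU
  obtain ⟨k, t, ht, htn, h6, htt⟩ := hNu n S.ncard hS hn
  have ht2 : 2 ≤ t := by
    rw [ht]
    exact Nat.le_self_pow (by omega) 2
  have hfin : ∀ U : Submodule (ZMod 2) (Fin n → ZMod 2), _ := fun U =>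
    hD n S.ncard t {s | s ∈ S ∧ s ∈ U}.ncard (finrank (ZMod 2) U) ht2 htn htt (hU U)
  refine hC (Multiplicative (Fin n → ZMod 2)) (Fin n → ZMod 2) (MonoidHom.id _) S X k t ?_ ?_ ?_ ht
    ?_ ?_ ?_ ?_ ?_
  · intro g h
    refine (hX g h).trans ?_
    rw [sub_eq_neg_add]
    rfl
  · intro s hs
    have h : ∀ v : Fin n → ZMod 2, v + v = 0 := by
      intro v
      funext i
      exact CharTwo.add_self_eq_zero (v i)
    exact h s
  · refine Set.nonempty_of_ncard_ne_zero ?_
    have : (144 : ℕ) ≤ S.ncard := hS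
    show S.ncard ≠ 0
    omega
  · show t * (t - 2) ≤ 2 * S.ncard
    refine le_trans (Nat.mul_le_mul_left t ?_) htt
    omega
  · intro _
    show S.ncard ≤ 2 ^ t
    omega
  · intro _
    show 6 * S.ncard ≤ 2 ^ t + 14
    omega
  · intro U hd
    exact (hfin U).1 hd
  · intro U hd
    exact (hfin U).2 hd

end Pool.Agent.H28.CU
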